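import Mathlib

set_option autoImplicit false

namespace Pool.Agent.Helper48.HJI

section Abstract

variable {G : Type*} [Group G]

/-- A complete separated central filtration. -/
structure Filt (Γ : ℕ → Subgroup G) : Prop where
  normal : ∀ n, (Γ n).Normal
  anti : Antitone Γ
  central : ∀ n, ∀ g : G, ∀ h ∈ Γ n, g * h * g⁻¹ * h⁻¹ ∈ Γ (n + 1)
  sep : ∀ g, (∀ n, g ∈ Γ n) → g = 1
  compl : ∀ u : ℕ → G, (∀ n, (u n)⁻¹ * u (n + 1) ∈ Γ n) → ∃ g, ∀ n, (u n)⁻¹ * g ∈ Γ n

/-- commutator in a group -/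
def cg (a b : G) : G := a * b * a⁻¹ * b⁻¹

lemma prod_congr_mod {Q : Type*} [Group Q] (π : G →* Q) {ι : Type*} (l : List ι) (f g : ι → G)
    (h : ∀ i, π (f i) = π (g i)) : π (l.map f).prod = π (l.map g).prod := by
  induction l with
  | nil => rfl
  | cons i l ih =>
    rw [List.map_cons, List.map_cons, List.prod_cons, List.prod_cons, map_mul, map_mul, ih, h]

lemma prod_mul_mod {Q : Type*} [Group Q] (π : G →* Q) {ι : Type*} (l : List ι) (f g f' : ι → G)
    (h : ∀ i, π (f' i) = π (f i) * π (g i)) (hc : ∀ i, ∀ x, π (g i) * x = x * π (g i)) :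
    π (l.map f').prod = π (l.map f).prod * π (l.map g).prod := by
  induction l with
  | nil => simp
  | cons i l ih =>
    rw [List.map_cons, List.map_cons, List.map_cons, List.prod_cons, List.prod_cons,
      List.prod_cons, map_mul, map_mul, map_mul, ih, h, mul_assoc, mul_assoc,
      ← mul_assoc (π (g i)), hc, mul_assoc]

lemma cg_mul (h Y y : G) : cg h (Y * y) = cg h Y * (Y * cg h y * Y⁻¹) := by
  unfold cg; group

lemma newton_abs {Γ : ℕ → Subgroup G} (hΓ : Filt Γ) {ι : Type*} (l : List ι) (h : ι → G)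
    (a m0 : ℕ)
    (step : ∀ m, m0 ≤ m → ∀ z ∈ Γ m, ∃ y : ι → G, (∀ i, y i ∈ Γ (m - a)) ∧
      (∀ i, cg (h i) (y i) ∈ Γ m) ∧ z⁻¹ * (l.map (fun i => cg (h i) (y i))).prod ∈ Γ (m + 1))
    {m : ℕ} (hm : m0 ≤ m) {z : G} (hz : z ∈ Γ m) :
    ∃ Y : ι → G, (∀ i, Y i ∈ Γ (m - a)) ∧ z = (l.map (fun i => cg (h i) (Y i))).prod := by
  set P : (ι → G) → G := fun Y => (l.map (fun i => cg (h i) (Y i))).prod with hP
  have step' : ∀ t (Y : ι → G), ∃ Y' : ι → G, (∀ i, Y i ∈ Γ (m - a)) ∧ (P Y)⁻¹ * z ∈ Γ (m + t) →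
      ((∀ i, Y' i ∈ Γ (m - a)) ∧ (P Y')⁻¹ * z ∈ Γ (m + (t + 1))) ∧
        ∀ i, (Y i)⁻¹ * Y' i ∈ Γ (m + t - a) := by
    intro t Y
    by_cases hI : (∀ i, Y i ∈ Γ (m - a)) ∧ (P Y)⁻¹ * z ∈ Γ (m + t)
    · obtain ⟨hY, hz'⟩ := hI
      obtain ⟨y, hy1, hy2, hy3⟩ := step (m + t) (by omega) _ hz'
      refine ⟨fun i => Y i * y i, fun _ => ⟨⟨?_, ?_⟩, ?_⟩⟩
      · intro i
        exact (Γ _).mul_mem (hY i) (hΓ.anti (by omega) (hy1 i))
      · haveI := hΓ.normal (m + t + 1)
        set π := QuotientGroup.mk' (Γ (m + t + 1)) with hπ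
        have hcen : ∀ i, ∀ x, π (cg (h i) (y i)) * x = x * π (cg (h i) (y i)) := by
          intro i x
          obtain ⟨g, rfl⟩ := QuotientGroup.mk'_surjective _ x
          have h1 := hΓ.central (m + t) g _ (hy2 i)
          have h2 : π (g * cg (h i) (y i) * g⁻¹ * (cg (h i) (y i))⁻¹) = 1 := by
            rw [hπ, QuotientGroup.mk'_apply, QuotientGroup.eq_one_iff]; exact h1
          rw [map_mul, map_mul, map_mul, map_inv, map_inv, mul_inv_eq_one, mul_inv_eq_iff_eq_mul] at h2
          exact h2.symm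
        have h3 : π (P (fun i => Y i * y i)) = π (P Y) * π (P y) := by
          apply prod_mul_mod π l _ _ _ _ hcen
          intro i
          rw [cg_mul, map_mul, map_mul, map_mul, map_inv, ← hcen, mul_assoc, mul_inv_cancel, mul_one]
        have h4 : π (((P Y)⁻¹ * z)⁻¹ * P y) = 1 := by
          rw [hπ, QuotientGroup.mk'_apply, QuotientGroup.eq_one_iff]; exact hy3
        have h5 : π ((P (fun i => Y i * y i))⁻¹ * z) = 1 := by
          rw [map_mul, map_inv, h3, mul_inv_rev, mul_assoc, ← map_inv, ← map_inv, ← map_mul, ← map_mul]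
          have h6 := congrArg (fun t => t⁻¹) h4
          simp only [← map_inv, mul_inv_rev, inv_inv, inv_one] at h6
          exact h6
        rw [hπ, QuotientGroup.mk'_apply, QuotientGroup.eq_one_iff] at h5
        exact h5
      · intro i
        change (Y i)⁻¹ * (Y i * y i) ∈ _
        rw [inv_mul_cancel_left]
        exact hy1 i
    · exact ⟨Y, fun h => absurd h hI⟩
  choose next hnext using step'
  let Y : ℕ → ι → G := fun t => Nat.rec (fun _ => 1) (fun t Y => next t Y) t
  have hY0 : Y 0 = fun _ => 1 := rfl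
  have hYs : ∀ t, Y (t + 1) = next t (Y t) := fun t => rfl
  have hinv : ∀ t, (∀ i, Y t i ∈ Γ (m - a)) ∧ (P (Y t))⁻¹ * z ∈ Γ (m + t) := by
    intro t
    induction t with
    | zero =>
      refine ⟨fun i => (Γ _).one_mem, ?_⟩
      have : P (Y 0) = 1 := by
        rw [hY0, hP]
        apply List.prod_eq_one
        intro x hx
        obtain ⟨i, _, rfl⟩ := List.mem_map.mp hx
        unfold cg
        group
      rw [this, inv_one, one_mul]
      exact hz
    | succ t ih =>
      rw [hYs]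
      exact (hnext t _ ih).1
  have hrel : ∀ t i, (Y t i)⁻¹ * Y (t + 1) i ∈ Γ (m + t - a) := by
    intro t i
    rw [hYs]
    exact (hnext t _ (hinv t)).2 i
  have hlim : ∀ i, ∃ g, ∀ n, (Y (n + a) i)⁻¹ * g ∈ Γ n := by
    intro i
    apply hΓ.compl (fun n => Y (n + a) i)
    intro n
    have := hrel (n + a) i
    rw [show n + 1 + a = n + a + 1 by ring]
    exact hΓ.anti (by omega) this
  choose g hg using hlim
  refine ⟨g, ?_, ?_⟩
  · intro i
    have h1 := hg i (m - a)
    have h2 := (hinv (m - a + a)).1 i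
    have h3 := (Γ (m - a)).mul_mem h2 h1
    rwa [mul_inv_cancel_left] at h3
  · have : (P g)⁻¹ * z = 1 := by
      apply hΓ.sep
      intro n
      haveI := hΓ.normal n
      set π := QuotientGroup.mk' (Γ n) with hπ
      have h1 : π (P (Y (n + a))) = π (P g) := by
        apply prod_congr_mod
        intro i
        have h2 : π ((Y (n + a) i)⁻¹ * g i) = 1 := by
          rw [hπ, QuotientGroup.mk'_apply, QuotientGroup.eq_one_iff]; exact hg i n
        rw [map_mul, map_inv, inv_mul_eq_one] at h2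
        unfold cg
        rw [map_mul, map_mul, map_mul, map_mul, map_mul, map_mul, map_inv, map_inv, map_inv, h2]
      have h3 : π ((P (Y (n + a)))⁻¹ * z) = 1 := by
        rw [hπ, QuotientGroup.mk'_apply, QuotientGroup.eq_one_iff]
        exact hΓ.anti (by omega) (hinv (n + a)).2
      have h4 : π ((P g)⁻¹ * z) = 1 := by
        rw [map_mul, map_inv, ← h1, ← map_inv, ← map_mul]; exact h3
      rw [hπ, QuotientGroup.mk'_apply, QuotientGroup.eq_one_iff] at h4
      exact h4
    rw [inv_mul_eq_one] at this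
    exact this.symm

end Abstract

end Pool.Agent.Helper48.HJI
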