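import Mathlib

set_option autoImplicit false

namespace Pool.Agent.Helper48.HJI

open MvPowerSeries Finset

/-- The power series ring `𝔽₂[[x, y]]`. -/
abbrev L : Type := MvPowerSeries (Fin 2) (ZMod 2)

/-- The (ℤ-indexed) filtration of `L` by order. -/
def F (n : ℤ) : Ideal L where
  carrier := {r | ∀ d : Fin 2 →₀ ℕ, (d.degree : ℤ) < n → coeff d r = 0}
  add_mem' := by
    intro a b ha hb d hd
    rw [map_add, ha d hd, hb d hd, add_zero]
  zero_mem' := by
    intro d _
    simp
  smul_mem' := by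
    intro c r hr d hd
    rw [smul_eq_mul, coeff_mul]
    apply Finset.sum_eq_zero
    intro p hp
    rw [HasAntidiagonal.mem_antidiagonal] at hp
    have h1 : (p.2.degree : ℤ) < n := by
      have : d.degree = p.1.degree + p.2.degree := by rw [← hp, map_add]
      omega
    rw [hr p.2 h1, mul_zero]

lemma mem_F {n : ℤ} {r : L} :
    r ∈ F n ↔ ∀ d : Fin 2 →₀ ℕ, (d.degree : ℤ) < n → coeff d r = 0 := Iff.rfl

lemma F_mul {m n : ℤ} {r s : L} (hr : r ∈ F m) (hs : s ∈ F n) : r * s ∈ F (m + n) := by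
  intro d hd
  rw [coeff_mul]
  apply Finset.sum_eq_zero
  intro p hp
  rw [HasAntidiagonal.mem_antidiagonal] at hp
  have h0 : d.degree = p.1.degree + p.2.degree := by rw [← hp, map_add]
  by_cases h1 : (p.1.degree : ℤ) < m
  · rw [hr p.1 h1, zero_mul]
  · have h2 : (p.2.degree : ℤ) < n := by omega
    rw [hs p.2 h2, mul_zero]

lemma F_anti {m n : ℤ} (h : m ≤ n) : F n ≤ F m := by
  intro r hr d hd
  exact hr d (by omega)

lemma mem_F_of_le {m n : ℤ} {r : L} (h : m ≤ n) (hr : r ∈ F n) : r ∈ F m := F_anti h hr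

lemma mem_F_nonpos {n : ℤ} (h : n ≤ 0) (r : L) : r ∈ F n := by
  intro d hd
  omega

lemma eq_zero_of_forall_mem_F {r : L} (h : ∀ n : ℕ, r ∈ F n) : r = 0 := by
  ext d
  rw [coeff_zero]
  exact h (d.degree + 1) d (by push_cast; omega)

lemma F_pow {m : ℤ} {r : L} (hr : r ∈ F m) (k : ℕ) : r ^ k ∈ F (k * m) := by
  induction k with
  | zero => simp only [pow_zero, Nat.cast_zero, zero_mul]; exact mem_F_nonpos le_rfl _
  | succ k ih =>
    rw [pow_succ]
    have := F_mul ih hr
    have e : ((k + 1 : ℕ) : ℤ) * m = k * m + m := by push_cast; ring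
    rw [e]; exact this

lemma X_mem (i : Fin 2) : (X i : L) ∈ F 1 := by
  intro d hd
  have h0 : d.degree = 0 := by omega
  rw [Finsupp.degree_eq_zero_iff] at h0
  rw [h0]
  exact coeff_zero_X i

lemma X_pow_mem (i : Fin 2) (k : ℕ) : (X i : L) ^ k ∈ F k := by
  have := F_pow (X_mem i) k
  simpa using this

/-- order cancels for multiplication by `X i`. -/
lemma mem_F_of_X_mul {i : Fin 2} {n : ℤ} {r : L} (h : X i * r ∈ F (n + 1)) : r ∈ F n := by
  intro d hd
  have h1 := h (d + Finsupp.single i 1) (by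
    rw [map_add, Finsupp.degree_single]
    push_cast
    omega)
  rw [X_def, add_comm, coeff_add_monomial_mul, one_mul] at h1
  exact h1

lemma mem_F_of_X_pow_mul {i : Fin 2} (k : ℕ) : ∀ {n : ℤ} {r : L}, (X i) ^ k * r ∈ F (n + k) → r ∈ F n := by
  induction k with
  | zero => intro n r h; simpa using h
  | succ k ih =>
    intro n r h
    apply mem_F_of_X_mul (i := i)
    apply ih
    have e : n + ((k + 1 : ℕ) : ℤ) = n + 1 + k := by push_cast; ring
    rw [e, pow_succ, mul_assoc] at h
    exact h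

/-! ### Splitting -/

/-- part of `r` consisting of monomials with `x`-exponent at least `k`, divided by `x^k` -/
noncomputable def divX (k : ℕ) (r : L) : L := fun d => coeff (d + Finsupp.single 0 k) r

/-- part of `r` consisting of monomials with `x`-exponent less than `k`, and `y` exponent at
least `l`, divided by `y^l`. -/
noncomputable def divY (k l : ℕ) (r : L) : L :=
  fun d => if d 0 < k then coeff (d + Finsupp.single 1 l) r else 0

lemma coeff_divX (k : ℕ) (r : L) (d : Fin 2 →₀ ℕ) :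
    coeff d (divX k r) = coeff (d + Finsupp.single 0 k) r := rfl

lemma coeff_divY (k l : ℕ) (r : L) (d : Fin 2 →₀ ℕ) :
    coeff d (divY k l r) = if d 0 < k then coeff (d + Finsupp.single 1 l) r else 0 := rfl

lemma coeff_X_pow_mul_of_le (i : Fin 2) (k : ℕ) (r : L) (d : Fin 2 →₀ ℕ) (h : k ≤ d i) :
    coeff d ((X i) ^ k * r) = coeff (d - Finsupp.single i k) r := by
  rw [X_pow_eq, coeff_monomial_mul, if_pos (by simpa [Finsupp.single_le_iff] using h), one_mul]

lemma coeff_X_pow_mul_of_lt (i : Fin 2) (k : ℕ) (r : L) (d : Fin 2 →₀ ℕ) (h : d i < k) :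
    coeff d ((X i) ^ k * r) = 0 := by
  rw [X_pow_eq, coeff_monomial_mul, if_neg (by simpa [Finsupp.single_le_iff] using h)]

lemma divX_mem {k : ℕ} {n : ℤ} {r : L} (h : r ∈ F (n + k)) : divX k r ∈ F n := by
  intro d hd
  rw [coeff_divX]
  apply h
  rw [map_add, Finsupp.degree_single]
  push_cast
  omega

lemma divY_mem {k l : ℕ} {n : ℤ} {r : L} (h : r ∈ F (n + l)) : divY k l r ∈ F n := by
  intro d hd
  rw [coeff_divY]
  split_ifs
  · apply h
    rw [map_add, Finsupp.degree_single]
    push_cast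
    omega
  · rfl

lemma degree_fin2 (d : Fin 2 →₀ ℕ) : d.degree = d 0 + d 1 := by
  rw [Finsupp.degree_eq_sum, Fin.sum_univ_two]

/-- if the order is at least `k + l - 1` then `r = x^k r₁ + y^l r₂`. -/
lemma split_eq {k l : ℕ} {r : L} (h : r ∈ F ((k : ℤ) + l - 1)) :
    r = (X 0) ^ k * divX k r + (X 1) ^ l * divY k l r := by
  ext d
  rw [map_add]
  by_cases h0 : k ≤ d 0
  · rw [coeff_X_pow_mul_of_le 0 k _ d h0, coeff_divX]
    have e1 : d - Finsupp.single 0 k + Finsupp.single 0 k = d := by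
      apply tsub_add_cancel_of_le
      simpa [Finsupp.single_le_iff] using h0
    rw [e1]
    have e2 : coeff d ((X 1 : L) ^ l * divY k l r) = 0 := by
      by_cases h1 : l ≤ d 1
      · rw [coeff_X_pow_mul_of_le 1 l _ d h1, coeff_divY, if_neg]
        simp only [Finsupp.coe_tsub, Pi.sub_apply]
        rw [Finsupp.single_eq_of_ne (by decide)]
        omega
      · exact coeff_X_pow_mul_of_lt 1 l _ d (by omega)
    rw [e2, add_zero]
  · rw [coeff_X_pow_mul_of_lt 0 k _ d (by omega), zero_add]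
    by_cases h1 : l ≤ d 1
    · rw [coeff_X_pow_mul_of_le 1 l _ d h1, coeff_divY, if_pos]
      · have e1 : d - Finsupp.single 1 l + Finsupp.single 1 l = d := by
          apply tsub_add_cancel_of_le
          simpa [Finsupp.single_le_iff] using h1
        rw [e1]
      · simp only [Finsupp.coe_tsub, Pi.sub_apply]
        rw [Finsupp.single_eq_of_ne (by decide)]
        omega
    · rw [coeff_X_pow_mul_of_lt 1 l _ d (by omega)]
      apply h
      rw [degree_fin2]
      push_cast
      omega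

/-- every element of `F (n+1)`, `n ≥ 0`, is `x r₁ + y r₂` with `r₁, r₂ ∈ F n`. -/
lemma split_one {n : ℤ} {r : L} (hn : 0 ≤ n) (h : r ∈ F (n + 1)) :
    ∃ r₁ ∈ F n, ∃ r₂ ∈ F n, r = X 0 * r₁ + X 1 * r₂ := by
  refine ⟨divX 1 r, divX_mem (by simpa using h), divY 1 1 r, divY_mem (by simpa using h), ?_⟩
  have := split_eq (k := 1) (l := 1) (r := r) (mem_F_of_le (by simpa using hn) h)
  simpa using this

lemma const_cases (r : L) : r ∈ F 1 ∨ r - 1 ∈ F 1 := by
  have h2 : ∀ c : ZMod 2, c = 0 ∨ c = 1 := by decide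
  rcases h2 (coeff 0 r) with h | h
  · left
    intro d hd
    have h0 : d.degree = 0 := by omega
    rw [Finsupp.degree_eq_zero_iff] at h0
    rw [h0, h]
  · right
    intro d hd
    have h0 : d.degree = 0 := by omega
    rw [Finsupp.degree_eq_zero_iff] at h0
    rw [h0, map_sub, h, coeff_zero_one, sub_self]

/-- every element is `c + x r₁ + y r₂` with `c ∈ {0, 1}`. -/
lemma split_gen (r : L) : ∃ c r₁ r₂ : L, (c = 0 ∨ c = 1) ∧ r = c + X 0 * r₁ + X 1 * r₂ := by
  rcases const_cases r with h | h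
  · obtain ⟨r₁, _, r₂, _, e⟩ := split_one (n := 0) le_rfl (by simpa using h)
    exact ⟨0, r₁, r₂, Or.inl rfl, by rw [zero_add]; exact e⟩
  · obtain ⟨r₁, _, r₂, _, e⟩ := split_one (n := 0) le_rfl (by simpa using h)
    refine ⟨1, r₁, r₂, Or.inr rfl, ?_⟩
    rw [add_assoc, ← e]; ring

lemma one_not_mem_F : (1 : L) ∉ F 1 := by
  intro h
  have := h 0 (by simp)
  rw [coeff_zero_one] at this
  exact one_ne_zero this

lemma isUnit_iff (r : L) : IsUnit r ↔ r ∉ F 1 := by
  rw [MvPowerSeries.isUnit_iff_constantCoeff, isUnit_iff_ne_zero, ← coeff_zero_eq_constantCoeff_apply]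
  constructor
  · intro h h1
    exact h (h1 0 (by simp))
  · intro h h1
    apply h
    intro d hd
    have h0 : d.degree = 0 := by omega
    rw [Finsupp.degree_eq_zero_iff] at h0
    rw [h0, h1]

/-! ### Characteristic two -/

instance : CharP L 2 := by
  have : CharP (ZMod 2) 2 := ZMod.charP 2
  exact charP_of_injective_ringHom (f := (C : ZMod 2 →+* L)) (C_injective) 2

lemma two_eq_zero : (2 : L) = 0 := CharTwo.two_eq_zero

lemma add_self (r : L) : r + r = 0 := CharTwo.add_self_eq_zero r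

lemma neg_eq (r : L) : -r = r := CharTwo.neg_eq r

/-! ### Completeness -/

lemma complete (u : ℕ → L) (h : ∀ n : ℕ, u (n + 1) - u n ∈ F n) :
    ∃ r : L, ∀ n : ℕ, r - u n ∈ F n := by
  have h1 : ∀ n k : ℕ, u (n + k) - u n ∈ F n := by
    intro n k
    induction k with
    | zero => simp
    | succ k ih =>
      have e : u (n + (k + 1)) - u n = (u (n + k + 1) - u (n + k)) + (u (n + k) - u n) := by
        rw [← add_assoc]; ring
      rw [e]
      exact (F n).add_mem (mem_F_of_le (by push_cast; omega) (h (n + k))) ih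
  obtain ⟨r, hr⟩ : ∃ r : L, ∀ d, coeff d r = coeff d (u (d.degree + 1)) :=
    ⟨fun d => coeff d (u (d.degree + 1)), fun d => rfl⟩
  refine ⟨r, ?_⟩
  intro n d hd
  rw [map_sub, hr]
  have hd' : d.degree + 1 ≤ n := by omega
  obtain ⟨k, hk⟩ := Nat.exists_eq_add_of_le hd'
  have := h1 (d.degree + 1) k d (by push_cast; omega)
  rw [← hk, map_sub, sub_eq_zero] at this
  rw [this, sub_self]

end Pool.Agent.Helper48.HJI
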