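import Mathlib
import Pool.Agent.Helper48.HJI.Basic

set_option autoImplicit false

namespace Pool.Agent.Helper48.HJI

open MvPowerSeries Finset

/-- additive operators on `L` -/
abbrev Op : Type := AddMonoid.End L

/-- the filtration of the ring of additive operators -/
def O (E : ℤ) : AddSubgroup Op where
  carrier := {T | ∀ n : ℤ, ∀ r ∈ F n, T r ∈ F (n + E)}
  add_mem' := by
    intro S T hS hT n r hr
    exact (F _).add_mem (hS n r hr) (hT n r hr)
  zero_mem' := by
    intro n r _
    exact (F _).zero_mem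
  neg_mem' := by
    intro T hT n r hr
    exact (F _).neg_mem (hT n r hr)

lemma mem_O {E : ℤ} {T : Op} : T ∈ O E ↔ ∀ n : ℤ, ∀ r ∈ F n, T r ∈ F (n + E) := Iff.rfl

lemma O_anti {a b : ℤ} (h : a ≤ b) {T : Op} (hT : T ∈ O b) : T ∈ O a := by
  intro n r hr
  exact mem_F_of_le (by omega) (hT n r hr)

lemma O_mul {a b : ℤ} {S T : Op} (hS : S ∈ O a) (hT : T ∈ O b) : S * T ∈ O (a + b) := by
  intro n r hr
  have h := hS _ _ (hT n r hr)
  have e : n + (a + b) = n + b + a := by ring
  rw [e]
  exact h

lemma one_mem_O : (1 : Op) ∈ O 0 := by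
  intro n r hr
  rw [add_zero]
  exact hr

lemma eq_zero_of_forall_O {T : Op} (h : ∀ n : ℕ, T ∈ O n) : T = 0 := by
  ext r : 1
  apply eq_zero_of_forall_mem_F
  intro n
  have := h n 0 r (mem_F_nonpos le_rfl r)
  simpa using this

/-- multiplication operators -/
noncomputable def mu : L →+* Op := Module.toAddMonoidEnd L L

@[simp] lemma mu_apply (c r : L) : mu c r = c * r := rfl

lemma mu_mem {e : ℤ} {c : L} (h : c ∈ F e) : mu c ∈ O e := by
  intro n r hr
  rw [mu_apply, add_comm]
  exact F_mul h hr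

/-- ring automorphisms as operators -/
noncomputable def op : RingAut L →* Op where
  toFun g := (RingEquiv.toRingHom g).toAddMonoidHom
  map_one' := rfl
  map_mul' := fun _ _ => rfl

@[simp] lemma op_apply (g : RingAut L) (r : L) : op g r = g r := rfl

lemma op_injective {g h : RingAut L} (e : op g = op h) : g = h := by
  ext1 r
  have := congrArg (fun T : Op => T r) e
  simpa using this

lemma op_mul_inv (g : RingAut L) : op g * op g⁻¹ = 1 := by
  rw [← map_mul, mul_inv_cancel, map_one]

lemma op_inv_mul (g : RingAut L) : op g⁻¹ * op g = 1 := by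
  rw [← map_mul, inv_mul_cancel, map_one]

/-- derivations -/
abbrev Der : Type := Derivation (ZMod 2) L L

/-- derivations as operators -/
noncomputable def dop : Der →+ Op where
  toFun δ := (δ : L →ₗ[ZMod 2] L).toAddMonoidHom
  map_zero' := rfl
  map_add' := fun _ _ => rfl

@[simp] lemma dop_apply (δ : Der) (r : L) : dop δ r = δ r := rfl

lemma dop_injective {δ ε : Der} (e : dop δ = dop ε) : δ = ε := by
  ext1 r
  have := congrArg (fun T : Op => T r) e
  simpa using this

lemma dop_smul (c : L) (δ : Der) : dop (c • δ) = mu c * dop δ := rfl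

lemma dop_lie (δ ε : Der) : dop ⁅δ, ε⁆ = dop δ * dop ε - dop ε * dop δ := by
  ext1 r
  exact Derivation.commutator_apply (D1 := δ) (D2 := ε) r

/-! ### Generation lemma -/

lemma gen_aux {T : Op} {E : ℤ} (h1 : T 1 = 0)
    (hX : ∀ i : Fin 2, ∀ n : ℕ, ∀ r ∈ F n, T (X i * r) - X i * T r ∈ F (n + 1 + E)) :
    ∀ r, T r ∈ F (E + 1) := by
  have key : ∀ t : ℕ, (t : ℤ) ≤ E + 1 → ∀ r, T r ∈ F t := by
    intro t
    induction t with
    | zero => intro _ r; exact mem_F_nonpos (by simp) _
    | succ t ih =>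
      intro ht r
      have ih' := ih (by push_cast at ht; omega)
      obtain ⟨c, r₁, r₂, hc, e⟩ := split_gen r
      have hTc : T c = 0 := by
        rcases hc with rfl | rfl
        · exact map_zero T
        · exact h1
      have e2 : T r = (T (X 0 * r₁) - X 0 * T r₁) + X 0 * T r₁
          + ((T (X 1 * r₂) - X 1 * T r₂) + X 1 * T r₂) := by
        rw [e, map_add, map_add, hTc]; ring
      rw [e2]
      have hx := fun (i : Fin 2) (s : L) => hX i 0 s (mem_F_nonpos (by simp) _)
      have hy : ∀ (i : Fin 2) (s : L), X i * T s ∈ F ((t + 1 : ℕ) : ℤ) := by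
        intro i s
        have := F_mul (X_mem i) (ih' s)
        have e3 : ((t + 1 : ℕ) : ℤ) = 1 + t := by push_cast; ring
        rw [e3]; exact this
      have hx' : ∀ (i : Fin 2) (s : L), T (X i * s) - X i * T s ∈ F ((t + 1 : ℕ) : ℤ) := by
        intro i s
        apply mem_F_of_le _ (hx i s)
        push_cast at ht ⊢
        omega
      exact (F _).add_mem ((F _).add_mem (hx' 0 r₁) (hy 0 r₁)) ((F _).add_mem (hx' 1 r₂) (hy 1 r₂))
  intro r
  by_cases hE : E + 1 ≤ 0
  · exact mem_F_nonpos hE _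
  · have := key (E + 1).toNat (by rw [Int.toNat_of_nonneg (by omega)]) r
    rwa [Int.toNat_of_nonneg (by omega)] at this

lemma gen_mem_O {T : Op} {E : ℤ} (h1 : T 1 = 0)
    (hX : ∀ i : Fin 2, ∀ n : ℕ, ∀ r ∈ F n, T (X i * r) - X i * T r ∈ F (n + 1 + E)) :
    T ∈ O E := by
  have hall := gen_aux h1 hX
  have key : ∀ n : ℕ, ∀ r ∈ F n, T r ∈ F (n + E) := by
    intro n
    induction n with
    | zero =>
      intro r _
      exact mem_F_of_le (by simp) (hall r)
    | succ n ih =>
      intro r hr
      obtain ⟨r₁, h₁, r₂, h₂, e⟩ := split_one (n := n) (by omega) (by push_cast at hr; exact hr)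
      have e2 : T r = (T (X 0 * r₁) - X 0 * T r₁) + X 0 * T r₁
          + ((T (X 1 * r₂) - X 1 * T r₂) + X 1 * T r₂) := by
        rw [e, map_add]; ring
      rw [e2]
      have hy : ∀ (i : Fin 2) (s : L), s ∈ F n → X i * T s ∈ F (((n + 1 : ℕ) : ℤ) + E) := by
        intro i s hs
        have := F_mul (X_mem i) (ih s hs)
        have e3 : ((n + 1 : ℕ) : ℤ) + E = 1 + (n + E) := by push_cast; ring
        rw [e3]; exact this
      have hx' : ∀ (i : Fin 2) (s : L), s ∈ F n →
          T (X i * s) - X i * T s ∈ F (((n + 1 : ℕ) : ℤ) + E) := by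
        intro i s hs
        apply mem_F_of_le _ (hX i n s hs)
        push_cast
        omega
      exact (F _).add_mem ((F _).add_mem (hx' 0 r₁ h₁) (hy 0 r₁ h₁))
        ((F _).add_mem (hx' 1 r₂ h₂) (hy 1 r₂ h₂))
  intro n r hr
  by_cases hn : 0 ≤ n
  · have := key n.toNat r (by rwa [Int.toNat_of_nonneg hn])
    rwa [Int.toNat_of_nonneg hn] at this
  · exact mem_F_of_le (by omega) (hall r)

/-- A derivation whose values on `x, y` are in `F e` is in `O (e - 1)`. -/
lemma der_mem_O {δ : Der} {e : ℤ} (h : ∀ i, δ (X i) ∈ F e) : dop δ ∈ O (e - 1) := by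
  apply gen_mem_O
  · simp
  · intro i n r hr
    rw [dop_apply, dop_apply, Derivation.leibniz, smul_eq_mul, smul_eq_mul]
    have e1 : X i * δ r + r * δ (X i) - X i * δ r = δ (X i) * r := by ring
    rw [e1]
    have := F_mul (h i) hr
    exact mem_F_of_le (by omega) this

lemma der_mem_F {δ : Der} {e : ℤ} (h : ∀ i, δ (X i) ∈ F e) (r : L) : δ r ∈ F e := by
  have := gen_aux (T := dop δ) (E := e - 1) (by simp) (by
    intro i n r hr
    rw [dop_apply, dop_apply, Derivation.leibniz, smul_eq_mul, smul_eq_mul]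
    have e1 : X i * δ r + r * δ (X i) - X i * δ r = δ (X i) * r := by ring
    rw [e1]
    have := F_mul (h i) hr
    exact mem_F_of_le (by omega) this) r
  simpa using this

lemma der_mem_O_general (δ : Der) : dop δ ∈ O (-1) := by
  have := der_mem_O (δ := δ) (e := 0) (fun i => mem_F_nonpos le_rfl _)
  simpa using this

/-- A ring endomorphism sending `x, y` into `F 1` preserves the filtration. -/
lemma hom_mem_F (g : L →+* L) (h : ∀ i, g (X i) ∈ F 1) : ∀ n : ℤ, ∀ r ∈ F n, g r ∈ F n := by
  have key : ∀ n : ℕ, ∀ r ∈ F n, g r ∈ F n := by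
    intro n
    induction n with
    | zero => intro r _; exact mem_F_nonpos (by simp) _
    | succ n ih =>
      intro r hr
      obtain ⟨r₁, h₁, r₂, h₂, e⟩ := split_one (n := n) (by omega) (by push_cast at hr; exact hr)
      rw [e, map_add, map_mul, map_mul]
      have e3 : ((n + 1 : ℕ) : ℤ) = 1 + n := by push_cast; ring
      rw [e3]
      exact (F _).add_mem (F_mul (h 0) (ih r₁ h₁)) (F_mul (h 1) (ih r₂ h₂))
  intro n r hr
  by_cases hn : 0 ≤ n
  · have := key n.toNat r (by rwa [Int.toNat_of_nonneg hn])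
    rwa [Int.toNat_of_nonneg hn] at this
  · exact mem_F_nonpos (by omega) _

/-- Two ring endomorphisms agreeing on `x, y` (with values in `F 1`) are equal. -/
lemma hom_ext {g h : L →+* L} (hg : ∀ i, g (X i) ∈ F 1) (e : ∀ i, g (X i) = h (X i)) : g = h := by
  have key : ∀ n : ℕ, ∀ r, g r - h r ∈ F n := by
    intro n
    induction n with
    | zero => intro r; exact mem_F_nonpos (by simp) _
    | succ n ih =>
      intro r
      obtain ⟨c, r₁, r₂, hc, er⟩ := split_gen r
      have hc' : g c = h c := by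
        rcases hc with rfl | rfl
        · simp
        · simp
      have e2 : g r - h r = g (X 0) * (g r₁ - h r₁) + g (X 1) * (g r₂ - h r₂) := by
        rw [er, map_add, map_add, map_mul, map_mul, map_add, map_add, map_mul, map_mul, hc',
          ← e 0, ← e 1]
        ring
      rw [e2]
      have e3 : ((n + 1 : ℕ) : ℤ) = 1 + n := by push_cast; ring
      rw [e3]
      exact (F _).add_mem (F_mul (hg 0) (ih r₁)) (F_mul (hg 1) (ih r₂))
  ext1 r
  rw [← sub_eq_zero]
  exact eq_zero_of_forall_mem_F (fun n => key n r)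

/-- ring endomorphisms as operators -/
noncomputable def hop (g : L →+* L) : Op := g.toAddMonoidHom

@[simp] lemma hop_apply (g : L →+* L) (r : L) : hop g r = g r := rfl

lemma sub_apply (S T : Op) (r : L) : (S - T) r = S r - T r := rfl

lemma sub_one_mem_O (g : L →+* L) {k : ℤ} (hk : 0 ≤ k) (h : ∀ i, g (X i) - X i ∈ F (k + 1)) :
    hop g - 1 ∈ O k := by
  have hg1 : ∀ i, g (X i) ∈ F 1 := by
    intro i
    have e : g (X i) = (g (X i) - X i) + X i := by ring
    rw [e]
    exact (F _).add_mem (mem_F_of_le (by omega) (h i)) (X_mem i)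
  apply gen_mem_O
  · rw [sub_apply, hop_apply, map_one]
    exact sub_self _
  · intro i n r hr
    rw [sub_apply, sub_apply, hop_apply, hop_apply]
    change (g (X i * r) - X i * r) - X i * (g r - r) ∈ F _
    have e : (g (X i * r) - X i * r) - X i * (g r - r) = (g (X i) - X i) * g r := by
      rw [map_mul]; ring
    rw [e]
    have := F_mul (h i) (hom_mem_F g hg1 n r hr)
    exact mem_F_of_le (by omega) this

/-! ### Automorphisms -/

/-- The congruence subgroups. -/
def Gam (k : ℕ) : Subgroup (RingAut L) where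
  carrier := {g | op g - 1 ∈ O k ∧ op g⁻¹ - 1 ∈ O k}
  mul_mem' := by
    intro g h hg hh
    have e : ∀ a b : RingAut L, op (a * b) - 1 = (op a - 1) * (op b - 1) + (op a - 1) + (op b - 1) := by
      intro a b
      rw [map_mul, sub_mul, mul_sub, mul_one, one_mul]; abel
    refine ⟨?_, ?_⟩
    · rw [e]
      exact (O _).add_mem ((O _).add_mem (O_anti (by omega) (O_mul hg.1 hh.1)) hg.1) hh.1
    · rw [mul_inv_rev, e]
      exact (O _).add_mem ((O _).add_mem (O_anti (by omega) (O_mul hh.2 hg.2)) hh.2) hg.2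
  one_mem' := by
    simp only [Set.mem_ofPred_eq, map_one, inv_one, sub_self]
    exact ⟨(O _).zero_mem, (O _).zero_mem⟩
  inv_mem' := by
    intro g hg
    refine ⟨hg.2, ?_⟩
    rw [inv_inv]
    exact hg.1

lemma mem_Gam {k : ℕ} {g : RingAut L} : g ∈ Gam k ↔ op g - 1 ∈ O k ∧ op g⁻¹ - 1 ∈ O k := Iff.rfl

lemma op_mem_O_zero {k : ℕ} {g : RingAut L} (h : g ∈ Gam k) : op g ∈ O 0 := by
  have e : op g = (op g - 1) + 1 := by abel
  rw [e]
  exact (O _).add_mem (O_anti (by omega) h.1) one_mem_O

lemma Gam_anti {k l : ℕ} (h : k ≤ l) : Gam l ≤ Gam k := by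
  intro g hg
  exact ⟨O_anti (by exact_mod_cast h) hg.1, O_anti (by exact_mod_cast h) hg.2⟩

lemma inv_preserves {g : RingAut L} {k : ℤ} (hk : 1 ≤ k) (h : op g - 1 ∈ O k) :
    ∀ n : ℤ, ∀ r ∈ F n, g⁻¹ r ∈ F n := by
  intro n r hr
  have key : ∀ t : ℕ, (t : ℤ) ≤ n → g⁻¹ r ∈ F t := by
    intro t
    induction t with
    | zero => intro _; exact mem_F_nonpos (by simp) _
    | succ t ih =>
      intro ht
      have ih' := ih (by push_cast at ht; omega)
      have h1 := h _ _ ih'
      have e1 : (op g - 1) (g⁻¹ r) = r - g⁻¹ r := by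
        change g (g⁻¹ r) - g⁻¹ r = _
        have : g (g⁻¹ r) = (g * g⁻¹) r := rfl
        rw [this, mul_inv_cancel]
        rfl
      rw [e1] at h1
      have e2 : g⁻¹ r = r - (r - g⁻¹ r) := by ring
      rw [e2]
      apply (F _).sub_mem
      · exact mem_F_of_le ht hr
      · exact mem_F_of_le (by push_cast; omega) h1
  by_cases hn : 0 ≤ n
  · have := key n.toNat (by rw [Int.toNat_of_nonneg hn])
    rwa [Int.toNat_of_nonneg hn] at this
  · exact mem_F_nonpos (by omega) _

lemma mem_Gam_of_op {g : RingAut L} {k : ℕ} (hk : 1 ≤ k) (h : op g - 1 ∈ O k) : g ∈ Gam k := by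
  refine ⟨h, ?_⟩
  have h1 : op g⁻¹ ∈ O 0 := by
    intro n r hr
    rw [add_zero]
    exact inv_preserves (by exact_mod_cast hk) h n r hr
  have e : op g⁻¹ - 1 = - (op g⁻¹ * (op g - 1)) := by
    rw [mul_sub, op_inv_mul, mul_one]; abel
  rw [e]
  apply (O _).neg_mem
  have := O_mul h1 h
  simpa using this

lemma mem_Gam_of_gen {g : RingAut L} {k : ℕ} (hk : 1 ≤ k)
    (h : ∀ i, g (X i) - X i ∈ F (k + 1)) : g ∈ Gam k := by
  apply mem_Gam_of_op hk
  exact sub_one_mem_O (RingEquiv.toRingHom g) (by omega) h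

lemma gen_of_mem_Gam {g : RingAut L} {k : ℕ} (h : g ∈ Gam k) (i : Fin 2) :
    g (X i) - X i ∈ F (k + 1) := by
  have := h.1 1 (X i) (X_mem i)
  rw [add_comm]
  exact this

/-- existence of automorphisms with prescribed images of `x` and `y` -/
lemma exists_aut (a : Fin 2 → L) (ha : ∀ i, a i ∈ F 2) :
    ∃ g : RingAut L, ∀ i, g (X i) = X i + a i := by
  have hs : HasSubst (fun i => X i + a i : Fin 2 → L) := by
    apply hasSubst_of_constantCoeff_zero
    intro i
    rw [map_add, constantCoeff_X, zero_add, ← coeff_zero_eq_constantCoeff_apply]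
    exact ha i 0 (by simp)
  let φ : L →+* L := (substAlgHom (R := ZMod 2) hs : L →ₐ[ZMod 2] L).toRingHom
  have hφ : ∀ i, φ (X i) = X i + a i := fun i => substAlgHom_X hs i
  have hO : hop φ - 1 ∈ O 1 := by
    apply sub_one_mem_O φ (by norm_num)
    intro i
    rw [hφ]
    have : X i + a i - X i = a i := by ring
    rw [this]
    exact ha i
  have hO' : ∀ n : ℤ, ∀ r ∈ F n, φ r - r ∈ F (n + 1) := fun n r hr => hO n r hr
  have hinj : Function.Injective φ := by
    rw [injective_iff_map_eq_zero]
    intro r hr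
    apply eq_zero_of_forall_mem_F
    intro n
    induction n with
    | zero => exact mem_F_nonpos (by simp) _
    | succ n ih =>
      have := hO' n r ih
      rw [hr, zero_sub] at this
      have h2 := (F _).neg_mem this
      rw [neg_neg] at h2
      exact_mod_cast h2
  have hsurj : Function.Surjective φ := by
    intro t
    -- u 0 = t, u (n+1) = u n + (t - φ (u n))
    let u : ℕ → L := fun n => Nat.rec t (fun _ v => v + (t - φ v)) n
    have hu : ∀ n, u (n + 1) = u n + (t - φ (u n)) := fun n => rfl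
    have hu2 : ∀ n : ℕ, t - φ (u n) ∈ F n := by
      intro n
      induction n with
      | zero => exact mem_F_nonpos (by simp) _
      | succ n ih =>
        have e : t - φ (u (n + 1)) = -(φ (t - φ (u n)) - (t - φ (u n))) := by
          rw [hu, map_add]; ring
        rw [e]
        have := (F _).neg_mem (hO' n _ ih)
        exact_mod_cast this
    obtain ⟨r, hr⟩ := complete u (by
      intro n
      rw [hu]
      have : u n + (t - φ (u n)) - u n = t - φ (u n) := by ring
      rw [this]
      exact hu2 n)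
    refine ⟨r, ?_⟩
    rw [← sub_eq_zero]
    apply eq_zero_of_forall_mem_F
    intro n
    have e : φ r - t = (φ (r - u n) - (r - u n)) + (r - u n) - (t - φ (u n)) := by
      rw [map_sub]; ring
    rw [e]
    apply (F _).sub_mem _ (hu2 n)
    apply (F _).add_mem _ (hr n)
    exact mem_F_of_le (by omega) (hO' n _ (hr n))
  refine ⟨RingEquiv.ofBijective φ ⟨hinj, hsurj⟩, ?_⟩
  intro i
  exact hφ i

lemma exists_mem_Gam {k : ℕ} (hk : 1 ≤ k) (a : Fin 2 → L) (ha : ∀ i, a i ∈ F (k + 1)) :
    ∃ g ∈ Gam k, ∀ i, g (X i) = X i + a i := by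
  obtain ⟨g, hg⟩ := exists_aut a (fun i => mem_F_of_le (by omega) (ha i))
  refine ⟨g, mem_Gam_of_gen hk ?_, hg⟩
  intro i
  rw [hg]
  have : X i + a i - X i = a i := by ring
  rw [this]
  exact ha i

lemma aut_ext {g h : RingAut L} {k : ℕ} (hk : 1 ≤ k) (hg : g ∈ Gam k)
    (e : ∀ i, g (X i) = h (X i)) : g = h := by
  have h1 : RingEquiv.toRingHom g = RingEquiv.toRingHom h := by
    apply hom_ext
    · intro i
      change g (X i) ∈ F 1
      have e1 : g (X i) = (g (X i) - X i) + X i := by ring
      rw [e1]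
      exact (F _).add_mem (mem_F_of_le (by omega) (gen_of_mem_Gam hg i)) (X_mem i)
    · exact e
  ext1 r
  exact congrArg (fun f : L →+* L => f r) h1

end Pool.Agent.Helper48.HJI
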