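import Mathlib
import Pool.Agent.Helper48.HJI.Basic
import Pool.Agent.Helper48.HJI.Ops

set_option autoImplicit false

namespace Pool.Agent.Helper48.HJI

open MvPowerSeries Finset

/-! ### Push-forward of derivations -/

lemma op_mul_mu (g : RingAut L) (c : L) : op g * mu c = mu (g c) * op g := by
  ext1 r
  change g (c * r) = g c * g r
  exact map_mul g c r

lemma op_conj_apply (g : RingAut L) (T : Op) (r : L) :
    (op g * T * op g⁻¹) r = g (T (g⁻¹ r)) := rfl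

lemma aut_inv_apply (g : RingAut L) (r : L) : g (g⁻¹ r) = r := by
  have : g (g⁻¹ r) = (g * g⁻¹) r := rfl
  rw [this, mul_inv_cancel]; rfl

lemma aut_inv_apply' (g : RingAut L) (r : L) : g⁻¹ (g r) = r := by
  have : g⁻¹ (g r) = (g⁻¹ * g) r := rfl
  rw [this, inv_mul_cancel]; rfl

/-- The push-forward `g ∘ δ ∘ g⁻¹`. -/
noncomputable def push (g : RingAut L) (δ : Der) : Der :=
  Derivation.mk' (AddMonoidHom.toZModLinearMap 2 (op g * dop δ * op g⁻¹)) (by
    intro a b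
    change g (δ (g⁻¹ (a * b))) = a • g (δ (g⁻¹ b)) + b • g (δ (g⁻¹ a))
    rw [map_mul, Derivation.leibniz, smul_eq_mul, smul_eq_mul, map_add, map_mul, map_mul,
      aut_inv_apply, aut_inv_apply, smul_eq_mul, smul_eq_mul])

lemma push_apply (g : RingAut L) (δ : Der) (r : L) : push g δ r = g (δ (g⁻¹ r)) := rfl

lemma dop_push (g : RingAut L) (δ : Der) : dop (push g δ) = op g * dop δ * op g⁻¹ := rfl

lemma push_smul (g : RingAut L) (c : L) (δ : Der) : push g (c • δ) = g c • push g δ := by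
  ext1 r
  change g (c * δ (g⁻¹ r)) = g c * g (δ (g⁻¹ r))
  exact map_mul g _ _

/-! ### Taylor expansion to first order -/

lemma taylor {g : RingAut L} {δ : Der} {k : ℕ} (hg : g ∈ Gam k)
    (hδ : ∀ i, δ (X i) ∈ F (k + 1)) (e : ∀ i, g (X i) = X i + δ (X i)) :
    op g - 1 - dop δ ∈ O (2 * k) := by
  apply gen_mem_O
  · change g 1 - 1 - δ 1 = 0
    rw [map_one, Derivation.map_one_eq_zero]; ring
  · intro i n r hr
    change (g (X i * r) - X i * r - δ (X i * r)) - X i * (g r - r - δ r) ∈ F _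
    rw [map_mul, Derivation.leibniz, smul_eq_mul, smul_eq_mul, e]
    have e1 : (X i + δ (X i)) * g r - X i * r - (X i * δ r + r * δ (X i)) - X i * (g r - r - δ r)
        = δ (X i) * (g r - r) := by ring
    rw [e1]
    have h1 : g r - r ∈ F (n + k) := hg.1 n r hr
    exact mem_F_of_le (by omega) (F_mul (hδ i) h1)

lemma exists_taylor {k : ℕ} (hk : 1 ≤ k) (δ : Der) (hδ : ∀ i, δ (X i) ∈ F (k + 1)) :
    ∃ g ∈ Gam k, op g - 1 - dop δ ∈ O (2 * k) := by
  obtain ⟨g, hg, e⟩ := exists_mem_Gam hk (fun i => δ (X i)) hδ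
  exact ⟨g, hg, taylor hg hδ e⟩

/-! ### Commutators -/

/-- group commutator -/
noncomputable def cm (f g : RingAut L) : RingAut L := f * g * f⁻¹ * g⁻¹

lemma cm_def (f g : RingAut L) : cm f g = f * g * f⁻¹ * g⁻¹ := rfl

lemma op_comm (f g : RingAut L) :
    op (cm f g) - 1 = ((op f - 1) * (op g - 1) - (op g - 1) * (op f - 1)) * (op f⁻¹ * op g⁻¹) := by
  have e1 : op (cm f g) = op f * op g * (op f⁻¹ * op g⁻¹) := by
    rw [cm_def, map_mul, map_mul, map_mul, mul_assoc (op f * op g)]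
  have e2 : op g * op f * (op f⁻¹ * op g⁻¹) = 1 := by
    rw [mul_assoc, ← mul_assoc (op f), op_mul_inv, one_mul, op_mul_inv]
  have e3 : (op f - 1) * (op g - 1) - (op g - 1) * (op f - 1) = op f * op g - op g * op f := by
    rw [sub_mul, mul_sub, mul_sub, sub_mul, mul_sub, mul_sub]
    simp only [mul_one, one_mul]
    abel
  rw [e3, sub_mul, e2, ← e1]

lemma op_comm' (f g : RingAut L) :
    op (cm f g) - 1 = (op f * (op g - 1) * op f⁻¹ - (op g - 1)) * op g⁻¹ := by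
  have e1 : op (cm f g) = op f * op g * op f⁻¹ * op g⁻¹ := by
    rw [cm_def, map_mul, map_mul, map_mul]
  have e2 : (op f * (op g - 1) * op f⁻¹ - (op g - 1)) * op g⁻¹
      = op f * op g * op f⁻¹ * op g⁻¹ - (op f * op f⁻¹) * op g⁻¹ - op g * op g⁻¹ + op g⁻¹ := by
    rw [mul_sub (op f), mul_one, sub_mul (op f * op g), sub_mul, sub_mul, sub_mul (op g), one_mul]
    abel
  rw [e1, e2, op_mul_inv, op_mul_inv, one_mul]
  abel

lemma inv_prod_sub_one {f g : RingAut L} {a b : ℕ} {c : ℤ} (hf : f ∈ Gam a) (hg : g ∈ Gam b)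
    (hca : c ≤ a) (hcb : c ≤ b) : op f⁻¹ * op g⁻¹ - 1 ∈ O c := by
  have e : op f⁻¹ * op g⁻¹ - 1 = (op f⁻¹ - 1) * op g⁻¹ + (op g⁻¹ - 1) := by
    rw [sub_mul, one_mul]; abel
  rw [e]
  apply (O _).add_mem
  · have := O_mul hf.2 (op_mem_O_zero ((Gam b).inv_mem hg))
    exact O_anti (by omega) this
  · exact O_anti hcb hg.2

/-- commutators of deep automorphisms -/
lemma comm_deep {f g : RingAut L} {a b : ℕ} {c : ℤ} {δ ε : Der} (hf : f ∈ Gam a) (hg : g ∈ Gam b)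
    (hδ : dop δ ∈ O a) (hε : dop ε ∈ O b)
    (h1 : op f - 1 - dop δ ∈ O (a + c)) (h2 : op g - 1 - dop ε ∈ O (b + c))
    (hca : c ≤ a) (hcb : c ≤ b) (hc : 0 ≤ c) :
    op (cm f g) - 1 - dop ⁅δ, ε⁆ ∈ O (a + b + c) := by
  rw [op_comm, dop_lie]
  have hf1 := hf.1
  have hg1 := hg.1
  have hinv := inv_prod_sub_one hf hg hca hcb
  generalize op f⁻¹ * op g⁻¹ = ι at hinv ⊢
  generalize op f - 1 = φ at hf1 h1 ⊢
  generalize op g - 1 = γ at hg1 h2 ⊢
  have e : (φ * γ - γ * φ) * ι - (dop δ * dop ε - dop ε * dop δ)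
      = (φ * γ - γ * φ) * (ι - 1)
        + ((φ - dop δ) * γ + dop δ * (γ - dop ε) - (γ - dop ε) * φ - dop ε * (φ - dop δ)) := by
    rw [mul_sub (φ * γ - γ * φ), mul_one, sub_mul φ (dop δ) γ, mul_sub (dop δ) γ (dop ε),
      sub_mul γ (dop ε) φ, mul_sub (dop ε) φ (dop δ)]
    abel
  rw [e]
  apply (O _).add_mem
  · have h3 : φ * γ - γ * φ ∈ O (a + b) := by
      apply (O _).sub_mem (O_mul hf1 hg1)
      have := O_mul hg1 hf1
      rwa [add_comm] at this
    exact O_mul h3 hinv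
  · apply (O _).sub_mem
    · apply (O _).sub_mem
      · apply (O _).add_mem
        · exact O_anti (by omega) (O_mul h1 hg1)
        · exact O_anti (by omega) (O_mul hδ h2)
      · exact O_anti (by omega) (O_mul h2 hf1)
    · exact O_anti (by omega) (O_mul hε h1)

/-! ### Powers of two -/

lemma aut_pow_sub {g : RingAut L} (hg : g ∈ Gam 1) (s : ℕ) {o : ℕ} {b : L} (hb : b ∈ F o) :
    g (b ^ (2 ^ s)) - b ^ (2 ^ s) ∈ F (2 ^ s * (o + 1)) := by
  rw [map_pow, ← sub_pow_char_pow]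
  have h1 : g b - b ∈ F (o + 1) := by
    exact hg.1 o b hb
  have := F_pow h1 (2 ^ s)
  push_cast at this
  exact this

lemma der_pow (δ : Der) {s : ℕ} (hs : 1 ≤ s) (b : L) : δ (b ^ (2 ^ s)) = 0 := by
  obtain ⟨t, rfl⟩ : ∃ t, s = t + 1 := ⟨s - 1, by omega⟩
  rw [pow_succ, pow_mul, Derivation.leibniz_pow]
  rw [two_nsmul]
  exact add_self _

lemma der_sq (δ : Der) (b : L) : δ (b ^ 2) = 0 := by
  have := der_pow δ (s := 1) le_rfl b
  simpa using this

lemma pow_mem_F {o : ℕ} {b : L} (hb : b ∈ F o) (s : ℕ) : b ^ (2 ^ s) ∈ F (2 ^ s * o) := by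
  have := F_pow hb (2 ^ s)
  push_cast at this
  exact this

lemma dop_smul_mem {m : ℤ} {c : L} (hc : c ∈ F m) (w : Der) : dop (c • w) ∈ O (m - 1) := by
  rw [dop_smul]
  exact O_mul (mu_mem hc) (der_mem_O_general w)

lemma lie_smul_smul {c c' : L} (w v : Der) (h1 : w c' = 0) (h2 : v c = 0) :
    ⁅c • w, c' • v⁆ = (c * c') • ⁅w, v⁆ := by
  ext1 r
  change c * w (c' * v r) - c' * v (c * w r) = c * c' * (w (v r) - v (w r))
  rw [Derivation.leibniz, Derivation.leibniz, h1, h2]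
  simp only [smul_eq_mul]
  ring

/-! ### The set `W` -/

/-- asymptotic tangent directions of a subgroup -/
def W (N : Subgroup (RingAut L)) : Set Der :=
  {w | ∀ B : ℕ, ∃ s0 : ℕ, ∀ s, s0 ≤ s → ∀ o : ℕ, 1 ≤ o → ∀ b ∈ F o, ∃ h ∈ N,
    op h - 1 - dop (b ^ (2 ^ s) • w) ∈ O (2 ^ s * o + B)}

/-- `N` is a subgroup of `Gam k` normalized by `Gam k`. -/
structure NormalIn (k : ℕ) (N : Subgroup (RingAut L)) : Prop where
  le : N ≤ Gam k
  conj : ∀ g ∈ Gam k, ∀ h ∈ N, g * h * g⁻¹ ∈ N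

lemma NormalIn.comm_mem {k : ℕ} {N : Subgroup (RingAut L)} (hN : NormalIn k N) {h g : RingAut L}
    (hh : h ∈ N) (hg : g ∈ Gam k) : (cm h g) ∈ N := by
  rw [cm_def]
  have e : h * g * h⁻¹ * g⁻¹ = h * (g * h⁻¹ * g⁻¹) := by group
  rw [e]
  exact N.mul_mem hh (hN.conj g hg _ (N.inv_mem hh))

lemma two_pow_ge {B s : ℕ} (h : B ≤ s) : (B : ℤ) + 1 ≤ 2 ^ s := by
  have h1 : B < 2 ^ s := lt_of_le_of_lt h Nat.lt_two_pow_self
  exact_mod_cast h1

lemma W_add {N : Subgroup (RingAut L)} {w w' : Der} (hw : w ∈ W N) (hw' : w' ∈ W N) :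
    w + w' ∈ W N := by
  intro B
  obtain ⟨s1, h1⟩ := hw B
  obtain ⟨s2, h2⟩ := hw' B
  refine ⟨max (max s1 s2) (B + 2), ?_⟩
  intro s hs o ho b hb
  obtain ⟨h, hh, e1⟩ := h1 s (by omega) o ho b hb
  obtain ⟨h', hh', e2⟩ := h2 s (by omega) o ho b hb
  refine ⟨h * h', N.mul_mem hh hh', ?_⟩
  have hc : b ^ (2 ^ s) ∈ F (2 ^ s * o) := pow_mem_F hb s
  have hsB : ((B + 2 : ℕ) : ℤ) + 1 ≤ 2 ^ s := two_pow_ge (by omega)
  have hso : (2 : ℤ) ^ s ≤ 2 ^ s * o := by
    have : (1 : ℤ) ≤ o := by exact_mod_cast ho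
    nlinarith
  push_cast at hsB
  set c := b ^ (2 ^ s)
  have e : op (h * h') - 1 - dop (c • (w + w'))
      = (op h - 1 - dop (c • w)) + (op h' - 1 - dop (c • w')) + (op h - 1) * (op h' - 1) := by
    rw [smul_add, map_add, map_mul, sub_mul, mul_sub, mul_one, one_mul]
    abel
  have hφ : ∀ (g : RingAut L) (u : Der), op g - 1 - dop (c • u) ∈ O (2 ^ s * o + B) →
      op g - 1 ∈ O (2 ^ s * o - 1) := by
    intro g u hu
    have e3 : op g - 1 = (op g - 1 - dop (c • u)) + dop (c • u) := by abel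
    rw [e3]
    apply (O _).add_mem (O_anti (by omega) hu)
    exact dop_smul_mem hc u
  rw [e]
  apply (O _).add_mem ((O _).add_mem e1 e2)
  exact O_anti (by omega) (O_mul (hφ h w e1) (hφ h' w' e2))

lemma W_zero (N : Subgroup (RingAut L)) : (0 : Der) ∈ W N := by
  intro B
  refine ⟨0, ?_⟩
  intro s _ o _ b _
  refine ⟨1, N.one_mem, ?_⟩
  rw [smul_zero, map_zero, map_one, sub_self, sub_zero]
  exact (O _).zero_mem

lemma der_neg (w : Der) : -w = w := by
  ext1 r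
  change -(w r) = w r
  exact neg_eq _

lemma W_sub {N : Subgroup (RingAut L)} {w w' : Der} (hw : w ∈ W N) (hw' : w' ∈ W N) :
    w - w' ∈ W N := by
  rw [sub_eq_add_neg, der_neg]
  exact W_add hw hw'

lemma Gam_le_one {k : ℕ} (hk : 1 ≤ k) {g : RingAut L} (hg : g ∈ Gam k) : g ∈ Gam 1 :=
  Gam_anti hk hg

lemma W_push {k : ℕ} (hk : 1 ≤ k) {N : Subgroup (RingAut L)} (hN : NormalIn k N) {w : Der}
    (hw : w ∈ W N) {g : RingAut L} (hg : g ∈ Gam k) : push g w ∈ W N := by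
  intro B
  obtain ⟨s1, h1⟩ := hw B
  refine ⟨max s1 (B + 2), ?_⟩
  intro s hs o ho b hb
  obtain ⟨h, hh, e1⟩ := h1 s (by omega) o ho b hb
  refine ⟨g * h * g⁻¹, hN.conj g hg h hh, ?_⟩
  have hsB : ((B + 2 : ℕ) : ℤ) + 1 ≤ 2 ^ s := two_pow_ge (by omega)
  push_cast at hsB
  have hc2 := aut_pow_sub (Gam_le_one hk hg) s hb
  set c := b ^ (2 ^ s)
  have e2 : op (g * h * g⁻¹) - 1 = op g * (op h - 1) * op g⁻¹ := by
    rw [map_mul, map_mul, mul_sub, sub_mul, mul_one, op_mul_inv]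
  have e3 : op g * dop (c • w) * op g⁻¹ = mu (g c) * dop (push g w) := by
    rw [dop_smul, dop_push, ← mul_assoc, op_mul_mu, mul_assoc, mul_assoc, mul_assoc]
  have e : op (g * h * g⁻¹) - 1 - dop (c • push g w)
      = op g * (op h - 1 - dop (c • w)) * op g⁻¹ + mu (g c - c) * dop (push g w) := by
    rw [e2, mul_sub (op g) (op h - 1) (dop (c • w)), sub_mul, e3, dop_smul, map_sub, sub_mul]
    abel
  rw [e]
  apply (O _).add_mem
  · have h2 := O_mul (O_mul (op_mem_O_zero hg) e1) (op_mem_O_zero ((Gam k).inv_mem hg))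
    simpa using h2
  · have h2 := O_mul (mu_mem hc2) (der_mem_O_general (push g w))
    exact O_anti (by nlinarith) h2

lemma W_lie {k : ℕ} (hk : 1 ≤ k) {N : Subgroup (RingAut L)} (hN : NormalIn k N) {w : Der}
    (hw : w ∈ W N) (v : Der) : ⁅w, v⁆ ∈ W N := by
  intro B
  obtain ⟨s1, h1⟩ := hw (B + 1)
  refine ⟨max s1 (B + k + 5) + 1, ?_⟩
  intro s hs o ho b hb
  obtain ⟨t, rfl⟩ : ∃ t, s = t + 1 := ⟨s - 1, by omega⟩
  obtain ⟨h, hh, e1⟩ := h1 t (by omega) o ho b hb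
  have htB : ((B + k + 5 : ℕ) : ℤ) + 1 ≤ 2 ^ t := two_pow_ge (by omega)
  push_cast at htB
  have hc := pow_mem_F hb t
  have ho' : (1 : ℤ) ≤ o := by exact_mod_cast ho
  have hto : (2 : ℤ) ^ t ≤ 2 ^ t * o := by nlinarith
  -- a = 2^t * o - 1
  obtain ⟨a, ha⟩ : ∃ a : ℕ, (a : ℤ) = 2 ^ t * o - 1 :=
    ⟨(2 ^ t * (o : ℤ) - 1).toNat, Int.toNat_of_nonneg (by omega)⟩
  have hcsq : ∀ u : Der, u (b ^ (2 ^ t)) = 0 := fun u => der_pow u (by omega) b
  have ec : b ^ (2 ^ (t + 1)) = b ^ (2 ^ t) * b ^ (2 ^ t) := by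
    rw [pow_succ, pow_mul, sq]
  rw [ec]
  set c := b ^ (2 ^ t)
  have hcv : ∀ i, (c • v) (X i) ∈ F (a + 1) := by
    intro i
    change c * v (X i) ∈ F _
    have := F_mul hc (mem_F_nonpos (le_refl (0 : ℤ)) (v (X i)))
    exact mem_F_of_le (by omega) this
  obtain ⟨g, hg, hgt⟩ := exists_taylor (k := a) (by omega) (c • v) hcv
  have hgk : g ∈ Gam k := Gam_anti (by omega) hg
  refine ⟨(cm h g), hN.comm_mem hh hgk, ?_⟩
  have hdw : dop (c • w) ∈ O a := O_anti (by omega) (dop_smul_mem hc w)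
  have hdv : dop (c • v) ∈ O a := O_anti (by omega) (dop_smul_mem hc v)
  have hha : h ∈ Gam a := by
    apply mem_Gam_of_op (by omega)
    have e3 : op h - 1 = (op h - 1 - dop (c • w)) + dop (c • w) := by abel
    rw [e3]
    exact (O _).add_mem (O_anti (by push_cast; omega) e1) hdw
  have key := comm_deep (c := B + 2) hha hg hdw hdv (O_anti (by push_cast; omega) e1)
    (O_anti (by omega) hgt) (by omega) (by omega) (by omega)
  rw [lie_smul_smul w v (hcsq w) (hcsq v)] at key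
  exact O_anti (by rw [pow_succ]; nlinarith) key

lemma W_push_sub {k : ℕ} (hk : 1 ≤ k) {N : Subgroup (RingAut L)} (hN : NormalIn k N)
    {f : RingAut L} (hf : f ∈ N) (u : Der) : push f u - u ∈ W N := by
  intro B
  refine ⟨B + k + 5, ?_⟩
  intro s hs o ho b hb
  have htB : ((B + k + 5 : ℕ) : ℤ) + 1 ≤ 2 ^ s := two_pow_ge (by omega)
  push_cast at htB
  have hc := pow_mem_F hb s
  have ho' : (1 : ℤ) ≤ o := by exact_mod_cast ho
  have hto : (2 : ℤ) ^ s ≤ 2 ^ s * o := by nlinarith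
  have hf1 : f ∈ Gam 1 := Gam_le_one hk (hN.le hf)
  obtain ⟨a, ha⟩ : ∃ a : ℕ, (a : ℤ) = 2 ^ s * o - 1 :=
    ⟨(2 ^ s * (o : ℤ) - 1).toNat, Int.toNat_of_nonneg (by omega)⟩
  have hc2 := aut_pow_sub hf1 s hb
  set c := b ^ (2 ^ s)
  have hcv : ∀ i, (c • u) (X i) ∈ F (a + 1) := by
    intro i
    change c * u (X i) ∈ F _
    have := F_mul hc (mem_F_nonpos (le_refl (0 : ℤ)) (u (X i)))
    exact mem_F_of_le (by omega) this
  obtain ⟨g, hg, hgt⟩ := exists_taylor (k := a) (by omega) (c • u) hcv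
  have hgk : g ∈ Gam k := Gam_anti (by omega) hg
  refine ⟨(cm f g), hN.comm_mem hf hgk, ?_⟩
  have hdu : dop (c • u) ∈ O a := O_anti (by omega) (dop_smul_mem hc u)
  -- A := op f * γ * op f⁻¹ - γ
  have e3 : op f * dop (c • u) * op f⁻¹ = mu (f c) * dop (push f u) := by
    rw [dop_smul, dop_push, ← mul_assoc, op_mul_mu, mul_assoc, mul_assoc, mul_assoc]
  set γ := op g - 1 with hγ
  have eA : op f * γ * op f⁻¹ - γ - dop (c • (push f u - u))
      = op f * (γ - dop (c • u)) * op f⁻¹ + mu (f c - c) * dop (push f u) - (γ - dop (c • u)) := by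
    rw [mul_sub (op f) γ, sub_mul, e3, smul_sub, map_sub dop, map_sub mu, sub_mul, dop_smul,
      dop_smul]
    abel
  have hA : op f * γ * op f⁻¹ - γ - dop (c • (push f u - u)) ∈ O (2 ^ s * o + B) := by
    rw [eA]
    apply (O _).sub_mem
    · apply (O _).add_mem
      · have h2 := O_mul (O_mul (op_mem_O_zero hf1) hgt) (op_mem_O_zero ((Gam 1).inv_mem hf1))
        exact O_anti (by omega) h2
      · have h2 := O_mul (mu_mem hc2) (der_mem_O_general (push f u))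
        exact O_anti (by nlinarith) h2
    · exact O_anti (by omega) hgt
  have hA' : op f * γ * op f⁻¹ - γ ∈ O (2 ^ s * o - 1) := by
    have e4 : op f * γ * op f⁻¹ - γ = (op f * γ * op f⁻¹ - γ - dop (c • (push f u - u)))
        + dop (c • (push f u - u)) := by abel
    rw [e4]
    exact (O _).add_mem (O_anti (by omega) hA) (dop_smul_mem hc _)
  have e : op (cm f g) - 1 - dop (c • (push f u - u))
      = (op f * γ * op f⁻¹ - γ) * (op g⁻¹ - 1)
        + (op f * γ * op f⁻¹ - γ - dop (c • (push f u - u))) := by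
    rw [op_comm', ← hγ, mul_sub _ (op g⁻¹) 1, mul_one]; abel
  rw [e]
  apply (O _).add_mem _ hA
  have := O_mul hA' hg.2
  exact O_anti (by omega) this

end Pool.Agent.Helper48.HJI
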