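import Mathlib

set_option autoImplicit false

/-!
Definitions of the group-theoretic properties in the problem `MP_8eb9f8_al`.
-/

namespace Pool.Agent.Helper48.HJI

/-- `G` is residually finite: the intersection of all normal subgroups of finite index of `G` is
trivial. -/
def IsResiduallyFinite (G : Type) [Group G] : Prop :=
  sInf {N : Subgroup G | N.Normal ∧ N.FiniteIndex} = ⊥

/-- `G` is just infinite: `G` is infinite and every nontrivial normal subgroup of `G` has finite
index. -/
def JustInfinite (G : Type) [Group G] : Prop :=
  Infinite G ∧ ∀ N : Subgroup G, N.Normal → N ≠ ⊥ → N.FiniteIndex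

/-- `G` is hereditarily just infinite: every subgroup of finite index of `G` (also `G` itself) is
just infinite. -/
def HereditarilyJustInfinite (G : Type) [Group G] : Prop :=
  ∀ H : Subgroup G, H.FiniteIndex → JustInfinite H

/-- `G` admits a self-similar action: for some finite set `X` with at least two elements there is a
faithful action of `G` on the set `List X` of finite words over `X` such that for all `g ∈ G` and
`x ∈ X` there are `y ∈ X` and `h ∈ G` with `g (x w) = y h(w)` for all words `w`. -/
def AdmitsSelfSimilarAction (G : Type) [Group G] : Prop :=
  ∃ (X : Type) (_ : Fintype X) (_ : MulAction G (List X)), 2 ≤ Fintype.card X ∧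
    FaithfulSMul G (List X) ∧
      ∀ (g : G) (x : X), ∃ (y : X) (h : G), ∀ w : List X, g • (x :: w) = y :: (h • w)

/-- `G` is linear: for some field `K` and some `n ≥ 1` there is an injective homomorphism
`G → GL_n(K)`. -/
def IsLinearGroup.{u} (G : Type) [Group G] : Prop :=
  ∃ (K : Type u) (_ : Field K) (n : ℕ) (f : G →* Matrix.GeneralLinearGroup (Fin n) K),
    1 ≤ n ∧ Function.Injective f

end Pool.Agent.Helper48.HJI
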