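import Mathlib
import Pool.Agent.Helper48.HJI.Basic
import Pool.Agent.Helper48.HJI.Ops
import Pool.Agent.Helper48.HJI.Comm

set_option autoImplicit false

namespace Pool.Agent.Helper48.HJI

open MvPowerSeries Finset

/-! ### The decomposition `r = A² + x B² + y C² + x y D²` -/

/-- half of an exponent -/
noncomputable def half (d : Fin 2 →₀ ℕ) : Fin 2 →₀ ℕ := d.mapRange (fun n => n / 2) rfl

lemma half_apply (d : Fin 2 →₀ ℕ) (i : Fin 2) : half d i = d i / 2 := by
  simp [half]

lemma two_smul_half {d : Fin 2 →₀ ℕ} (h0 : 2 ∣ d 0) (h1 : 2 ∣ d 1) : 2 • half d = d := by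
  ext i
  rw [Finsupp.smul_apply, smul_eq_mul, half_apply]
  fin_cases i
  · exact Nat.mul_div_cancel' h0
  · exact Nat.mul_div_cancel' h1

lemma sq_eq_expand (f : L) : f ^ 2 = expand 2 two_ne_zero f := by
  have h := map_frobenius_expand (σ := Fin 2) (R := ZMod 2) 2 two_ne_zero (f := f)
  rw [← h]
  have h2 : frobenius (ZMod 2) 2 = RingHom.id (ZMod 2) := by
    ext a
    revert a
    decide
  rw [h2, map_id]
  rfl

lemma coeff_sq_of_dvd (f : L) {d : Fin 2 →₀ ℕ} (h0 : 2 ∣ d 0) (h1 : 2 ∣ d 1) :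
    coeff d (f ^ 2) = coeff (half d) f := by
  rw [sq_eq_expand]
  conv_lhs => rw [← two_smul_half h0 h1]
  exact coeff_expand_smul 2 two_ne_zero f (half d)

lemma coeff_sq_of_not_dvd (f : L) {d : Fin 2 →₀ ℕ} (i : Fin 2) (h : ¬ 2 ∣ d i) :
    coeff d (f ^ 2) = 0 := by
  rw [sq_eq_expand]
  exact coeff_expand_of_not_dvd 2 two_ne_zero f h

/-- `root i j r` collects the coefficients of `r` at exponents `2d + (i, j)`. -/
noncomputable def root (i j : ℕ) (r : L) : L :=
  fun d => coeff (2 • d + (Finsupp.single 0 i + Finsupp.single 1 j)) r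

lemma coeff_root (i j : ℕ) (r : L) (d : Fin 2 →₀ ℕ) :
    coeff d (root i j r) = coeff (2 • d + (Finsupp.single 0 i + Finsupp.single 1 j)) r := rfl

/-- the coefficient of `x^i y^j (root i j r)^2`, for `i, j ∈ {0,1}`. -/
lemma coeff_part {i j : ℕ} (hi : i < 2) (hj : j < 2) (r : L) (d : Fin 2 →₀ ℕ) :
    coeff d ((X 0) ^ i * ((X 1) ^ j * (root i j r) ^ 2))
      = if d 0 % 2 = i ∧ d 1 % 2 = j then coeff d r else 0 := by
  by_cases h0 : i ≤ d 0
  · rw [coeff_X_pow_mul_of_le 0 i _ d h0]
    have ed1 : (d - Finsupp.single 0 i : Fin 2 →₀ ℕ) 1 = d 1 := by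
      rw [Finsupp.coe_tsub, Pi.sub_apply, Finsupp.single_eq_of_ne (by decide)]; simp
    have ed0 : (d - Finsupp.single 0 i : Fin 2 →₀ ℕ) 0 = d 0 - i := by
      rw [Finsupp.coe_tsub, Pi.sub_apply, Finsupp.single_eq_same]
    by_cases h1 : j ≤ d 1
    · rw [coeff_X_pow_mul_of_le 1 j _ _ (by rw [ed1]; exact h1)]
      set e := d - Finsupp.single 0 i - Finsupp.single 1 j with he
      have ee0 : e 0 = d 0 - i := by
        rw [he, Finsupp.coe_tsub, Pi.sub_apply, ed0, Finsupp.single_eq_of_ne (by decide)]; simp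
      have ee1 : e 1 = d 1 - j := by
        rw [he, Finsupp.coe_tsub, Pi.sub_apply, ed1, Finsupp.single_eq_same]
      by_cases h2 : d 0 % 2 = i
      · by_cases h3 : d 1 % 2 = j
        · rw [if_pos ⟨h2, h3⟩, coeff_sq_of_dvd _ (by omega) (by omega), coeff_root,
            two_smul_half (by omega) (by omega)]
          have ed : e + (Finsupp.single 0 i + Finsupp.single 1 j) = d := by
           ext t
           rw [Finsupp.add_apply, Finsupp.add_apply]
           fin_cases t
           · change e 0 + ((Finsupp.single 0 i : Fin 2 →₀ ℕ) 0 + (Finsupp.single 1 j : Fin 2 →₀ ℕ) 0) = d 0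
             rw [Finsupp.single_eq_same, Finsupp.single_eq_of_ne (by decide)]
             omega
           · change e 1 + ((Finsupp.single 0 i : Fin 2 →₀ ℕ) 1 + (Finsupp.single 1 j : Fin 2 →₀ ℕ) 1) = d 1
             rw [Finsupp.single_eq_same, Finsupp.single_eq_of_ne (by decide)]
             omega
          rw [ed]
        · rw [if_neg (fun h => h3 h.2)]
          exact coeff_sq_of_not_dvd _ 1 (by omega)
      · rw [if_neg (fun h => h2 h.1)]
        exact coeff_sq_of_not_dvd _ 0 (by omega)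
    · rw [coeff_X_pow_mul_of_lt 1 j _ _ (by rw [ed1]; omega), if_neg]
      intro h
      omega
  · rw [coeff_X_pow_mul_of_lt 0 i _ d (by omega), if_neg]
    intro h
    omega

lemma part_mem {i j : ℕ} (hi : i < 2) (hj : j < 2) {r : L} {n : ℤ} (hr : r ∈ F n) :
    (X 0) ^ i * ((X 1) ^ j * (root i j r) ^ 2) ∈ F n := by
  intro d hd
  rw [coeff_part hi hj]
  split_ifs
  · exact hr d hd
  · rfl

lemma decomp (r : L) :
    r = (root 0 0 r) ^ 2 + X 0 * (root 1 0 r) ^ 2 + X 1 * (root 0 1 r) ^ 2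
      + X 0 * (X 1 * (root 1 1 r) ^ 2) := by
  ext d
  have h00 := coeff_part (i := 0) (j := 0) (by norm_num) (by norm_num) r d
  have h10 := coeff_part (i := 1) (j := 0) (by norm_num) (by norm_num) r d
  have h01 := coeff_part (i := 0) (j := 1) (by norm_num) (by norm_num) r d
  have h11 := coeff_part (i := 1) (j := 1) (by norm_num) (by norm_num) r d
  simp only [pow_zero, pow_one, one_mul] at h00 h10 h01 h11
  rw [map_add, map_add, map_add, h00, h10, h01, h11]
  rcases Nat.mod_two_eq_zero_or_one (d 0) with a | a <;>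
  rcases Nat.mod_two_eq_zero_or_one (d 1) with b | b <;>
  simp [a, b]

lemma exists_decomp {n : ℤ} {r : L} (hr : r ∈ F n) : ∃ a b c d : L,
    r = a ^ 2 + X 0 * b ^ 2 + X 1 * c ^ 2 + X 0 * (X 1 * d ^ 2) ∧ a ^ 2 ∈ F n ∧
      X 0 * b ^ 2 ∈ F n ∧ X 1 * c ^ 2 ∈ F n ∧ X 0 * (X 1 * d ^ 2) ∈ F n := by
  refine ⟨_, _, _, _, decomp r, ?_, ?_, ?_, ?_⟩
  · have := part_mem (i := 0) (j := 0) (by norm_num) (by norm_num) hr
    simpa using this
  · have := part_mem (i := 1) (j := 0) (by norm_num) (by norm_num) hr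
    simpa using this
  · have := part_mem (i := 0) (j := 1) (by norm_num) (by norm_num) hr
    simpa using this
  · have := part_mem (i := 1) (j := 1) (by norm_num) (by norm_num) hr
    simpa using this

/-! ### Partial derivatives -/

/-- the partial derivatives -/
noncomputable abbrev D (i : Fin 2) : Der := pderiv (ZMod 2) i

lemma D_X (i j : Fin 2) : D i (X j) = if i = j then 1 else 0 := by
  by_cases h : i = j
  · rw [if_pos h, h]; exact pderiv_X_self
  · rw [if_neg h]; exact pderiv_X_of_ne (Ne.symm h)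

lemma D00 : D 0 (X 0 : L) = 1 := by rw [D_X, if_pos rfl]
lemma D11 : D 1 (X 1 : L) = 1 := by rw [D_X, if_pos rfl]
lemma D01 : D 0 (X 1 : L) = 0 := by rw [D_X, if_neg (by decide)]
lemma D10 : D 1 (X 0 : L) = 0 := by rw [D_X, if_neg (by decide)]

lemma der_ext {δ ε : Der} (h : ∀ i, δ (X i) = ε (X i)) : δ = ε := by
  ext1 r
  rw [← sub_eq_zero]
  apply eq_zero_of_forall_mem_F
  intro n
  have := der_mem_F (δ := δ - ε) (e := n) (by
    intro i
    change δ (X i) - ε (X i) ∈ _
    rw [h i, sub_self]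
    exact (F _).zero_mem) r
  exact this

lemma der_eq (v : Der) : v = v (X 0) • D 0 + v (X 1) • D 1 := by
  apply der_ext
  intro i
  change v (X i) = v (X 0) * D 0 (X i) + v (X 1) * D 1 (X i)
  fin_cases i
  · change v (X 0) = v (X 0) * D 0 (X 0) + v (X 1) * D 1 (X 0)
    rw [D00, D10]; ring
  · change v (X 1) = v (X 0) * D 0 (X 1) + v (X 1) * D 1 (X 1)
    rw [D01, D11]; ring

lemma der_apply_eq (v : Der) (r : L) : v r = v (X 0) * D 0 r + v (X 1) * D 1 r := by
  conv_lhs => rw [der_eq v]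
  rfl

lemma D_lie_apply (i : Fin 2) (w : Der) (j : Fin 2) : ⁅D i, w⁆ (X j) = D i (w (X j)) := by
  change D i (w (X j)) - w (D i (X j)) = _
  rw [D_X]
  split_ifs
  · rw [Derivation.map_one_eq_zero, sub_zero]
  · rw [map_zero, sub_zero]

lemma D_D_self (i : Fin 2) (r : L) : D i (D i r) = 0 := by
  ext d
  rw [coeff_pderiv, coeff_pderiv, coeff_zero, mul_assoc]
  have h : (((d + Finsupp.single i 1 : Fin 2 →₀ ℕ) i : ℕ) + 1 : ZMod 2) * ((d i : ℕ) + 1) = 0 := by
    have e : (d + Finsupp.single i 1 : Fin 2 →₀ ℕ) i = d i + 1 := by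
      rw [Finsupp.add_apply, Finsupp.single_eq_same]
    rw [e]
    have key : ∀ a : ZMod 2, (a + 1 + 1) * (a + 1) = 0 := by decide
    push_cast
    exact key _
  rw [h, mul_zero]

lemma D_comm (i j : Fin 2) (r : L) : D i (D j r) = D j (D i r) := by
  have h : ⁅D i, D j⁆ = 0 := by
    apply der_ext
    intro l
    rw [D_lie_apply, D_X]
    change _ = (0 : L)
    split_ifs
    · exact Derivation.map_one_eq_zero _
    · exact map_zero _
  have h2 : ⁅D i, D j⁆ r = D i (D j r) - D j (D i r) := rfl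
  rw [h] at h2
  rw [← sub_eq_zero, ← h2]
  rfl

/-! ### Lie ideals -/

/-- An additive, `Der`-stable, nonzero set of derivations contains `c • Der` for some `c ≠ 0`. -/
lemma lie_step {I : Set Der} (hadd : ∀ v ∈ I, ∀ w ∈ I, v + w ∈ I)
    (hlie : ∀ w ∈ I, ∀ v : Der, ⁅w, v⁆ ∈ I) {w : Der} (hw : w ∈ I) (hne : w ≠ 0) :
    ∃ c : L, c ≠ 0 ∧ ∀ v : Der, c • v ∈ I := by
  have hneg : ∀ v ∈ I, -v ∈ I := by
    intro v hv
    rw [der_neg]; exact hv
  have hlie' : ∀ w ∈ I, ∀ v : Der, ⁅v, w⁆ ∈ I := by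
    intro w hw v
    rw [← lie_skew]
    exact hneg _ (hlie w hw v)
  -- Step 1 : an element of I whose components are killed by all derivations
  obtain ⟨w, hw, hne, hD⟩ : ∃ w ∈ I, w ≠ 0 ∧ ∀ i j, D i (w (X j)) = 0 := by
    by_cases c1 : ⁅D 1, ⁅D 0, w⁆⁆ = 0
    · by_cases c2 : ⁅D 0, w⁆ = 0
      · by_cases c3 : ⁅D 1, w⁆ = 0
        · refine ⟨w, hw, hne, ?_⟩
          intro i j
          rw [← D_lie_apply]
          fin_cases i
          · change ⁅D 0, w⁆ (X j) = 0
            rw [c2]; rfl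
          · change ⁅D 1, w⁆ (X j) = 0
            rw [c3]; rfl
        · refine ⟨⁅D 1, w⁆, hlie' w hw _, c3, ?_⟩
          intro i j
          rw [D_lie_apply]
          fin_cases i
          · change D 0 (D 1 (w (X j))) = 0
            rw [D_comm, ← D_lie_apply 0, c2]
            change D 1 0 = 0
            exact map_zero _
          · change D 1 (D 1 (w (X j))) = 0
            exact D_D_self 1 _
      · refine ⟨⁅D 0, w⁆, hlie' w hw _, c2, ?_⟩
        intro i j
        rw [D_lie_apply]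
        fin_cases i
        · change D 0 (D 0 (w (X j))) = 0
          exact D_D_self 0 _
        · change D 1 (D 0 (w (X j))) = 0
          rw [← D_lie_apply 0, ← D_lie_apply 1, c1]
          rfl
    · refine ⟨⁅D 1, ⁅D 0, w⁆⁆, hlie' _ (hlie' w hw _) _, c1, ?_⟩
      intro i j
      rw [D_lie_apply, D_lie_apply]
      fin_cases i
      · change D 0 (D 1 (D 0 (w (X j)))) = 0
        rw [D_comm 1 0, D_D_self]
      · change D 1 (D 1 (D 0 (w (X j)))) = 0
        exact D_D_self 1 _
  -- all derivations kill the components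
  have hk : ∀ (u : Der) (j : Fin 2), u (w (X j)) = 0 := by
    intro u j
    rw [der_apply_eq, hD, hD]; ring
  -- Step 2 : c • D i ∈ I
  obtain ⟨c, hc0, hck, hcD⟩ : ∃ c : L, c ≠ 0 ∧ (∀ u : Der, u c = 0) ∧ ∀ j, c • D j ∈ I := by
    have hcomp : ∃ i, w (X i) ≠ 0 := by
      by_contra hcon
      push Not at hcon
      apply hne
      apply der_ext
      intro i
      rw [hcon i]; rfl
    obtain ⟨i, hi⟩ := hcomp
    refine ⟨w (X i), hi, fun u => hk u i, ?_⟩
    intro j
    have e : ⁅w, (X i : L) • D j⁆ = w (X i) • D j := by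
      apply der_ext
      intro l
      change w (X i * D j (X l)) - X i * D j (w (X l)) = w (X i) * D j (X l)
      rw [hk, D_X]
      split_ifs
      · ring_nf
      · rw [mul_zero, map_zero]; ring
    rw [← e]
    exact hlie w hw _
  -- Step 3 : c • (D i u) • D j ∈ I
  have h3 : ∀ (i j : Fin 2) (u : L), (c * D i u) • D j ∈ I := by
    intro i j u
    have e : ⁅c • D i, u • D j⁆ = (c * D i u) • D j := by
      apply der_ext
      intro l
      change c * D i (u * D j (X l)) - u * D j (c * D i (X l)) = c * D i u * D j (X l)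
      rw [Derivation.leibniz, Derivation.leibniz, hck, D_X, D_X]
      simp only [smul_eq_mul]
      split_ifs
      · rw [Derivation.map_one_eq_zero]; simp only [Derivation.map_one_eq_zero]; ring
      · rw [Derivation.map_one_eq_zero]; simp only [map_zero]; ring
      · simp only [map_zero, Derivation.map_one_eq_zero]; ring
      · simp only [map_zero]; ring
    rw [← e]
    exact hlie _ (hcD i) _
  -- Step 4 : c • r • D j ∈ I for all r
  have h4 : ∀ (j : Fin 2) (r : L), (c * r) • D j ∈ I := by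
    intro j r
    obtain ⟨a, b, e, d, hr, _, _, _, _⟩ := exists_decomp (mem_F_nonpos (le_refl (0 : ℤ)) r)
    have p1 : D 0 (X 0 * a ^ 2) = a ^ 2 := by
      rw [Derivation.leibniz, der_sq, D00]; simp
    have p2 : D 1 (X 1 * (X 0 * b ^ 2)) = X 0 * b ^ 2 := by
      rw [Derivation.leibniz, Derivation.leibniz, der_sq, D11, D10]; simp
    have p3 : D 0 (X 0 * (X 1 * e ^ 2)) = X 1 * e ^ 2 := by
      rw [Derivation.leibniz, Derivation.leibniz, der_sq, D00, D01]; simp
    have q1 : (c * a ^ 2) • D j ∈ I := by rw [← p1]; exact h3 0 j _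
    have q2 : (c * (X 0 * b ^ 2)) • D j ∈ I := by rw [← p2]; exact h3 1 j _
    have q3 : (c * (X 1 * e ^ 2)) • D j ∈ I := by rw [← p3]; exact h3 0 j _
    have q4 : (c * (X 0 * (X 1 * d ^ 2))) • D j ∈ I := by
      have p4 : D 0 (X 0 * (X 1 * (X 1 * d ^ 2))) = X 1 * (X 1 * d ^ 2) := by
        rw [Derivation.leibniz, Derivation.leibniz, Derivation.leibniz, der_sq, D00, D01]; simp
      have p5 : D 1 (X 1 * (X 0 * (X 0 * d ^ 2))) = X 0 * (X 0 * d ^ 2) := by
        rw [Derivation.leibniz, Derivation.leibniz, Derivation.leibniz, der_sq, D11, D10]; simp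
      have p6 : D 0 (X 0 * X 1) = (X 1 : L) := by
        rw [Derivation.leibniz, D00, D01]; simp
      have p7 : D 1 (X 0 * X 1) = (X 0 : L) := by
        rw [Derivation.leibniz, D11, D10]; simp
      fin_cases j
      · change (c * (X 0 * (X 1 * d ^ 2))) • D 0 ∈ I
        have e1 : (c * (X 0 * (X 1 * d ^ 2))) • D 0
            = -(⁅(c * D 0 (X 0 * X 1)) • D 0, (X 0 * (X 1 * d ^ 2)) • D 1⁆)
              + (c * (X 1 * (X 1 * d ^ 2))) • D 1 := by
          rw [p6]
          apply der_ext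
          intro l
          change c * (X 0 * (X 1 * d ^ 2)) * D 0 (X l)
            = -(c * X 1 * D 0 (X 0 * (X 1 * d ^ 2) * D 1 (X l))
              - X 0 * (X 1 * d ^ 2) * D 1 (c * X 1 * D 0 (X l)))
              + c * (X 1 * (X 1 * d ^ 2)) * D 1 (X l)
          have f1 : ∀ i, D i (d ^ 2) = 0 := fun i => der_sq _ _
          fin_cases l
          · change c * (X 0 * (X 1 * d ^ 2)) * D 0 (X 0)
              = -(c * X 1 * D 0 (X 0 * (X 1 * d ^ 2) * D 1 (X 0))
                - X 0 * (X 1 * d ^ 2) * D 1 (c * X 1 * D 0 (X 0)))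
                + c * (X 1 * (X 1 * d ^ 2)) * D 1 (X 0)
            rw [D00, D10]
            simp only [mul_zero, map_zero, mul_one, Derivation.leibniz, hck, D11, smul_eq_mul]
            ring
          · change c * (X 0 * (X 1 * d ^ 2)) * D 0 (X 1)
              = -(c * X 1 * D 0 (X 0 * (X 1 * d ^ 2) * D 1 (X 1))
                - X 0 * (X 1 * d ^ 2) * D 1 (c * X 1 * D 0 (X 1)))
                + c * (X 1 * (X 1 * d ^ 2)) * D 1 (X 1)
            rw [D01, D11]
            simp only [mul_zero, map_zero, mul_one, Derivation.leibniz, f1, D00, D01, smul_eq_mul]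
            ring
        rw [e1]
        apply hadd
        · exact hneg _ (hlie _ (h3 0 0 _) _)
        · rw [← p4]; exact h3 0 1 _
      · change (c * (X 0 * (X 1 * d ^ 2))) • D 1 ∈ I
        have e1 : (c * (X 0 * (X 1 * d ^ 2))) • D 1
            = -(⁅(c * D 1 (X 0 * X 1)) • D 1, (X 0 * (X 1 * d ^ 2)) • D 0⁆)
              + (c * (X 0 * (X 0 * d ^ 2))) • D 0 := by
          rw [p7]
          apply der_ext
          intro l
          change c * (X 0 * (X 1 * d ^ 2)) * D 1 (X l)
            = -(c * X 0 * D 1 (X 0 * (X 1 * d ^ 2) * D 0 (X l))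
              - X 0 * (X 1 * d ^ 2) * D 0 (c * X 0 * D 1 (X l)))
              + c * (X 0 * (X 0 * d ^ 2)) * D 0 (X l)
          have f1 : ∀ i, D i (d ^ 2) = 0 := fun i => der_sq _ _
          fin_cases l
          · change c * (X 0 * (X 1 * d ^ 2)) * D 1 (X 0)
              = -(c * X 0 * D 1 (X 0 * (X 1 * d ^ 2) * D 0 (X 0))
                - X 0 * (X 1 * d ^ 2) * D 0 (c * X 0 * D 1 (X 0)))
                + c * (X 0 * (X 0 * d ^ 2)) * D 0 (X 0)
            rw [D00, D10]
            simp only [mul_zero, map_zero, mul_one, Derivation.leibniz, f1, D11, D10, smul_eq_mul]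
            ring
          · change c * (X 0 * (X 1 * d ^ 2)) * D 1 (X 1)
              = -(c * X 0 * D 1 (X 0 * (X 1 * d ^ 2) * D 0 (X 1))
                - X 0 * (X 1 * d ^ 2) * D 0 (c * X 0 * D 1 (X 1)))
                + c * (X 0 * (X 0 * d ^ 2)) * D 0 (X 1)
            rw [D01, D11]
            simp only [mul_zero, map_zero, mul_one, Derivation.leibniz, hck, D00, smul_eq_mul]
            ring
        rw [e1]
        apply hadd
        · exact hneg _ (hlie _ (h3 1 1 _) _)
        · rw [← p5]; exact h3 1 0 _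
    have e1 : (c * r) • D j = (c * a ^ 2) • D j + (c * (X 0 * b ^ 2)) • D j
        + (c * (X 1 * e ^ 2)) • D j + (c * (X 0 * (X 1 * d ^ 2))) • D j := by
      rw [← add_smul, ← add_smul, ← add_smul]
      congr 1
      rw [hr]; ring
    rw [e1]
    exact hadd _ (hadd _ (hadd _ q1 _ q2) _ q3) _ q4
  refine ⟨c, hc0, ?_⟩
  intro v
  have e : c • v = (c * v (X 0)) • D 0 + (c * v (X 1)) • D 1 := by
    conv_lhs => rw [der_eq v]
    rw [smul_add, smul_smul, smul_smul]
  rw [e]
  exact hadd _ (h4 0 _) _ (h4 1 _)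

/-- if `N` is nontrivial then `W N` contains `c • Der` for some nonzero `c`. -/
lemma exists_c {k : ℕ} (hk : 1 ≤ k) {N : Subgroup (RingAut L)} (hN : NormalIn k N)
    {f : RingAut L} (hf : f ∈ N) (hf1 : f ≠ 1) : ∃ c : L, c ≠ 0 ∧ ∀ v : Der, c • v ∈ W N := by
  obtain ⟨u, hu⟩ : ∃ u : Der, push f u ≠ u := by
    by_contra hcon
    push Not at hcon
    apply hf1
    ext1 r
    have h1 := hcon (r • D 0)
    rw [push_smul, hcon (D 0)] at h1
    have h2 := congrArg (fun δ : Der => δ (X 0)) h1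
    change f r * D 0 (X 0) = r * D 0 (X 0) at h2
    rw [D00, mul_one, mul_one] at h2
    exact h2
  exact lie_step (I := W N) (fun v hv w hw => W_add hv hw)
    (fun w hw v => W_lie hk hN hw v) (W_push_sub hk hN hf u) (sub_ne_zero.mpr hu)

end Pool.Agent.Helper48.HJI
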