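import Mathlib
import Pool.Agent.Helper48.HJI.Basic
import Pool.Agent.Helper48.HJI.Ops
import Pool.Agent.Helper48.HJI.Comm
import Pool.Agent.Helper48.HJI.LieStep

set_option autoImplicit false

namespace Pool.Agent.Helper48.HJI

open MvPowerSeries Finset

/-! ### Hasse derivatives -/

/-- Hasse derivative of order `t` in direction `j` -/
noncomputable def Hs (j : Fin 2) (t : ℕ) (d : L) : L :=
  fun m => ((m j + t).choose t : ZMod 2) * coeff (m + Finsupp.single j t) d

lemma coeff_Hs (j : Fin 2) (t : ℕ) (d : L) (m : Fin 2 →₀ ℕ) :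
    coeff m (Hs j t d) = ((m j + t).choose t : ZMod 2) * coeff (m + Finsupp.single j t) d := rfl

lemma Hs_zero (j : Fin 2) (d : L) : Hs j 0 d = d := by
  ext m
  rw [coeff_Hs]
  simp

lemma Hs_add (j : Fin 2) (t : ℕ) (d d' : L) : Hs j t (d + d') = Hs j t d + Hs j t d' := by
  ext m
  rw [map_add, coeff_Hs, coeff_Hs, coeff_Hs, map_add, mul_add]

lemma Hs_one (j : Fin 2) (t : ℕ) (ht : 1 ≤ t) : Hs j t 1 = 0 := by
  ext m
  rw [coeff_Hs, coeff_one, if_neg, mul_zero, coeff_zero]
  intro h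
  have h1 := congrArg (fun f : Fin 2 →₀ ℕ => f j) h
  simp only [Finsupp.add_apply, Finsupp.single_eq_same, Finsupp.coe_zero, Pi.zero_apply] at h1
  omega

lemma Hs_map_zero (j : Fin 2) (t : ℕ) : Hs j t 0 = 0 := by
  ext m
  rw [coeff_Hs, coeff_zero, mul_zero]
  simp

lemma coeff_X_mul' (i : Fin 2) (d : L) (m : Fin 2 →₀ ℕ) :
    coeff m (X i * d) = if 1 ≤ m i then coeff (m - Finsupp.single i 1) d else 0 := by
  split_ifs with h
  · have := coeff_X_pow_mul_of_le i 1 d m h
    simpa using this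
  · have := coeff_X_pow_mul_of_lt i 1 d m (by omega)
    simpa using this

lemma Hs_X_mul_of_ne {i j : Fin 2} (hij : i ≠ j) (t : ℕ) (d : L) :
    Hs j t (X i * d) = X i * Hs j t d := by
  ext m
  rw [coeff_Hs, coeff_X_mul', coeff_X_mul']
  have e1 : (m + Finsupp.single j t : Fin 2 →₀ ℕ) i = m i := by
    rw [Finsupp.add_apply, Finsupp.single_eq_of_ne hij, add_zero]
  rw [e1]
  split_ifs with h
  · rw [coeff_Hs]
    have e2 : (m - Finsupp.single i 1 : Fin 2 →₀ ℕ) j = m j := by
      rw [Finsupp.coe_tsub, Pi.sub_apply, Finsupp.single_eq_of_ne (Ne.symm hij)]; rfl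
    have e3 : m + Finsupp.single j t - Finsupp.single i 1 = m - Finsupp.single i 1 + Finsupp.single j t := by
      ext l
      rw [Finsupp.coe_tsub, Pi.sub_apply, Finsupp.add_apply, Finsupp.add_apply, Finsupp.coe_tsub, Pi.sub_apply]
      by_cases h' : l = i
      · subst h'
        rw [Finsupp.single_eq_same, Finsupp.single_eq_of_ne hij]
        omega
      · rw [Finsupp.single_eq_of_ne h']
        omega
    rw [e2, e3]
  · rw [mul_zero]

lemma Hs_X_mul_self (j : Fin 2) (t : ℕ) (d : L) :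
    Hs j (t + 1) (X j * d) = X j * Hs j (t + 1) d + Hs j t d := by
  ext m
  rw [map_add, coeff_Hs, coeff_X_mul', coeff_X_mul', coeff_Hs]
  have e1 : (m + Finsupp.single j (t + 1) : Fin 2 →₀ ℕ) j = m j + (t + 1) := by
    rw [Finsupp.add_apply, Finsupp.single_eq_same]
  rw [e1, if_pos (by omega)]
  have e3 : m + Finsupp.single j (t + 1) - Finsupp.single j 1 = m + Finsupp.single j t := by
    ext l
    rw [Finsupp.coe_tsub, Pi.sub_apply, Finsupp.add_apply, Finsupp.add_apply]
    by_cases h : l = j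
    · subst h
      rw [Finsupp.single_eq_same, Finsupp.single_eq_same, Finsupp.single_eq_same]
      omega
    · rw [Finsupp.single_eq_of_ne h, Finsupp.single_eq_of_ne h, Finsupp.single_eq_of_ne h]
      omega
  rw [e3]
  split_ifs with h
  · rw [coeff_Hs]
    have e2 : (m - Finsupp.single j 1 : Fin 2 →₀ ℕ) j = m j - 1 := by
      rw [Finsupp.coe_tsub, Pi.sub_apply, Finsupp.single_eq_same]
    have e4 : m - Finsupp.single j 1 + Finsupp.single j (t + 1) = m + Finsupp.single j t := by
      ext l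
      rw [Finsupp.add_apply, Finsupp.coe_tsub, Pi.sub_apply, Finsupp.add_apply]
      by_cases h' : l = j
      · subst h'
        rw [Finsupp.single_eq_same, Finsupp.single_eq_same, Finsupp.single_eq_same]
        omega
      · rw [Finsupp.single_eq_of_ne h', Finsupp.single_eq_of_ne h', Finsupp.single_eq_of_ne h']
        omega
    rw [e2, e4, ← add_mul]
    congr 1
    obtain ⟨q, hq⟩ : ∃ q, m j = q + 1 := ⟨m j - 1, by omega⟩
    rw [hq]
    have e5 : q + 1 + (t + 1) = (q + 1 + t) + 1 := by ring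
    have e6 : q + 1 - 1 + (t + 1) = q + 1 + t := by omega
    rw [e5, e6, Nat.choose_succ_succ]
    push_cast
    ring
  · have hm : m j = 0 := by omega
    rw [hm, zero_add, zero_add, coeff_Hs, hm, zero_add, Nat.choose_self, Nat.choose_self]

/-- Taylor expansion to order `n` for `y ↦ y + x^e`. -/
lemma taylor_n {i j : Fin 2} (hij : i ≠ j) {e : ℕ} (he : 1 ≤ e) (g : L →+* L) (hi : g (X i) = X i)
    (hj : g (X j) = X j + (X i) ^ e) (n : ℕ) (d : L) :
    ∃ ρ : L, g d = ∑ t ∈ range (n + 1), Hs j t d * (X i) ^ (e * t) + (X i) ^ (e * (n + 1)) * ρ := by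
  set S : L → L := fun d => ∑ t ∈ range (n + 1), Hs j t d * (X i) ^ (e * t) with hS
  have hSj : ∀ d, S (X j * d) = (X j + (X i) ^ e) * S d - (X i) ^ (e * (n + 1)) * Hs j n d := by
    intro d
    have h1 : S (X j * d) = X j * d + ∑ t ∈ range n, (X j * Hs j (t + 1) d + Hs j t d) * (X i) ^ (e * (t + 1)) := by
      simp only [hS]
      rw [Finset.sum_range_succ', Hs_zero, mul_zero, pow_zero, mul_one, add_comm]
      congr 1
      apply Finset.sum_congr rfl
      intro t _
      rw [Hs_X_mul_self]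
    have h2 : S d = d + ∑ t ∈ range n, Hs j (t + 1) d * (X i) ^ (e * (t + 1)) := by
      simp only [hS]
      rw [Finset.sum_range_succ', Hs_zero, mul_zero, pow_zero, mul_one, add_comm]
    have h3 : S d = ∑ t ∈ range n, Hs j t d * (X i) ^ (e * t) + Hs j n d * (X i) ^ (e * n) := by
      simp only [hS]
      rw [Finset.sum_range_succ]
    have h4 : (X j + (X i) ^ e) * S d - (X i) ^ (e * (n + 1)) * Hs j n d
        = X j * S d + (X i) ^ e * (S d - Hs j n d * (X i) ^ (e * n)) := by
      rw [mul_add e, mul_one, pow_add]; ring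
    rw [h4, h1]
    conv_rhs => rw [h2]
    have h5 : d + ∑ t ∈ range n, Hs j (t + 1) d * (X i) ^ (e * (t + 1)) - Hs j n d * (X i) ^ (e * n)
        = ∑ t ∈ range n, Hs j t d * (X i) ^ (e * t) := by
      rw [← h2, h3]; ring
    rw [h5]
    rw [mul_add, Finset.mul_sum, Finset.mul_sum]
    have h6 : ∑ t ∈ range n, (X j * Hs j (t + 1) d + Hs j t d) * (X i : L) ^ (e * (t + 1))
        = ∑ t ∈ range n, X j * (Hs j (t + 1) d * (X i) ^ (e * (t + 1)))
          + ∑ t ∈ range n, (X i) ^ e * (Hs j t d * (X i) ^ (e * t)) := by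
      rw [← Finset.sum_add_distrib]
      apply Finset.sum_congr rfl
      intro t _
      rw [mul_add e, mul_one, pow_add]; ring
    rw [h6]; ring
  have hSi : ∀ d, S (X i * d) = X i * S d := by
    intro d
    simp only [hS]
    rw [Finset.mul_sum]
    apply Finset.sum_congr rfl
    intro t _
    rw [Hs_X_mul_of_ne hij]; ring
  have hSadd : ∀ d d', S (d + d') = S d + S d' := by
    intro d d'
    simp only [hS]
    rw [← Finset.sum_add_distrib]
    apply Finset.sum_congr rfl
    intro t _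
    rw [Hs_add]; ring
  have hS1 : S 1 = 1 := by
    simp only [hS]
    rw [Finset.sum_range_succ', Hs_zero, mul_zero, pow_zero, mul_one]
    rw [Finset.sum_eq_zero, zero_add]
    intro t _
    rw [Hs_one j (t + 1) (by omega), zero_mul]
  have hS0 : S 0 = 0 := by
    simp only [hS]
    apply Finset.sum_eq_zero
    intro t _
    rw [Hs_map_zero, zero_mul]
  have hcases : ∀ l : Fin 2, l = i ∨ l = j := by
    intro l
    omega
  have key : ∀ N : ℕ, ∀ d : L, ∃ u, ∃ v ∈ F N, g d - S d = (X i) ^ (e * (n + 1)) * u + v := by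
    intro N
    induction N with
    | zero => intro d; exact ⟨0, g d - S d, mem_F_nonpos (by simp) _, by ring⟩
    | succ N ih =>
      have hstep : ∀ (l : Fin 2) (d : L), ∃ u, ∃ v ∈ F ((N + 1 : ℕ) : ℤ),
          g (X l * d) - S (X l * d) = (X i) ^ (e * (n + 1)) * u + v := by
        intro l d
        obtain ⟨u, v, hv, huv⟩ := ih d
        have e3 : ((N + 1 : ℕ) : ℤ) = 1 + N := by push_cast; ring
        rcases hcases l with rfl | rfl
        · refine ⟨X l * u, X l * v, by rw [e3]; exact F_mul (X_mem l) hv, ?_⟩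
          rw [map_mul, hi, hSi, ← mul_sub, huv]; ring
        · refine ⟨(X l + (X i) ^ e) * u + Hs l n d, (X l + (X i) ^ e) * v, ?_, ?_⟩
          · rw [e3]
            apply F_mul _ hv
            apply (F _).add_mem (X_mem l)
            exact mem_F_of_le (by omega) (X_pow_mem i e)
          · rw [map_mul, hj, hSj]
            have : (X l + X i ^ e) * g d - ((X l + X i ^ e) * S d - X i ^ (e * (n + 1)) * Hs l n d)
                = (X l + X i ^ e) * (g d - S d) + X i ^ (e * (n + 1)) * Hs l n d := by ring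
            rw [this, huv]; ring
      intro d
      obtain ⟨c, r₁, r₂, hc, er⟩ := split_gen d
      have hc' : g c - S c = 0 := by
        rcases hc with rfl | rfl
        · rw [map_zero, hS0, sub_zero]
        · rw [map_one, hS1, sub_self]
      obtain ⟨u1, v1, hv1, e1⟩ := hstep 0 r₁
      obtain ⟨u2, v2, hv2, e2⟩ := hstep 1 r₂
      refine ⟨u1 + u2, v1 + v2, (F _).add_mem hv1 hv2, ?_⟩
      have : g d - S d = (g c - S c) + (g (X 0 * r₁) - S (X 0 * r₁)) + (g (X 1 * r₂) - S (X 1 * r₂)) := by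
        rw [er, map_add, map_add, hSadd, hSadd]; ring
      rw [this, hc', e1, e2]; ring
  have hdvd : (X i : L) ^ (e * (n + 1)) ∣ g d - S d := by
    rw [X_pow_dvd_iff]
    intro m hm
    obtain ⟨u, v, hv, huv⟩ := key (m.degree + 1) d
    rw [huv, map_add, coeff_X_pow_mul_of_lt i _ u m hm, hv m (by push_cast; omega), add_zero]
  obtain ⟨ρ, hρ⟩ := hdvd
  refine ⟨ρ, ?_⟩
  rw [← hρ]
  ring

/-! ### The `q`-difference trick -/

lemma qdiff (J : Ideal L) (i : Fin 2) (hsat : ∀ r, X i * r ∈ J → r ∈ J) {e0 : ℕ} (he0 : 1 ≤ e0) :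
    ∀ n : ℕ, ∀ c : ℕ → L, ∀ ρ : ℕ → L,
      (∀ e, e0 ≤ e → ∑ t ∈ range (n + 1), c t * (X i) ^ (e * t) + (X i) ^ (e * (n + 1)) * ρ e ∈ J) →
      c n ∉ F 1 → (1 : L) ∈ J := by
  have hsatp : ∀ p : ℕ, ∀ r, (X i) ^ p * r ∈ J → r ∈ J := by
    intro p
    induction p with
    | zero => intro r h; simpa using h
    | succ p ih =>
      intro r h
      apply ih
      apply hsat
      rw [← mul_assoc, ← pow_succ']
      exact h
  intro n
  induction n with
  | zero =>
    intro c ρ h hc
    have h1 := h e0 le_rfl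
    simp only [zero_add, Finset.range_one, Finset.sum_singleton, mul_zero, pow_zero, mul_one] at h1
    have h2 : IsUnit (c 0 + (X i) ^ e0 * ρ e0) := by
      rw [isUnit_iff]
      intro h3
      apply hc
      have h4 : (X i) ^ e0 * ρ e0 ∈ F 1 := by
        have := F_mul (X_pow_mem i e0) (mem_F_nonpos (le_refl (0 : ℤ)) (ρ e0))
        exact mem_F_of_le (by omega) this
      have h5 := (F _).sub_mem h3 h4
      rwa [add_sub_cancel_right] at h5
    rw [← Ideal.eq_top_iff_one]
    exact J.eq_top_of_isUnit_mem h1 h2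
  | succ n ih =>
    intro c ρ h hc
    apply ih (fun t => c (t + 1) * (1 - (X i) ^ (t + 1))) (fun e => ρ e - (X i) ^ (n + 2) * ρ (e + 1))
    · intro e he
      apply hsatp e
      have h1 := J.sub_mem (h e he) (h (e + 1) (by omega))
      have e1 : ∑ t ∈ range (n + 1 + 1), c t * (X i : L) ^ (e * t) + (X i) ^ (e * (n + 1 + 1)) * ρ e
          - (∑ t ∈ range (n + 1 + 1), c t * (X i) ^ ((e + 1) * t) + (X i) ^ ((e + 1) * (n + 1 + 1)) * ρ (e + 1))
          = (X i) ^ e * (∑ t ∈ range (n + 1), (c (t + 1) * (1 - (X i) ^ (t + 1))) * (X i) ^ (e * t)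
            + (X i) ^ (e * (n + 1)) * (ρ e - (X i) ^ (n + 2) * ρ (e + 1))) := by
        rw [Finset.sum_range_succ' _ (n + 1), Finset.sum_range_succ' _ (n + 1),
          mul_add ((X i : L) ^ e), Finset.mul_sum]
        have e2 : ∑ t ∈ range (n + 1), c (t + 1) * (X i : L) ^ (e * (t + 1))
            = ∑ t ∈ range (n + 1), (X i) ^ e * ((c (t + 1) * (1 - (X i) ^ (t + 1))) * (X i) ^ (e * t))
              + ∑ t ∈ range (n + 1), c (t + 1) * (X i) ^ ((e + 1) * (t + 1)) := by
          rw [← Finset.sum_add_distrib]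
          apply Finset.sum_congr rfl
          intro t _
          have e3 : (e + 1) * (t + 1) = e + (e * t + (t + 1)) := by ring
          have e4 : e * (t + 1) = e + e * t := by ring
          rw [e3, e4, pow_add, pow_add, pow_add]
          ring
        rw [e2]
        have e5 : (e + 1) * (n + 1 + 1) = e + (e * (n + 1) + (n + 2)) := by ring
        have e6 : e * (n + 1 + 1) = e + e * (n + 1) := by ring
        rw [e5, e6, pow_add, pow_add (X i) e, pow_add (X i) (e * (n + 1)) (n + 2)]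
        ring
      rw [← e1]
      exact h1
    · intro h1
      apply hc
      have h2 : IsUnit (1 - (X i : L) ^ (n + 1)) := by
        rw [isUnit_iff]
        intro h3
        have h4 : (X i : L) ^ (n + 1) ∈ F 1 := mem_F_of_le (by push_cast; omega) (X_pow_mem i (n + 1))
        have h5 := (F _).add_mem h3 h4
        rw [sub_add_cancel] at h5
        exact one_not_mem_F h5
      obtain ⟨w, hw⟩ := h2
      have h6 := (F 1).mul_mem_left (↑w⁻¹ : L) h1
      have h7 : (↑w⁻¹ : L) * (c (n + 1) * (1 - (X i : L) ^ (n + 1))) = c (n + 1) := by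
        rw [← hw, mul_comm (c (n + 1)), ← mul_assoc, Units.inv_mul, one_mul]
      rw [h7] at h6
      exact h6

/-- A nonzero ideal stable under `Gam k` contains powers of both variables. -/
lemma ideal_step {k : ℕ} (hk : 1 ≤ k) (J : Ideal L) (hst : ∀ g ∈ Gam k, ∀ c ∈ J, g c ∈ J) {c : L}
    (hc : c ∈ J) (hne : c ≠ 0) {i j : Fin 2} (hij : i ≠ j) : ∃ n : ℕ, (X i : L) ^ n ∈ J := by
  -- the saturation
  let K : Ideal L :=
    { carrier := {d | ∃ n : ℕ, (X i) ^ n * d ∈ J}
      add_mem' := by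
        rintro a b ⟨n, hn⟩ ⟨m, hm⟩
        refine ⟨n + m, ?_⟩
        have : (X i : L) ^ (n + m) * (a + b) = (X i) ^ m * ((X i) ^ n * a) + (X i) ^ n * ((X i) ^ m * b) := by
          rw [pow_add]; ring
        rw [this]
        exact J.add_mem (J.mul_mem_left _ hn) (J.mul_mem_left _ hm)
      zero_mem' := ⟨0, by simp⟩
      smul_mem' := by
        rintro a b ⟨n, hn⟩
        refine ⟨n, ?_⟩
        have : (X i : L) ^ n * (a • b) = a * ((X i) ^ n * b) := by
          rw [smul_eq_mul]; ring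
        rw [this]
        exact J.mul_mem_left _ hn }
  have hK : ∀ d, d ∈ K ↔ ∃ n : ℕ, (X i : L) ^ n * d ∈ J := fun d => Iff.rfl
  have hsat : ∀ r, X i * r ∈ K → r ∈ K := by
    intro r hr
    rw [hK] at hr ⊢
    obtain ⟨n, hn⟩ := hr
    refine ⟨n + 1, ?_⟩
    rw [pow_succ, mul_assoc]
    exact hn
  suffices h1 : (1 : L) ∈ K by
    rw [hK] at h1
    obtain ⟨n, hn⟩ := h1
    exact ⟨n, by simpa using hn⟩
  -- divide by the power of `X i`
  have hex : ∃ p : ℕ, ∃ m : Fin 2 →₀ ℕ, m i = p ∧ coeff m c ≠ 0 := by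
    by_contra hcon
    push Not at hcon
    apply hne
    ext m
    rw [coeff_zero]
    exact hcon (m i) m rfl
  classical
  obtain ⟨m, hm, hcm⟩ := Nat.find_spec hex
  set p := Nat.find hex with hp
  have hmin : ∀ m' : Fin 2 →₀ ℕ, m' i < p → coeff m' c = 0 := by
    intro m' hm'
    by_contra hcon
    exact Nat.find_min hex hm' ⟨m', rfl, hcon⟩
  have hdvd : (X i : L) ^ p ∣ c := by
    rw [X_pow_dvd_iff]
    exact hmin
  obtain ⟨d, hd⟩ := hdvd
  have hdK : ∀ g ∈ Gam k, g (X i) = X i → g d ∈ K := by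
    intro g hg hgi
    rw [hK]
    refine ⟨p, ?_⟩
    have := hst g hg c hc
    rw [hd, map_mul, map_pow, hgi] at this
    exact this
  have hcoef : coeff (Finsupp.single j (m j)) d ≠ 0 := by
    rw [hd, coeff_X_pow_mul_of_le i p d m (by omega)] at hcm
    have e1 : m - Finsupp.single i p = Finsupp.single j (m j) := by
      ext l
      rw [Finsupp.coe_tsub, Pi.sub_apply]
      have hl : l = i ∨ l = j := by omega
      rcases hl with rfl | rfl
      · rw [Finsupp.single_eq_same, Finsupp.single_eq_of_ne hij, hm]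
        omega
      · rw [Finsupp.single_eq_of_ne (Ne.symm hij), Finsupp.single_eq_same]
        rfl
    rwa [e1] at hcm
  set n := m j with hn
  -- the automorphisms `X j ↦ X j + X i ^ e`
  have haut : ∀ e : ℕ, k + 1 ≤ e → ∃ g ∈ Gam k, g (X i) = X i ∧ g (X j) = X j + (X i) ^ e := by
    intro e he
    obtain ⟨g, hg, hgX⟩ := exists_mem_Gam hk (fun l => if l = j then (X i : L) ^ e else 0) (by
      intro l
      split_ifs
      · exact mem_F_of_le (by omega) (X_pow_mem i e)
      · exact (F _).zero_mem)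
    refine ⟨g, hg, ?_, ?_⟩
    · rw [hgX, if_neg hij, add_zero]
    · rw [hgX, if_pos rfl]
  have hρ : ∀ e : ℕ, ∃ ρ : L, k + 1 ≤ e →
      ∑ t ∈ range (n + 1), Hs j t d * (X i) ^ (e * t) + (X i) ^ (e * (n + 1)) * ρ ∈ K := by
    intro e
    by_cases he : k + 1 ≤ e
    · obtain ⟨g, hg, hgi, hgj⟩ := haut e he
      obtain ⟨ρ, hρ⟩ := taylor_n hij (by omega) (RingEquiv.toRingHom g) hgi hgj n d
      refine ⟨ρ, fun _ => ?_⟩
      rw [← hρ]
      exact hdK g hg hgi
    · exact ⟨0, fun h => absurd h he⟩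
  choose ρ hρ using hρ
  apply qdiff K i hsat (e0 := k + 1) (by omega) n (fun t => Hs j t d) ρ hρ
  intro h1
  have h2 := h1 0 (by simp)
  rw [coeff_Hs] at h2
  apply hcoef
  simpa using h2

/-- the ideal of all `c` with `c • Der ⊆ W N` -/
noncomputable def CW (N : Subgroup (RingAut L)) : Ideal L where
  carrier := {c | ∀ v : Der, c • v ∈ W N}
  add_mem' := by
    intro a b ha hb v
    rw [add_smul]
    exact W_add (ha v) (hb v)
  zero_mem' := by
    intro v
    rw [zero_smul]
    exact W_zero N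
  smul_mem' := by
    intro a b hb v
    rw [smul_eq_mul, mul_comm, mul_smul]
    exact hb (a • v)

lemma mem_CW {N : Subgroup (RingAut L)} {c : L} : c ∈ CW N ↔ ∀ v : Der, c • v ∈ W N := Iff.rfl

lemma push_push_inv (g : RingAut L) (v : Der) : push g (push g⁻¹ v) = v := by
  ext1 r
  change g (g⁻¹ (v (g⁻¹⁻¹ (g⁻¹ r)))) = v r
  rw [aut_inv_apply, inv_inv, aut_inv_apply]

/-- `W N` contains `(x^n) • Der` and `(y^n) • Der` for all large `n`. -/
lemma W_big {k : ℕ} (hk : 1 ≤ k) {N : Subgroup (RingAut L)} (hN : NormalIn k N)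
    {f : RingAut L} (hf : f ∈ N) (hf1 : f ≠ 1) :
    ∃ M : ℕ, ∀ n, M ≤ n → ∀ i : Fin 2, ∀ v : Der, ((X i : L) ^ n) • v ∈ W N := by
  obtain ⟨c, hc, hcv⟩ := exists_c hk hN hf hf1
  have hst : ∀ g ∈ Gam k, ∀ c ∈ CW N, g c ∈ CW N := by
    intro g hg c hc v
    rw [← push_push_inv g v, ← push_smul]
    exact W_push hk hN (hc _) hg
  obtain ⟨n0, h0⟩ := ideal_step hk (CW N) hst (mem_CW.mpr hcv) hc (i := 0) (j := 1) (by decide)
  obtain ⟨n1, h1⟩ := ideal_step hk (CW N) hst (mem_CW.mpr hcv) hc (i := 1) (j := 0) (by decide)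
  refine ⟨max n0 n1, ?_⟩
  intro n hn i v
  fin_cases i
  · change ((X 0 : L) ^ n) • v ∈ W N
    obtain ⟨t, rfl⟩ : ∃ t, n = t + n0 := ⟨n - n0, by omega⟩
    have := (CW N).mul_mem_left ((X 0 : L) ^ t) h0
    rw [← pow_add] at this
    exact this v
  · change ((X 1 : L) ^ n) • v ∈ W N
    obtain ⟨t, rfl⟩ : ∃ t, n = t + n1 := ⟨n - n1, by omega⟩
    have := (CW N).mul_mem_left ((X 1 : L) ^ t) h1
    rw [← pow_add] at this
    exact this v

end Pool.Agent.Helper48.HJI
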