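import Mathlib
import Pool.Agent.Helper48.HJI.Abs
import Pool.Agent.Helper48.HJI.IdealStep

set_option autoImplicit false

namespace Pool.Agent.Helper48.HJI

open MvPowerSeries Finset

/-! ### The group `Gam 1` and its filtration -/

lemma cm_mem_Gam {f g : RingAut L} {a b : ℕ} (h : 1 ≤ a + b) (hf : f ∈ Gam a) (hg : g ∈ Gam b) :
    cm f g ∈ Gam (a + b) := by
  apply mem_Gam_of_op h
  rw [op_comm]
  have h1 : (op f - 1) * (op g - 1) - (op g - 1) * (op f - 1) ∈ O (a + b) := by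
    apply (O _).sub_mem (O_mul hf.1 hg.1)
    rw [add_comm]
    exact O_mul hg.1 hf.1
  have h2 := O_mul (op_mem_O_zero ((Gam a).inv_mem hf)) (op_mem_O_zero ((Gam b).inv_mem hg))
  have h3 := O_mul h1 h2
  push_cast
  simpa using h3

lemma conj_mem_Gam {g h : RingAut L} {n : ℕ} (hg : g ∈ Gam 1) (hh : h ∈ Gam n) :
    g * h * g⁻¹ ∈ Gam n := by
  have h1 : cm g h ∈ Gam (1 + n) := cm_mem_Gam (by omega) hg hh
  have h2 : g * h * g⁻¹ = cm g h * h := by
    rw [cm_def, inv_mul_cancel_right]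
  rw [h2]
  exact (Gam n).mul_mem (Gam_anti (by omega) h1) hh

/-- the group `Γ₁` as a type -/
abbrev G1 : Type := ↥(Gam 1)

/-- congruence subgroups inside `G1` -/
noncomputable def Gs (n : ℕ) : Subgroup G1 := (Gam n).subgroupOf (Gam 1)

lemma mem_Gs {n : ℕ} {g : G1} : g ∈ Gs n ↔ (g : RingAut L) ∈ Gam n := Iff.rfl

lemma eq_one_of_forall_Gam {g : RingAut L} (h : ∀ n, g ∈ Gam n) : g = 1 := by
  apply op_injective
  rw [map_one, ← sub_eq_zero]
  exact eq_zero_of_forall_O (fun n => (h n).1)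

lemma Gs_filt : Filt Gs where
  normal := by
    intro n
    refine ⟨fun h hh g => ?_⟩
    exact conj_mem_Gam g.2 hh
  anti := by
    intro a b hab g hg
    exact Gam_anti hab hg
  central := by
    intro n g h hh
    have := cm_mem_Gam (a := 1) (b := n) (by omega) g.2 hh
    rw [add_comm] at this
    exact this
  sep := by
    intro g hg
    apply Subtype.ext
    exact eq_one_of_forall_Gam hg
  compl := by
    intro u hu
    have h1 : ∀ (n : ℕ) (i : Fin 2), (u (n + 1) : RingAut L) (X i) - (u n : RingAut L) (X i) ∈ F (n + 1) := by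
      intro n i
      have h2 : ((u n)⁻¹ * u (n + 1) : RingAut L) (X i) - X i ∈ F (n + 1) :=
        gen_of_mem_Gam (hu n) i
      have h3 := (op_mem_O_zero (u n).2) _ _ h2
      rw [add_zero] at h3
      have h4 : (u (n + 1) : RingAut L) (X i) - (u n : RingAut L) (X i)
          = op (u n : RingAut L) (((u n)⁻¹ * u (n + 1) : RingAut L) (X i) - X i) := by
        rw [map_sub, op_apply, op_apply]
        congr 1
        change _ = ((u n : RingAut L) * ((u n : RingAut L)⁻¹ * (u (n + 1) : RingAut L))) (X i)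
        rw [mul_inv_cancel_left]
      rw [h4]
      exact h3
    have h2 : ∀ i, ∃ r : L, ∀ n : ℕ, r - (u n : RingAut L) (X i) ∈ F (n + 1) := by
      intro i
      obtain ⟨r, hr⟩ := complete (fun n => (u n : RingAut L) (X i))
        (fun n => mem_F_of_le (by omega) (h1 n i))
      refine ⟨r, ?_⟩
      intro n
      have e : r - (u n : RingAut L) (X i)
          = (r - (u (n + 1) : RingAut L) (X i)) + ((u (n + 1) : RingAut L) (X i) - (u n : RingAut L) (X i)) := by
        ring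
      rw [e]
      have := hr (n + 1)
      push_cast at this
      exact (F _).add_mem this (h1 n i)
    choose r hr using h2
    obtain ⟨g, hg, hgX⟩ := exists_mem_Gam (k := 1) le_rfl (fun i => r i - X i) (by
      intro i
      have e : r i - X i = (r i - (u 1 : RingAut L) (X i)) + ((u 1 : RingAut L) (X i) - X i) := by ring
      rw [e]
      exact (F _).add_mem (hr i 1) (gen_of_mem_Gam (u 1).2 i))
    refine ⟨⟨g, hg⟩, ?_⟩
    intro n
    by_cases hn : 1 ≤ n
    · change ((u n : RingAut L)⁻¹ * g) ∈ Gam n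
      apply mem_Gam_of_gen hn
      intro i
      have e : ((u n : RingAut L)⁻¹ * g) (X i) - X i
          = op (u n : RingAut L)⁻¹ (g (X i) - (u n : RingAut L) (X i)) := by
        rw [map_sub, op_apply, op_apply]
        congr 1
        rw [aut_inv_apply']
      rw [e, hgX]
      have e2 : X i + (r i - X i) - (u n : RingAut L) (X i) = r i - (u n : RingAut L) (X i) := by ring
      rw [e2]
      have h3 := (op_mem_O_zero ((Gam 1).inv_mem (u n).2)) _ _ (hr i n)
      rwa [add_zero] at h3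
    · have h0 : n = 0 := by omega
      subst h0
      change ((u 0 : RingAut L)⁻¹ * g) ∈ Gam 0
      exact Gam_anti (Nat.zero_le 1) ((Gam 1).mul_mem ((Gam 1).inv_mem (u 0).2) hg)

/-! ### Decomposition of derivations as brackets -/

/-- the four vector fields -/
noncomputable def wv : Fin 4 → Der := ![D 0, D 1, (X 1 : L) • D 0, (X 0 : L) • D 1]

/-- weights -/
def al : Fin 4 → ℕ := ![0, 0, 1, 1]

lemma al_le (τ : Fin 4) : al τ ≤ 1 := by
  fin_cases τ <;> simp [al]

lemma wv_mem (τ : Fin 4) : dop (wv τ) ∈ O ((al τ : ℤ) - 1) := by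
  fin_cases τ
  · exact der_mem_O_general _
  · exact der_mem_O_general _
  · change dop ((X 1 : L) • D 0) ∈ O (((1 : ℕ) : ℤ) - 1)
    exact dop_smul_mem (X_mem 1) _
  · change dop ((X 0 : L) • D 1) ∈ O (((1 : ℕ) : ℤ) - 1)
    exact dop_smul_mem (X_mem 0) _

lemma D_sq_mul (i : Fin 2) (a r : L) : D i (a ^ 2 * r) = a ^ 2 * D i r := by
  rw [Derivation.leibniz, der_sq, smul_zero, add_zero, smul_eq_mul]

lemma decomp_der {q : ℤ} (v : Der) (hv : ∀ i, v (X i) ∈ F q) :
    ∃ u : Fin 4 → Der, (∀ τ i, u τ (X i) ∈ F (q + 1 - al τ)) ∧ v = ∑ τ, ⁅wv τ, u τ⁆ := by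
  obtain ⟨a, b, c, d, e1, ha, hb, hc, hd⟩ := exists_decomp (hv 0)
  obtain ⟨a', b', c', d', e1', ha', hb', hc', hd'⟩ := exists_decomp (hv 1)
  set x : L := X 0 with hx
  set y : L := X 1 with hy
  have D00' : D 0 x = 1 := D00
  have D11' : D 1 y = 1 := D11
  have D01' : D 0 y = 0 := D01
  have D10' : D 1 x = 0 := D10
  let u : Fin 4 → Der := ![
    (a ^ 2 * x + c ^ 2 * (x * y)) • D 0 + (d ^ 2 * (x * y ^ 2) + (a' ^ 2 * x + c' ^ 2 * (x * y))) • D 1,
    (b ^ 2 * (x * y) + d' ^ 2 * (x ^ 2 * y)) • D 0 + (b' ^ 2 * (x * y)) • D 1,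
    (d ^ 2 * (x * y)) • D 1,
    (d' ^ 2 * (x * y)) • D 0]
  have hu00 : u 0 (X 0) = a ^ 2 * x + c ^ 2 * (x * y) := by
    change (a ^ 2 * x + c ^ 2 * (x * y)) * D 0 x
      + (d ^ 2 * (x * y ^ 2) + (a' ^ 2 * x + c' ^ 2 * (x * y))) * D 1 x = _
    rw [D00', D10']; ring
  have hu01 : u 0 (X 1) = d ^ 2 * (x * y ^ 2) + (a' ^ 2 * x + c' ^ 2 * (x * y)) := by
    change (a ^ 2 * x + c ^ 2 * (x * y)) * D 0 y
      + (d ^ 2 * (x * y ^ 2) + (a' ^ 2 * x + c' ^ 2 * (x * y))) * D 1 y = _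
    rw [D01', D11']; ring
  have hu10 : u 1 (X 0) = b ^ 2 * (x * y) + d' ^ 2 * (x ^ 2 * y) := by
    change (b ^ 2 * (x * y) + d' ^ 2 * (x ^ 2 * y)) * D 0 x + (b' ^ 2 * (x * y)) * D 1 x = _
    rw [D00', D10']; ring
  have hu11 : u 1 (X 1) = b' ^ 2 * (x * y) := by
    change (b ^ 2 * (x * y) + d' ^ 2 * (x ^ 2 * y)) * D 0 y + (b' ^ 2 * (x * y)) * D 1 y = _
    rw [D01', D11']; ring
  have hu20 : u 2 (X 0) = 0 := by
    change (d ^ 2 * (x * y)) * D 1 x = _
    rw [D10']; ring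
  have hu21 : u 2 (X 1) = d ^ 2 * (x * y) := by
    change (d ^ 2 * (x * y)) * D 1 y = _
    rw [D11']; ring
  have hu30 : u 3 (X 0) = d' ^ 2 * (x * y) := by
    change (d' ^ 2 * (x * y)) * D 0 x = _
    rw [D00']; ring
  have hu31 : u 3 (X 1) = 0 := by
    change (d' ^ 2 * (x * y)) * D 0 y = _
    rw [D01']; ring
  refine ⟨u, ?_, ?_⟩
  · have hX : ∀ (j : Fin 2) (r : L), r ∈ F q → r * X j ∈ F (q + 1) := by
      intro j r hr
      exact F_mul hr (X_mem j)
    have h1 : a ^ 2 * x ∈ F (q + 1) := hX 0 _ ha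
    have h1' : a' ^ 2 * x ∈ F (q + 1) := hX 0 _ ha'
    have h2 : c ^ 2 * (x * y) ∈ F (q + 1) := by
      have := hX 0 _ hc
      have e : c ^ 2 * (x * y) = y * c ^ 2 * x := by ring
      rw [e]; exact this
    have h2' : c' ^ 2 * (x * y) ∈ F (q + 1) := by
      have := hX 0 _ hc'
      have e : c' ^ 2 * (x * y) = y * c' ^ 2 * x := by ring
      rw [e]; exact this
    have h3 : b ^ 2 * (x * y) ∈ F (q + 1) := by
      have := hX 1 _ hb
      have e : b ^ 2 * (x * y) = x * b ^ 2 * y := by ring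
      rw [e]; exact this
    have h3' : b' ^ 2 * (x * y) ∈ F (q + 1) := by
      have := hX 1 _ hb'
      have e : b' ^ 2 * (x * y) = x * b' ^ 2 * y := by ring
      rw [e]; exact this
    have h4 : d ^ 2 * (x * y ^ 2) ∈ F (q + 1) := by
      have := hX 1 _ hd
      have e : d ^ 2 * (x * y ^ 2) = x * (y * d ^ 2) * y := by ring
      rw [e]; exact this
    have h4' : d' ^ 2 * (x ^ 2 * y) ∈ F (q + 1) := by
      have := hX 0 _ hd'
      have e : d' ^ 2 * (x ^ 2 * y) = x * (y * d' ^ 2) * x := by ring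
      rw [e]; exact this
    have h5 : d ^ 2 * (x * y) ∈ F q := by
      have e : d ^ 2 * (x * y) = x * (y * d ^ 2) := by ring
      rw [e]; exact hd
    have h5' : d' ^ 2 * (x * y) ∈ F q := by
      have e : d' ^ 2 * (x * y) = x * (y * d' ^ 2) := by ring
      rw [e]; exact hd'
    have e0 : q + 1 - ((0 : ℕ) : ℤ) = q + 1 := by simp
    have e1 : q + 1 - ((1 : ℕ) : ℤ) = q := by simp
    intro τ i
    fin_cases τ <;> fin_cases i
    · change u 0 (X 0) ∈ F (q + 1 - ((0 : ℕ) : ℤ))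
      rw [e0, hu00]
      exact (F _).add_mem h1 h2
    · change u 0 (X 1) ∈ F (q + 1 - ((0 : ℕ) : ℤ))
      rw [e0, hu01]
      exact (F _).add_mem h4 ((F _).add_mem h1' h2')
    · change u 1 (X 0) ∈ F (q + 1 - ((0 : ℕ) : ℤ))
      rw [e0, hu10]
      exact (F _).add_mem h3 h4'
    · change u 1 (X 1) ∈ F (q + 1 - ((0 : ℕ) : ℤ))
      rw [e0, hu11]
      exact h3'
    · change u 2 (X 0) ∈ F (q + 1 - ((1 : ℕ) : ℤ))
      rw [e1, hu20]
      exact (F _).zero_mem
    · change u 2 (X 1) ∈ F (q + 1 - ((1 : ℕ) : ℤ))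
      rw [e1, hu21]
      exact h5
    · change u 3 (X 0) ∈ F (q + 1 - ((1 : ℕ) : ℤ))
      rw [e1, hu30]
      exact h5'
    · change u 3 (X 1) ∈ F (q + 1 - ((1 : ℕ) : ℤ))
      rw [e1, hu31]
      exact (F _).zero_mem
  · -- the identity
    have key : ∀ j : Fin 2, (∑ τ, ⁅wv τ, u τ⁆) (X j) =
        D 0 (u 0 (X j)) + D 1 (u 1 (X j))
          + (y * D 0 (u 2 (X j)) - u 2 (y * D 0 (X j)))
          + (x * D 1 (u 3 (X j)) - u 3 (x * D 1 (X j))) := by
      intro j
      rw [Fin.sum_univ_four]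
      change ⁅D 0, u 0⁆ (X j) + ⁅D 1, u 1⁆ (X j) + ⁅y • D 0, u 2⁆ (X j) + ⁅x • D 1, u 3⁆ (X j) = _
      rw [D_lie_apply, D_lie_apply]
      rfl
    have ux : ∀ τ, u τ x = u τ (X 0) := fun _ => rfl
    have uy : ∀ τ, u τ y = u τ (X 1) := fun _ => rfl
    apply der_ext
    intro i
    rw [key]
    fin_cases i
    · change v (X 0) = D 0 (u 0 (X 0)) + D 1 (u 1 (X 0))
          + (y * D 0 (u 2 (X 0)) - u 2 (y * D 0 x))
          + (x * D 1 (u 3 (X 0)) - u 3 (x * D 1 x))
      have p1 : D 0 (a ^ 2 * x + c ^ 2 * (x * y)) = a ^ 2 + c ^ 2 * y := by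
        rw [map_add, D_sq_mul, D_sq_mul, Derivation.leibniz, D00', D01', smul_zero, zero_add,
          smul_eq_mul, mul_one, mul_one]
      have p2 : D 1 (b ^ 2 * (x * y) + d' ^ 2 * (x ^ 2 * y)) = b ^ 2 * x + d' ^ 2 * x ^ 2 := by
        rw [map_add, D_sq_mul, D_sq_mul, D_sq_mul, Derivation.leibniz, D10', D11', smul_zero,
          add_zero, smul_eq_mul, mul_one, mul_one]
      have p3 : D 1 (d' ^ 2 * (x * y)) = d' ^ 2 * x := by
        rw [D_sq_mul, Derivation.leibniz, D10', D11', smul_zero, add_zero, smul_eq_mul, mul_one]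
      have p4 : u 2 (y * D 0 x) = d ^ 2 * (x * y) := by
        rw [D00', mul_one, uy, hu21]
      have p5 : u 3 (x * D 1 x) = 0 := by
        rw [D10', mul_zero, map_zero]
      rw [hu00, hu10, hu20, hu30, p1, p2, p3, p4, p5, map_zero, mul_zero, zero_sub, sub_zero, e1,
        neg_eq]
      have e4 : a ^ 2 + c ^ 2 * y + (b ^ 2 * x + d' ^ 2 * x ^ 2) + d ^ 2 * (x * y)
          + x * (d' ^ 2 * x) = a ^ 2 + x * b ^ 2 + y * c ^ 2 + x * (y * d ^ 2)
            + (d' ^ 2 * x ^ 2 + d' ^ 2 * x ^ 2) := by ring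
      rw [e4, add_self, add_zero]
    · change v (X 1) = D 0 (u 0 (X 1)) + D 1 (u 1 (X 1))
          + (y * D 0 (u 2 (X 1)) - u 2 (y * D 0 y))
          + (x * D 1 (u 3 (X 1)) - u 3 (x * D 1 y))
      have p1 : D 0 (d ^ 2 * (x * y ^ 2) + (a' ^ 2 * x + c' ^ 2 * (x * y)))
          = d ^ 2 * y ^ 2 + (a' ^ 2 + c' ^ 2 * y) := by
        have q1 : D 0 (x * y ^ 2) = y ^ 2 := by
          rw [Derivation.leibniz, der_sq, D00', smul_zero, zero_add, smul_eq_mul, mul_one]
        have q2 : D 0 (x * y) = y := by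
          rw [Derivation.leibniz, D00', D01', smul_zero, zero_add, smul_eq_mul, mul_one]
        rw [map_add, map_add, D_sq_mul, D_sq_mul, D_sq_mul, q1, q2, D00', mul_one]
      have p2 : D 1 (b' ^ 2 * (x * y)) = b' ^ 2 * x := by
        rw [D_sq_mul, Derivation.leibniz, D10', D11', smul_zero, add_zero, smul_eq_mul, mul_one]
      have p3 : D 0 (d ^ 2 * (x * y)) = d ^ 2 * y := by
        rw [D_sq_mul, Derivation.leibniz, D00', D01', smul_zero, zero_add, smul_eq_mul, mul_one]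
      have p4 : u 2 (y * D 0 y) = 0 := by
        rw [D01', mul_zero, map_zero]
      have p5 : u 3 (x * D 1 y) = d' ^ 2 * (x * y) := by
        rw [D11', mul_one, ux, hu30]
      rw [hu01, hu11, hu21, hu31, p1, p2, p3, p4, p5, map_zero, mul_zero, zero_sub, sub_zero, e1',
        neg_eq]
      have e4 : d ^ 2 * y ^ 2 + (a' ^ 2 + c' ^ 2 * y) + b' ^ 2 * x + y * (d ^ 2 * y)
          + d' ^ 2 * (x * y) = a' ^ 2 + x * b' ^ 2 + y * c' ^ 2 + x * (y * d' ^ 2)
            + (d ^ 2 * y ^ 2 + d ^ 2 * y ^ 2) := by ring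
      rw [e4, add_self, add_zero]

lemma split_k {k : ℕ} {n : ℤ} (hn : (k : ℤ) - 1 ≤ n) {r : L} (h : r ∈ F (n + k)) :
    ∃ s : Fin 2 → L, (∀ β, s β ∈ F n) ∧ r = ∑ β, (X β) ^ k * s β := by
  refine ⟨![divX k r, divY k k r], ?_, ?_⟩
  · intro β
    fin_cases β
    · exact divX_mem h
    · exact divY_mem h
  · rw [Fin.sum_univ_two]
    exact split_eq (mem_F_of_le (by omega) h)

lemma lie_smul_left {c : L} (w v : Der) (h : v c = 0) : ⁅c • w, v⁆ = c • ⁅w, v⁆ := by
  have := lie_smul_smul (c := c) (c' := 1) w v (Derivation.map_one_eq_zero w) h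
  rwa [one_smul, mul_one] at this

/-! ### The Newton step -/

lemma op_prod {ι : Type*} (l : List ι) (g : ι → RingAut L) (T : ι → Op) {m : ℕ} (hm : 1 ≤ m)
    (hg : ∀ i, g i ∈ Gam m) (h : ∀ i, op (g i) - 1 - T i ∈ O (m + 1)) :
    op (l.map g).prod - 1 - (l.map T).sum ∈ O (m + 1) := by
  induction l with
  | nil =>
    simp only [List.map_nil, List.prod_nil, List.sum_nil, map_one, sub_self, sub_zero]
    exact (O _).zero_mem
  | cons i l ih =>
    rw [List.map_cons, List.map_cons, List.prod_cons, List.sum_cons, map_mul]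
    have hp : (l.map g).prod ∈ Gam m := by
      apply (Gam m).list_prod_mem
      intro x hx
      obtain ⟨j, _, rfl⟩ := List.mem_map.mp hx
      exact hg j
    set p := (l.map g).prod
    have e : op (g i) * op p - 1 - (T i + (l.map T).sum)
        = (op (g i) - 1) * (op p - 1) + (op (g i) - 1 - T i) + (op p - 1 - (l.map T).sum) := by
      rw [sub_mul, mul_sub, mul_one, one_mul]; abel
    rw [e]
    exact (O _).add_mem ((O _).add_mem (O_anti (by omega) (O_mul (hg i).1 hp.1)) (h i)) ih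

/-- the derivation of a deep automorphism -/
lemma exists_der_of_mem_Gam {m : ℕ} {z : RingAut L} (hz : z ∈ Gam m) :
    ∃ v : Der, (∀ i, v (X i) ∈ F (m + 1)) ∧ op z - 1 - dop v ∈ O (2 * m) := by
  refine ⟨(z (X 0) - X 0) • D 0 + (z (X 1) - X 1) • D 1, ?_⟩
  have h : ∀ i, ((z (X 0) - X 0) • D 0 + (z (X 1) - X 1) • D 1 : Der) (X i) = z (X i) - X i := by
    intro i
    change (z (X 0) - X 0) * D 0 (X i) + (z (X 1) - X 1) * D 1 (X i) = z (X i) - X i
    fin_cases i
    · change (z (X 0) - X 0) * D 0 (X 0) + (z (X 1) - X 1) * D 1 (X 0) = z (X 0) - X 0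
      rw [D00, D10]; ring
    · change (z (X 0) - X 0) * D 0 (X 1) + (z (X 1) - X 1) * D 1 (X 1) = z (X 1) - X 1
      rw [D01, D11]; ring
  refine ⟨?_, ?_⟩
  · intro i
    rw [h]
    exact gen_of_mem_Gam hz i
  · apply taylor hz
    · intro i
      rw [h]
      exact gen_of_mem_Gam hz i
    · intro i
      rw [h]; ring

/-- index set -/
abbrev Idx : Type := Fin 2 × Fin 2 × Fin 4

/-- the square multipliers -/
noncomputable def ev (P M : ℕ) (β ν : Fin 2) : L := (X β) ^ P * (X ν) ^ M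

lemma ev_mem (P M : ℕ) (β ν : Fin 2) : ev P M β ν ∈ F (P + M) :=
  F_mul (X_pow_mem β P) (X_pow_mem ν M)

lemma der_ev {P M : ℕ} (hP : 2 ∣ P) (hM : 2 ∣ M) (β ν : Fin 2) (u : Der) : u (ev P M β ν) = 0 := by
  obtain ⟨p, rfl⟩ := hP
  obtain ⟨q, rfl⟩ := hM
  have : ev (2 * p) (2 * q) β ν = ((X β) ^ p * (X ν) ^ q) ^ 2 := by
    unfold ev; ring
  rw [this, der_sq]

/-- every deep derivation is a sum of 16 brackets -/
lemma decomp_full {P M m : ℕ} (hP : 2 ∣ P) (hM : 2 ∣ M) (hm : 2 * P + 2 * M ≤ m) (v : Der)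
    (hv : ∀ i, v (X i) ∈ F (m + 1)) :
    ∃ u : Idx → Der, (∀ p i, u p (X i) ∈ F ((m : ℤ) + 2 - P - M - al p.2.2)) ∧
      v = ∑ p : Idx, ⁅ev P M p.1 p.2.1 • wv p.2.2, u p⁆ := by
  have h1 : ∀ i, ∃ s : Fin 2 → L, (∀ β, s β ∈ F ((m : ℤ) + 1 - P)) ∧
      v (X i) = ∑ β, (X β) ^ P * s β := by
    intro i
    apply split_k (by omega)
    have := hv i
    rwa [show (m : ℤ) + 1 - P + P = m + 1 by ring]
  choose s hs hvs using h1
  have h2 : ∀ i β, ∃ t : Fin 2 → L, (∀ ν, t ν ∈ F ((m : ℤ) + 1 - P - M)) ∧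
      s i β = ∑ ν, (X ν) ^ M * t ν := by
    intro i β
    apply split_k (by omega)
    have := hs i β
    rwa [show (m : ℤ) + 1 - P - M + M = m + 1 - P by ring]
  choose t ht hst using h2
  have h3 : ∀ β ν, ∃ u : Fin 4 → Der, (∀ τ i, u τ (X i) ∈ F ((m : ℤ) + 2 - P - M - al τ)) ∧
      (t 0 β ν • D 0 + t 1 β ν • D 1 : Der) = ∑ τ, ⁅wv τ, u τ⁆ := by
    intro β ν
    obtain ⟨u, hu, e⟩ := decomp_der (q := (m : ℤ) + 1 - P - M) (t 0 β ν • D 0 + t 1 β ν • D 1) (by
      intro i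
      change t 0 β ν * D 0 (X i) + t 1 β ν * D 1 (X i) ∈ _
      exact (F _).add_mem ((F _).mul_mem_right _ (ht 0 β ν)) ((F _).mul_mem_right _ (ht 1 β ν)))
    refine ⟨u, ?_, e⟩
    intro τ i
    have := hu τ i
    exact mem_F_of_le (by omega) this
  choose u hu e using h3
  refine ⟨fun p => u p.1 p.2.1 p.2.2, fun p i => hu p.1 p.2.1 p.2.2 i, ?_⟩
  have h4 : ∀ β ν, ∑ τ, ⁅ev P M β ν • wv τ, u β ν τ⁆ = ev P M β ν • (t 0 β ν • D 0 + t 1 β ν • D 1 : Der) := by
    intro β ν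
    rw [e, Finset.smul_sum]
    apply Finset.sum_congr rfl
    intro τ _
    exact lie_smul_left _ _ (der_ev hP hM β ν _)
  rw [Fintype.sum_prod_type]
  have h5 : ∀ β : Fin 2, ∑ q : Fin 2 × Fin 4, ⁅ev P M β q.1 • wv q.2, u β q.1 q.2⁆
      = ∑ ν : Fin 2, ev P M β ν • (t 0 β ν • D 0 + t 1 β ν • D 1 : Der) := by
    intro β
    rw [Fintype.sum_prod_type]
    apply Finset.sum_congr rfl
    intro ν _
    exact h4 β ν
  have h6 : ∀ i : Fin 2, v (X i) = ∑ β : Fin 2, ∑ ν : Fin 2, ev P M β ν * t i β ν := by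
    intro i
    rw [hvs]
    apply Finset.sum_congr rfl
    intro β _
    rw [hst, Finset.mul_sum]
    apply Finset.sum_congr rfl
    intro ν _
    unfold ev
    ring
  calc v = v (X 0) • D 0 + v (X 1) • D 1 := der_eq v
    _ = ∑ β : Fin 2, ∑ ν : Fin 2, ev P M β ν • (t 0 β ν • D 0 + t 1 β ν • D 1 : Der) := by
        rw [h6, h6, Finset.sum_smul, Finset.sum_smul, ← Finset.sum_add_distrib]
        apply Finset.sum_congr rfl
        intro β _
        rw [Finset.sum_smul, Finset.sum_smul, ← Finset.sum_add_distrib]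
        apply Finset.sum_congr rfl
        intro ν _
        rw [smul_add, smul_smul, smul_smul]
    _ = _ := by
        apply Finset.sum_congr rfl
        intro β _
        exact (h5 β).symm

lemma dop_sum {ι : Type*} (l : List ι) (f : ι → Der) :
    dop (l.map f).sum = (l.map (fun i => dop (f i))).sum := by
  induction l with
  | nil => simp
  | cons i l ih => rw [List.map_cons, List.map_cons, List.sum_cons, List.sum_cons, map_add, ih]

lemma newton_step {P M : ℕ} (hP : 2 ∣ P) (hP1 : 2 ≤ P) (hM : 2 ∣ M) (h : Idx → RingAut L)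
    (hh : ∀ p : Idx, op (h p) - 1 - dop (ev P M p.1 p.2.1 • wv p.2.2) ∈ O (P + M + 1))
    {m : ℕ} (hm : 2 * P + 2 * M + 2 ≤ m) {z : RingAut L} (hz : z ∈ Gam m) :
    ∃ y : Idx → RingAut L, (∀ p, y p ∈ Gam (m - (P + M))) ∧ (∀ p, cm (h p) (y p) ∈ Gam m) ∧
      z⁻¹ * ((univ : Finset Idx).toList.map (fun p => cm (h p) (y p))).prod ∈ Gam (m + 1) := by
  obtain ⟨v, hv, hvt⟩ := exists_der_of_mem_Gam hz
  obtain ⟨u, hu, huv⟩ := decomp_full hP hM (by omega) v hv
  have hal : ∀ p : Idx, al p.2.2 ≤ 1 := fun p => al_le _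
  -- the depths
  set A : Idx → ℕ := fun p => P + M - 1 + al p.2.2 with hA
  set B : Idx → ℕ := fun p => m - A p with hB
  have hAB : ∀ p, A p + B p = m := by
    intro p
    have := hal p
    simp only [hB, hA]
    omega
  have hA' : ∀ p, (A p : ℤ) = P + M - 1 + al p.2.2 := by
    intro p
    simp only [hA]
    push_cast
    omega
  have hy : ∀ p, ∃ y ∈ Gam (B p), op y - 1 - dop (u p) ∈ O (2 * B p) := by
    intro p
    have h0 := hal p
    have h1 := hAB p
    have h2 := hA' p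
    apply exists_taylor
    · simp only [hB, hA]; omega
    · intro i
      exact mem_F_of_le (by omega) (hu p i)
  choose y hy hyt using hy
  have hδ : ∀ p : Idx, dop (ev P M p.1 p.2.1 • wv p.2.2) ∈ O (A p) := by
    intro p
    rw [dop_smul]
    have := O_mul (mu_mem (ev_mem P M p.1 p.2.1)) (wv_mem p.2.2)
    exact O_anti (by rw [hA']; omega) this
  have hε : ∀ p : Idx, dop (u p) ∈ O (B p) := by
    intro p
    have := der_mem_O (hu p)
    have h1 := hAB p
    have h2 := hA' p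
    exact O_anti (by omega) this
  have hhA : ∀ p : Idx, h p ∈ Gam (A p) := by
    intro p
    have h0 := hal p
    have h2 := hA' p
    apply mem_Gam_of_op (by omega)
    have e : op (h p) - 1 = (op (h p) - 1 - dop (ev P M p.1 p.2.1 • wv p.2.2))
        + dop (ev P M p.1 p.2.1 • wv p.2.2) := by abel
    rw [e]
    exact (O _).add_mem (O_anti (by omega) (hh p)) (hδ p)
  have hcm : ∀ p, op (cm (h p) (y p)) - 1 - dop ⁅ev P M p.1 p.2.1 • wv p.2.2, u p⁆ ∈ O (m + 1) := by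
    intro p
    have h0 := hal p
    have h1 := hAB p
    have h2 := hA' p
    have key := comm_deep (c := 1) (hhA p) (hy p) (hδ p) (hε p) (O_anti (by omega) (hh p))
      (O_anti (by omega) (hyt p)) (by omega) (by omega) (by norm_num)
    exact O_anti (by omega) key
  have hcmG : ∀ p, cm (h p) (y p) ∈ Gam m := by
    intro p
    have h1 := hAB p
    have := cm_mem_Gam (by omega) (hhA p) (hy p)
    rwa [h1] at this
  refine ⟨y, ?_, hcmG, ?_⟩
  · intro p
    have h0 := hal p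
    have h1 := hAB p
    have h2 := hA' p
    exact Gam_anti (by omega) (hy p)
  · set l := (univ : Finset Idx).toList with hl
    have h1 := op_prod l (fun p => cm (h p) (y p))
      (fun p => dop ⁅ev P M p.1 p.2.1 • wv p.2.2, u p⁆) (m := m) (by omega) hcmG hcm
    rw [← dop_sum, hl, Finset.sum_map_toList, ← huv, ← hl] at h1
    set q := (l.map (fun p => cm (h p) (y p))).prod with hq
    have h2 : op q - op z ∈ O (m + 1) := by
      have e : op q - op z = (op q - 1 - dop v) - (op z - 1 - dop v) := by abel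
      rw [e]
      exact (O _).sub_mem h1 (O_anti (by omega) hvt)
    apply mem_Gam_of_op (by omega)
    have e : op (z⁻¹ * q) - 1 = op z⁻¹ * (op q - op z) := by
      rw [map_mul, mul_sub, op_inv_mul]
    rw [e]
    have h3 := O_mul (op_mem_O_zero ((Gam m).inv_mem hz)) h2
    push_cast
    simpa using h3

/-- **Key theorem**: a nontrivial subgroup normalized by `Gam k` contains some `Gam M`. -/
theorem KT {k : ℕ} (hk : 1 ≤ k) {N : Subgroup (RingAut L)} (hN : NormalIn k N)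
    {f : RingAut L} (hf : f ∈ N) (hf1 : f ≠ 1) : ∃ M, Gam M ≤ N := by
  obtain ⟨M0, hM0⟩ := W_big hk hN hf hf1
  set M := 2 * (M0 + 1) with hM
  have hW : ∀ (ν : Fin 2) (τ : Fin 4), (X ν : L) ^ M • wv τ ∈ W N := fun ν τ =>
    hM0 M (by omega) ν (wv τ)
  have hW2 : ∀ (q : Fin 2 × Fin 4), ∃ s0 : ℕ, ∀ s, s0 ≤ s → ∀ o : ℕ, 1 ≤ o → ∀ b ∈ F o, ∃ h ∈ N,
      op h - 1 - dop (b ^ (2 ^ s) • ((X q.1 : L) ^ M • wv q.2)) ∈ O (2 ^ s * o + (M + 1 : ℕ)) :=
    fun q => hW q.1 q.2 (M + 1)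
  choose s0 hs0 using hW2
  set s := (univ : Finset (Fin 2 × Fin 4)).sup s0 + 1 with hs
  have hsle : ∀ q, s0 q ≤ s := by
    intro q
    have := Finset.le_sup (f := s0) (Finset.mem_univ q)
    omega
  have hex : ∀ p : Idx, ∃ h ∈ N,
      op h - 1 - dop (ev (2 ^ s) M p.1 p.2.1 • wv p.2.2) ∈ O (((2 ^ s : ℕ) : ℤ) + M + 1) := by
    intro p
    obtain ⟨h, hh, e⟩ := hs0 p.2 s (hsle _) 1 le_rfl (X p.1) (by exact_mod_cast X_mem p.1)
    refine ⟨h, hh, ?_⟩
    rw [smul_smul] at e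
    exact O_anti (by push_cast; omega) e
  choose h hhN hh using hex
  have hP : 2 ∣ 2 ^ s := dvd_pow_self 2 (by omega)
  have hP1 : 2 ≤ 2 ^ s := Nat.le_of_dvd (by positivity) hP
  have hM2 : 2 ∣ M := ⟨M0 + 1, hM⟩
  set P := 2 ^ s with hPdef
  refine ⟨2 * P + 2 * M + 2 + k, ?_⟩
  intro z hz
  have hz1 : z ∈ Gam 1 := Gam_anti (by omega) hz
  have hk1 : Gam k ≤ Gam 1 := Gam_anti hk
  obtain ⟨Y, hY, e⟩ := newton_abs Gs_filt (univ : Finset Idx).toList
    (fun p => (⟨h p, hk1 (hN.le (hhN p))⟩ : G1)) (P + M) (2 * P + 2 * M + 2) (by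
      intro m hm z hz
      obtain ⟨y, hy1, hy2, hy3⟩ := newton_step hP hP1 hM2 h hh hm hz
      have hy0 : ∀ p, y p ∈ Gam 1 := fun p => Gam_anti (by omega) (hy1 p)
      refine ⟨fun p => ⟨y p, hy0 p⟩, hy1, hy2, ?_⟩
      change ((z⁻¹ * (((univ : Finset Idx).toList).map (fun i => cg (⟨h i, hk1 (hN.le (hhN i))⟩ : G1)
        ⟨y i, hy0 i⟩)).prod : G1) : RingAut L) ∈ Gam (m + 1)
      have e1 : ((((univ : Finset Idx).toList).map (fun i => cg (⟨h i, hk1 (hN.le (hhN i))⟩ : G1)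
        ⟨y i, hy0 i⟩)).prod : G1) = (((univ : Finset Idx).toList).map (fun p => cm (h p) (y p))).prod := by
        rw [Subgroup.val_list_prod, List.map_map]
        rfl
      rw [Subgroup.coe_mul, e1]
      exact hy3) (m := 2 * P + 2 * M + 2 + k) (by omega) (z := (⟨z, hz1⟩ : G1)) hz
  have e2 : z = (((univ : Finset Idx).toList).map (fun p => cm (h p) (Y p : RingAut L))).prod := by
    have e3 := congrArg (fun t : G1 => (t : RingAut L)) e
    simp only [Subgroup.val_list_prod, List.map_map] at e3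
    exact e3
  rw [e2]
  apply N.list_prod_mem
  intro x hx
  obtain ⟨p, _, rfl⟩ := List.mem_map.mp hx
  exact hN.comm_mem (hhN p) (Gam_anti (by omega) (hY p))

end Pool.Agent.Helper48.HJI
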