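import Mathlib
import Pool.Agent.Helper48.HJI.Newton
import Pool.Agent.Helper48.HJI.Defs

set_option autoImplicit false

namespace Pool.Agent.Helper48.HJI

open MvPowerSeries Finset

/-! ### Elementary automorphisms `x ↦ x`, `y ↦ y + b` -/

lemma exists_elem {k : ℕ} (hk : 1 ≤ k) {b : L} (hb : b ∈ F (k + 1)) :
    ∃ g ∈ Gam k, g (X 0) = X 0 ∧ g (X 1) = X 1 + b := by
  obtain ⟨g, hg, hgX⟩ := exists_mem_Gam hk (![0, b]) (by
    intro i
    fin_cases i
    · exact (F _).zero_mem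
    · exact hb)
  refine ⟨g, hg, ?_, ?_⟩
  · rw [hgX]; simp
  · rw [hgX]; simp

/-- the automorphism `x ↦ x`, `y ↦ y + x^(j+1)`, `j ≥ 1`. -/
lemma exists_e {j : ℕ} (hj : 1 ≤ j) : ∃ g ∈ Gam j, g (X 0) = X 0 ∧ g (X 1) = X 1 + (X 0) ^ (j + 1) :=
  exists_elem hj (by
    have := X_pow_mem 0 (j + 1)
    push_cast at this
    exact this)

lemma X_pow_ne_zero (i : Fin 2) (n : ℕ) : (X i : L) ^ n ≠ 0 := by
  intro h
  have h1 := congrArg (coeff (Finsupp.single i n)) h
  rw [coeff_X_pow, if_pos rfl, map_zero] at h1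
  exact one_ne_zero h1

lemma X_pow_inj (i : Fin 2) {n m : ℕ} (h : (X i : L) ^ n = (X i) ^ m) : n = m := by
  have h1 := congrArg (coeff (Finsupp.single i n)) h
  rw [coeff_X_pow, if_pos rfl, coeff_X_pow] at h1
  by_contra hne
  rw [if_neg] at h1
  · exact one_ne_zero h1
  · intro h2
    have h3 := congrArg (fun f : Fin 2 →₀ ℕ => f i) h2
    simp only [Finsupp.single_eq_same] at h3
    exact hne h3

/-- `G1` is infinite -/
lemma infinite_G1 : Infinite G1 := by
  have h : ∀ j : ℕ, ∃ g : G1, (g : RingAut L) (X 1) = X 1 + (X 0) ^ (j + 2) := by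
    intro j
    obtain ⟨g, hg, _, h2⟩ := exists_e (j := j + 1) (by omega)
    exact ⟨⟨g, Gam_anti (by omega) hg⟩, h2⟩
  choose e he using h
  apply Infinite.of_injective e
  intro a b hab
  have h1 := he a
  rw [hab, he b] at h1
  have h2 := X_pow_inj 0 (add_left_cancel h1)
  omega

/-! ### Congruence subgroups have finite index -/

lemma finite_quotient_Gs (n : ℕ) : Finite (G1 ⧸ Gs n) := by
  classical
  let Φ : G1 → (Fin 2 → Fin (n + 1) × Fin (n + 1) → ZMod 2) := fun g i p =>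
    coeff (Finsupp.single 0 (p.1 : ℕ) + Finsupp.single 1 (p.2 : ℕ)) ((g : RingAut L) (X i))
  have hΦ : ∀ g h : G1, Φ g = Φ h → g⁻¹ * h ∈ Gs n := by
    intro g h hgh
    by_cases hn : 1 ≤ n
    · change ((g : RingAut L)⁻¹ * (h : RingAut L)) ∈ Gam n
      apply mem_Gam_of_gen hn
      intro i
      have e : ((g : RingAut L)⁻¹ * (h : RingAut L)) (X i) - X i
          = op (g : RingAut L)⁻¹ ((h : RingAut L) (X i) - (g : RingAut L) (X i)) := by
        rw [map_sub, op_apply, op_apply]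
        congr 1
        rw [aut_inv_apply']
      rw [e]
      have h1 : (h : RingAut L) (X i) - (g : RingAut L) (X i) ∈ F (n + 1) := by
        intro d hd
        rw [map_sub, sub_eq_zero]
        have hd2 := degree_fin2 d
        have h2 := congrFun (congrFun hgh i) (⟨d 0, by omega⟩, ⟨d 1, by omega⟩)
        have hd3 : Finsupp.single 0 (d 0) + Finsupp.single 1 (d 1) = d := by
          ext t
          rw [Finsupp.add_apply]
          fin_cases t
          · change (Finsupp.single 0 (d 0) : Fin 2 →₀ ℕ) 0 + (Finsupp.single 1 (d 1) : Fin 2 →₀ ℕ) 0 = d 0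
            rw [Finsupp.single_eq_same, Finsupp.single_eq_of_ne (by decide), add_zero]
          · change (Finsupp.single 0 (d 0) : Fin 2 →₀ ℕ) 1 + (Finsupp.single 1 (d 1) : Fin 2 →₀ ℕ) 1 = d 1
            rw [Finsupp.single_eq_same, Finsupp.single_eq_of_ne (by decide), zero_add]
        simp only [Φ, hd3] at h2
        exact h2.symm
      have h3 := (op_mem_O_zero ((Gam 1).inv_mem g.2)) _ _ h1
      rwa [add_zero] at h3
    · have h0 : n = 0 := by omega
      subst h0
      change ((g : RingAut L)⁻¹ * (h : RingAut L)) ∈ Gam 0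
      exact Gam_anti (Nat.zero_le 1) ((Gam 1).mul_mem ((Gam 1).inv_mem g.2) h.2)
  apply Finite.of_injective (fun q : G1 ⧸ Gs n => Φ q.out)
  intro q q' hqq
  have h1 := hΦ _ _ hqq
  rw [← QuotientGroup.eq] at h1
  rw [← q.out_eq', ← q'.out_eq']
  exact h1

lemma finiteIndex_Gs (n : ℕ) : (Gs n).FiniteIndex := by
  have := finite_quotient_Gs n
  exact Subgroup.finiteIndex_of_finite_quotient

/-- `G1` is residually finite -/
theorem residuallyFinite_G1 : IsResiduallyFinite G1 := by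
  unfold IsResiduallyFinite
  rw [eq_bot_iff]
  intro g hg
  rw [Subgroup.mem_bot]
  apply Gs_filt.sep
  intro n
  rw [Subgroup.mem_sInf] at hg
  exact hg (Gs n) ⟨Gs_filt.normal n, finiteIndex_Gs n⟩

/-! ### Hereditarily just infinite -/

/-- non-commuting deep elements -/
lemma exists_not_comm (K : ℕ) : ∃ g ∈ Gam K, ∃ h ∈ Gam K, g * h ≠ h * g := by
  have h1 : K + 1 < 2 ^ (K + 1) := Nat.lt_two_pow_self
  obtain ⟨n, hn⟩ : ∃ n, 2 ^ (K + 1) = n + 1 := ⟨2 ^ (K + 1) - 1, by omega⟩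
  obtain ⟨g, hg, hg0, hg1⟩ := exists_elem (k := n) (b := (X 0) ^ (n + 1)) (by omega) (by
    have := X_pow_mem 0 (n + 1)
    push_cast at this
    exact this)
  obtain ⟨h, hh, hh0, hh1⟩ := exists_elem (k := n) (b := (X 1) ^ (n + 1)) (by omega) (by
    have := X_pow_mem 1 (n + 1)
    push_cast at this
    exact this)
  refine ⟨g, Gam_anti (by omega) hg, h, Gam_anti (by omega) hh, ?_⟩
  intro e
  have e1 := congrArg (fun f : RingAut L => f (X 1)) e
  change g (h (X 1)) = h (g (X 1)) at e1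
  rw [hh1, hg1, map_add, map_add, map_pow, map_pow, hg1, hh1, hh0, ← hn, add_pow_char_pow] at e1
  have e2 : ((X 0 : L) ^ (2 ^ (K + 1))) ^ (2 ^ (K + 1)) = 0 := by
    have e3 : X 1 + (X 0 : L) ^ (2 ^ (K + 1)) + ((X 1) ^ (2 ^ (K + 1)) + ((X 0) ^ (2 ^ (K + 1))) ^ (2 ^ (K + 1)))
      = (X 1 + (X 1) ^ (2 ^ (K + 1)) + (X 0 : L) ^ (2 ^ (K + 1))) + ((X 0) ^ (2 ^ (K + 1))) ^ (2 ^ (K + 1)) := by
      ring
    rw [e3] at e1
    exact left_eq_add.mp e1.symm
  rw [← pow_mul] at e2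
  exact X_pow_ne_zero 0 _ e2

/-- a normal subgroup of `G1` gives a `NormalIn 1` subgroup of `RingAut L` -/
lemma normalIn_map {N : Subgroup G1} (hN : N.Normal) : NormalIn 1 (N.map (Gam 1).subtype) where
  le := by
    rintro _ ⟨g, _, rfl⟩
    exact g.2
  conj := by
    rintro g hg _ ⟨h, hh, rfl⟩
    exact ⟨⟨g, hg⟩ * h * ⟨g, hg⟩⁻¹, hN.conj_mem h hh ⟨g, hg⟩, rfl⟩

lemma KT_G1 {N : Subgroup G1} (hN : N.Normal) (hne : N ≠ ⊥) : ∃ M, Gs M ≤ N := by
  obtain ⟨⟨f, hf⟩, hf1'⟩ := Subgroup.ne_bot_iff_exists_ne_one.mp hne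
  have hf1 : f ≠ 1 := fun h => hf1' (Subtype.ext h)
  obtain ⟨M, hM⟩ := KT le_rfl (normalIn_map hN) (f := (f : RingAut L)) ⟨f, hf, rfl⟩
    (fun h => hf1 (Subtype.ext h))
  refine ⟨M, ?_⟩
  intro g hg
  obtain ⟨g', hg', e⟩ := hM hg
  have : g' = g := Subtype.ext e
  rw [← this]
  exact hg'

lemma finiteIndex_of_Gs_le {H : Subgroup G1} {M : ℕ} (h : Gs M ≤ H) : H.FiniteIndex := by
  have := finiteIndex_Gs M
  exact Subgroup.finiteIndex_of_le h

lemma exists_Gs_le {H : Subgroup G1} (hH : H.FiniteIndex) : ∃ M, 1 ≤ M ∧ Gs M ≤ H := by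
  have h1 : H.normalCore.FiniteIndex := Subgroup.finiteIndex_normalCore H
  have h2 : H.normalCore ≠ ⊥ := by
    intro h
    rw [h] at h1
    have h3 : Finite G1 := (Subgroup.finite_iff_finite_and_finiteIndex (H := ⊥)).mpr ⟨inferInstance, h1⟩
    exact (infinite_G1).not_finite h3
  obtain ⟨M, hM⟩ := KT_G1 (Subgroup.normalCore_normal H) h2
  exact ⟨M + 1, by omega, (Gs_filt.anti (by omega)).trans (hM.trans (Subgroup.normalCore_le H))⟩

theorem hji_G1 : HereditarilyJustInfinite G1 := by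
  intro H hH
  constructor
  · by_contra hcon
    rw [not_infinite_iff_finite] at hcon
    have := infinite_G1
    have h3 : Finite G1 := (Subgroup.finite_iff_finite_and_finiteIndex (H := H)).mpr ⟨hcon, hH⟩
    exact (infinite_G1).not_finite h3
  · intro J hJ hne
    obtain ⟨M, hM1, hM⟩ := exists_Gs_le hH
    -- the image of J in G1
    suffices hs : ∃ M', ∀ g : G1, g ∈ Gs M' → ∃ hg : g ∈ H, (⟨g, hg⟩ : H) ∈ J by
      obtain ⟨M', hM'⟩ := hs
      have h1 : ((Gs M').subgroupOf H).FiniteIndex := by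
        have := finiteIndex_Gs M'
        infer_instance
      have := h1
      apply Subgroup.finiteIndex_of_le (H := (Gs M').subgroupOf H)
      intro g hg
      obtain ⟨h2, h3⟩ := hM' g.1 hg
      exact h3
    -- N' = J ∩ Gam M as a subgroup of RingAut L
    let N' : Subgroup (RingAut L) := ((J.map H.subtype).map (Gam 1).subtype) ⊓ Gam M
    have hmem : ∀ g : RingAut L, g ∈ N' ↔ g ∈ Gam M ∧ ∃ h1 : g ∈ Gam 1, ∃ h2 : (⟨g, h1⟩ : G1) ∈ H,
        (⟨⟨g, h1⟩, h2⟩ : H) ∈ J := by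
      intro g
      constructor
      · rintro ⟨⟨_, ⟨j, hj, rfl⟩, rfl⟩, hg2⟩
        exact ⟨hg2, j.1.2, j.2, hj⟩
      · rintro ⟨hg, h1, h2, h3⟩
        exact ⟨⟨_, ⟨_, h3, rfl⟩, rfl⟩, hg⟩
    have hMH : ∀ g : RingAut L, g ∈ Gam M → ∀ h1 : g ∈ Gam 1, (⟨g, h1⟩ : G1) ∈ H := by
      intro g hg h1
      exact hM hg
    have hMle : Gam M ≤ Gam 1 := Gam_anti hM1
    have hN' : NormalIn M N' := by
      refine ⟨inf_le_right, ?_⟩
      intro g hg h hh
      rw [hmem] at hh ⊢
      obtain ⟨hh1, h1, h2, h3⟩ := hh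
      have hg1 := hMle hg
      refine ⟨(Gam M).mul_mem ((Gam M).mul_mem hg hh1) ((Gam M).inv_mem hg), (Gam 1).mul_mem ((Gam 1).mul_mem hg1 h1) ((Gam 1).inv_mem hg1), ?_⟩
      refine ⟨hMH _ ((Gam M).mul_mem ((Gam M).mul_mem hg hh1) ((Gam M).inv_mem hg)) _, ?_⟩
      exact hJ.conj_mem _ h3 ⟨⟨g, hg1⟩, hMH g hg hg1⟩
    by_cases hbot : ∃ f ∈ N', f ≠ 1
    · obtain ⟨f, hf, hf1⟩ := hbot
      obtain ⟨M', hM'⟩ := KT hM1 hN' hf hf1
      refine ⟨M', ?_⟩
      intro g hg
      have h1 : (g : RingAut L) ∈ N' := hM' hg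
      rw [hmem] at h1
      obtain ⟨_, h2, h3, h4⟩ := h1
      exact ⟨h3, h4⟩
    · exfalso
      push Not at hbot
      obtain ⟨j, hj⟩ := Subgroup.ne_bot_iff_exists_ne_one.mp hne
      -- j centralizes Gam M
      have hcen : ∀ g : RingAut L, g ∈ Gam M → (j.1.1 : RingAut L) * g = g * j.1.1 := by
        intro g hg
        have hg1 := hMle hg
        have h1 : cm (j.1.1 : RingAut L) g ∈ N' := by
          rw [hmem]
          have hc : cm (j.1.1 : RingAut L) g ∈ Gam M := by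
            rw [cm_def]
            exact (Gam M).mul_mem (conj_mem_Gam j.1.1.2 hg) ((Gam M).inv_mem hg)
          refine ⟨hc, hMle hc, hMH _ hc _, ?_⟩
          have h2 := J.mul_mem j.2 (hJ.conj_mem _ (J.inv_mem j.2) ⟨⟨g, hg1⟩, hMH g hg hg1⟩)
          have e : (⟨⟨cm (j.1.1 : RingAut L) g, hMle hc⟩, hMH _ hc _⟩ : H)
              = j.1 * (⟨⟨g, hg1⟩, hMH g hg hg1⟩ * j.1⁻¹ * (⟨⟨g, hg1⟩, hMH g hg hg1⟩ : H)⁻¹) := by
            apply Subtype.ext
            apply Subtype.ext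
            change cm (j.1.1 : RingAut L) g = (j.1.1 : RingAut L) * (g * (j.1.1 : RingAut L)⁻¹ * g⁻¹)
            rw [cm_def]
            group
          rw [e]
          exact h2
        have h2 := hbot _ h1
        rw [cm_def, mul_inv_eq_one, mul_inv_eq_iff_eq_mul] at h2
        exact h2
      -- the centralizer
      let C : Subgroup G1 := Subgroup.centralizer (Gs M : Set G1)
      have hC : C.Normal := by
        have := Gs_filt.normal M
        infer_instance
      have hCne : C ≠ ⊥ := by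
        intro h
        have h1 : j.1.1 ∈ C := by
          rw [Subgroup.mem_centralizer_iff]
          intro g hg
          apply Subtype.ext
          exact (hcen g hg).symm
        rw [h, Subgroup.mem_bot] at h1
        apply hj
        apply Subtype.ext
        apply Subtype.ext
        exact h1
      obtain ⟨M'', hM''⟩ := KT_G1 hC hCne
      obtain ⟨g, hg, h, hh, hgh⟩ := exists_not_comm (max M M'')
      have hg1 : g ∈ Gam 1 := Gam_anti (by omega) hg
      have hh1 : h ∈ Gam 1 := Gam_anti (by omega) hh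
      have h1 : (⟨h, hh1⟩ : G1) ∈ C := hM'' (Gam_anti (le_max_right _ _) hh)
      rw [Subgroup.mem_centralizer_iff] at h1
      have h2 := h1 ⟨g, hg1⟩ (Gam_anti (le_max_left _ _) hg)
      exact hgh (congrArg Subtype.val h2)

end Pool.Agent.Helper48.HJI
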