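import Mathlib
import Pool.Agent.Helper48.HJI.JI

set_option autoImplicit false

namespace Pool.Agent.Helper48.HJI

/-! ### Self-similar actions from virtual endomorphisms -/

section General

variable {G : Type} [Group G] (H : Subgroup G) (φ : H →* G)

/-- the cocycle -/
noncomputable def coc (g : G) (x : G ⧸ H) : H :=
  ⟨((g • x).out : G)⁻¹ * g * x.out, by
    rw [mul_assoc, ← QuotientGroup.eq]
    rw [QuotientGroup.out_eq']
    conv_lhs => rw [← QuotientGroup.out_eq' x]
    rfl⟩

lemma coc_val (g : G) (x : G ⧸ H) : (coc H g x : G) = ((g • x).out : G)⁻¹ * g * x.out := rfl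

lemma coc_one (x : G ⧸ H) : coc H 1 x = 1 := by
  apply Subtype.ext
  rw [coc_val, one_smul, mul_one, inv_mul_cancel]
  rfl

lemma coc_mul (g h : G) (x : G ⧸ H) : coc H (g * h) x = coc H g (h • x) * coc H h x := by
  apply Subtype.ext
  rw [Subgroup.coe_mul, coc_val, coc_val, coc_val, mul_smul]
  group

/-- the action on words -/
noncomputable def wact (g : G) : List (G ⧸ H) → List (G ⧸ H)
  | [] => []
  | x :: w => (g • x) :: wact (φ (coc H g x)) w

lemma wact_nil (g : G) : wact H φ g [] = [] := by
  rw [wact]

lemma wact_cons (g : G) (x : G ⧸ H) (w : List (G ⧸ H)) :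
    wact H φ g (x :: w) = (g • x) :: wact H φ (φ (coc H g x)) w := by
  rw [wact]

lemma wact_one (w : List (G ⧸ H)) : wact H φ 1 w = w := by
  induction w with
  | nil => exact wact_nil H φ 1
  | cons x w ih => rw [wact_cons, one_smul, coc_one, map_one, ih]

lemma wact_mul (w : List (G ⧸ H)) : ∀ g h : G, wact H φ (g * h) w = wact H φ g (wact H φ h w) := by
  induction w with
  | nil => intro g h; rw [wact_nil, wact_nil, wact_nil]
  | cons x w ih =>
    intro g h
    rw [wact_cons, wact_cons, wact_cons, mul_smul, coc_mul, map_mul, ih]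

/-- the action as a `MulAction` -/
@[reducible] noncomputable def wordAction : MulAction G (List (G ⧸ H)) where
  smul := wact H φ
  one_smul := wact_one H φ
  mul_smul := fun g h w => wact_mul H φ w g h

/-- A virtual endomorphism with trivial core gives a self-similar action. -/
theorem selfSimilar_of_virtual_endo (hfin : H.FiniteIndex) (hH : H ≠ ⊤)
    (core : ∀ K : Subgroup G, K.Normal → ∀ hK : K ≤ H, (∀ k (hk : k ∈ K), φ ⟨k, hK hk⟩ ∈ K) → K = ⊥) :
    AdmitsSelfSimilarAction G := by
  classical
  letI : Fintype (G ⧸ H) := Fintype.ofFinite _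
  refine ⟨G ⧸ H, inferInstance, wordAction H φ, ?_, ?_, ?_⟩
  · rw [← Nat.card_eq_fintype_card]
    change 2 ≤ H.index
    have h1 : H.index ≠ 0 := hfin.index_ne_zero
    have h2 : H.index ≠ 1 := fun h => hH (Subgroup.index_eq_one.mp h)
    omega
  · letI := wordAction H φ
    have hsmul : ∀ (g : G) (w : List (G ⧸ H)), g • w = wact H φ g w := fun _ _ => rfl
    let K : Subgroup G :=
      { carrier := {g | ∀ w, wact H φ g w = w}
        mul_mem' := by
          intro a b ha hb w
          rw [wact_mul, hb, ha]
        one_mem' := wact_one H φ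
        inv_mem' := by
          intro a ha w
          have := wact_mul H φ w a⁻¹ a
          rw [inv_mul_cancel, wact_one, ha] at this
          exact this.symm }
    have hKmem : ∀ g, g ∈ K ↔ ∀ w, wact H φ g w = w := fun _ => Iff.rfl
    have hKn : K.Normal := by
      refine ⟨fun k hk g => ?_⟩
      rw [hKmem] at hk ⊢
      intro w
      rw [wact_mul, wact_mul, hk, ← wact_mul, mul_inv_cancel, wact_one]
    have hKH : K ≤ H := by
      intro k hk
      have h1 := hk [((1 : G) : G ⧸ H)]
      rw [wact_cons, List.cons.injEq] at h1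
      have h2 : ((k * 1 : G) : G ⧸ H) = ((1 : G) : G ⧸ H) := h1.1
      rw [mul_one, eq_comm, QuotientGroup.eq, inv_one, one_mul] at h2
      exact h2
    have hKφ : ∀ k (hk : k ∈ K), φ ⟨k, hKH hk⟩ ∈ K := by
      intro k hk
      set x : G ⧸ H := ((1 : G) : G ⧸ H) with hx
      set t : G := x.out with ht
      have hk2 : t * k * t⁻¹ ∈ K := hKn.conj_mem k hk t
      rw [hKmem]
      intro w
      have h1 := hk2 (x :: w)
      rw [wact_cons, List.cons.injEq] at h1
      have h3 : coc H (t * k * t⁻¹) x = ⟨k, hKH hk⟩ := by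
        apply Subtype.ext
        rw [coc_val, h1.1, ← ht]
        group
      rw [h3] at h1
      exact h1.2
    have hKbot := core K hKn hKH hKφ
    refine ⟨?_⟩
    intro g₁ g₂ h
    have h1 : g₁⁻¹ * g₂ ∈ K := by
      rw [hKmem]
      intro w
      rw [wact_mul]
      have h2 := h w
      rw [hsmul, hsmul] at h2
      rw [← h2, ← wact_mul, inv_mul_cancel, wact_one]
    rw [hKbot, Subgroup.mem_bot, inv_mul_eq_one] at h1
    exact h1
  · intro g x
    exact ⟨g • x, φ (coc H g x), fun w => wact_cons H φ g x w⟩

end General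

end Pool.Agent.Helper48.HJI
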