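import Mathlib
import Pool.Agent.Helper48.HJI.SelfSim

set_option autoImplicit false

namespace Pool.Agent.Helper48.HJI

open MvPowerSeries Finset

/-! ### The virtual endomorphism of `G1` -/

lemma hasSubst_psi : HasSubst (![X 0, X 0 * X 1] : Fin 2 → L) := by
  apply hasSubst_of_constantCoeff_zero
  intro i
  fin_cases i
  · exact constantCoeff_X (R := ZMod 2) (0 : Fin 2)
  · change constantCoeff (X 0 * X 1 : L) = 0
    rw [map_mul, constantCoeff_X, zero_mul]

/-- the endomorphism `x ↦ x`, `y ↦ x y` -/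
noncomputable def psi : L →+* L := (substAlgHom (R := ZMod 2) hasSubst_psi : L →ₐ[ZMod 2] L).toRingHom

lemma psi_X0 : psi (X 0) = X 0 := substAlgHom_X hasSubst_psi 0

lemma psi_X1 : psi (X 1) = X 0 * X 1 := substAlgHom_X hasSubst_psi 1

lemma psi_F (n : ℕ) : ∀ r ∈ F n, ∃ s, psi r = (X 0) ^ n * s := by
  induction n with
  | zero => intro r _; exact ⟨psi r, by rw [pow_zero, one_mul]⟩
  | succ n ih =>
    intro r hr
    obtain ⟨r₁, h₁, r₂, h₂, e⟩ := split_one (n := n) (by omega) (by push_cast at hr; exact hr)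
    obtain ⟨s₁, e₁⟩ := ih r₁ h₁
    obtain ⟨s₂, e₂⟩ := ih r₂ h₂
    refine ⟨s₁ + X 1 * s₂, ?_⟩
    rw [e, map_add, map_mul, map_mul, psi_X0, psi_X1, e₁, e₂, pow_succ]
    ring

lemma psi_mem (i : Fin 2) : psi (X i) ∈ F 1 := by
  fin_cases i
  · change psi (X 0) ∈ F 1
    rw [psi_X0]; exact X_mem 0
  · change psi (X 1) ∈ F 1
    rw [psi_X1]
    exact mem_F_of_le (by norm_num) (F_mul (X_mem 0) (X_mem 1))

/-- `g ∘ ψ = ψ ∘ f` -/
def Rel (f g : RingAut L) : Prop := ∀ r, g (psi r) = psi (f r)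

lemma rel_of_gen {f g : RingAut L} (hg : g ∈ Gam 1) (h : ∀ i, g (psi (X i)) = psi (f (X i))) :
    Rel f g := by
  have h1 : (RingEquiv.toRingHom g).comp psi = psi.comp (RingEquiv.toRingHom f) := by
    apply hom_ext
    · intro i
      change g (psi (X i)) ∈ F 1
      have := (op_mem_O_zero hg) _ _ (psi_mem i)
      rwa [add_zero] at this
    · exact h
  intro r
  exact congrArg (fun t : L →+* L => t r) h1

lemma rel_mul {f g f' g' : RingAut L} (h : Rel f g) (h' : Rel f' g') : Rel (f * f') (g * g') := by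
  intro r
  change g (g' (psi r)) = psi (f (f' r))
  rw [h', h]

lemma rel_one : Rel 1 1 := fun _ => rfl

lemma rel_inv {f g : RingAut L} (h : Rel f g) : Rel f⁻¹ g⁻¹ := by
  intro r
  have h1 := h (f⁻¹ r)
  rw [aut_inv_apply] at h1
  rw [← h1, aut_inv_apply']

lemma rel_unique {f g g' : RingAut L} (hg : g ∈ Gam 1) (h : Rel f g) (h' : Rel f g') : g = g' := by
  have e0 : g (X 0) = g' (X 0) := by
    have h1 := h (X 0)
    have h2 := h' (X 0)
    rw [psi_X0] at h1 h2
    rw [h1, h2]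
  have e1 : g (X 1) = g' (X 1) := by
    have h1 := h (X 1)
    have h2 := h' (X 1)
    rw [psi_X1, map_mul] at h1 h2
    rw [← e0] at h2
    have hne : g (X 0) ≠ 0 := by
      intro h0
      have h3 : (X 0 : L) = 0 := by
        rw [← aut_inv_apply' g (X 0), h0, map_zero]
      have h4 := X_pow_ne_zero 0 1
      rw [pow_one] at h4
      exact h4 h3
    exact mul_left_cancel₀ hne (h1.trans h2.symm)
  apply aut_ext le_rfl hg
  intro i
  fin_cases i
  · exact e0
  · exact e1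

/-- the domain of the virtual endomorphism -/
noncomputable def VH : Subgroup G1 where
  carrier := {f | ∃ g : G1, Rel f g}
  mul_mem' := by
    rintro a b ⟨g, hg⟩ ⟨h, hh⟩
    exact ⟨g * h, rel_mul hg hh⟩
  one_mem' := ⟨1, rel_one⟩
  inv_mem' := by
    rintro a ⟨g, hg⟩
    exact ⟨g⁻¹, rel_inv hg⟩

lemma mem_VH {f : G1} : f ∈ VH ↔ ∃ g : G1, Rel f g := Iff.rfl

/-- the virtual endomorphism -/
noncomputable def vphi : VH →* G1 :=
  MonoidHom.mk' (fun f => (mem_VH.mp f.2).choose) (by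
    intro a b
    have ha := (mem_VH.mp a.2).choose_spec
    have hb := (mem_VH.mp b.2).choose_spec
    have hab := (mem_VH.mp (a * b).2).choose_spec
    apply Subtype.ext
    apply rel_unique (f := ((a * b : VH) : G1)) (mem_VH.mp (a * b).2).choose.2 hab
    exact rel_mul ha hb)

lemma vphi_spec (f : VH) : Rel (f : G1) (vphi f) := (mem_VH.mp f.2).choose_spec

lemma vphi_eq {f : VH} {g : G1} (h : Rel (f : G1) g) : vphi f = g := by
  apply Subtype.ext
  exact rel_unique (vphi f).2 (vphi_spec f) h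

lemma Gs_le_VH : Gs 2 ≤ VH := by
  intro f hf
  have hf' : (f : RingAut L) ∈ Gam 2 := hf
  obtain ⟨a, ha⟩ := psi_F 3 _ (gen_of_mem_Gam hf' 0)
  obtain ⟨b, hb⟩ := psi_F 3 _ (gen_of_mem_Gam hf' 1)
  rw [map_sub, psi_X0, sub_eq_iff_eq_add] at ha
  rw [map_sub, psi_X1, sub_eq_iff_eq_add] at hb
  -- the unit `1 + x^2 a`
  have hu : IsUnit (1 + (X 0) ^ 2 * a) := by
    rw [isUnit_iff]
    intro h3
    have h4 : (X 0) ^ 2 * a ∈ F 1 := by
      have := F_mul (X_pow_mem 0 2) (mem_F_nonpos (le_refl (0 : ℤ)) a)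
      exact mem_F_of_le (by norm_num) this
    have h5 := (F _).sub_mem h3 h4
    rw [add_sub_cancel_right] at h5
    exact one_not_mem_F h5
  obtain ⟨w, hw⟩ := hu
  -- the element g
  have hx3 : (X 0 : L) ^ 3 * a ∈ F (1 + 1) := by
    have := F_mul (X_pow_mem 0 3) (mem_F_nonpos (le_refl (0 : ℤ)) a)
    exact mem_F_of_le (by norm_num) this
  have hc : ((X 0) ^ 2 * b - (X 0) ^ 2 * a * X 1) * (↑w⁻¹ : L) ∈ F (1 + 1) := by
    apply (F _).mul_mem_right
    apply (F _).sub_mem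
    · have := F_mul (X_pow_mem 0 2) (mem_F_nonpos (le_refl (0 : ℤ)) b)
      exact mem_F_of_le (by norm_num) this
    · have := F_mul (F_mul (X_pow_mem 0 2) (mem_F_nonpos (le_refl (0 : ℤ)) a))
        (mem_F_nonpos (le_refl (0 : ℤ)) (X 1))
      exact mem_F_of_le (by norm_num) this
  obtain ⟨g, hg, hgX⟩ := exists_mem_Gam (k := 1) le_rfl
    (![(X 0) ^ 3 * a, ((X 0) ^ 2 * b - (X 0) ^ 2 * a * X 1) * (↑w⁻¹ : L)]) (by
      intro i
      fin_cases i
      · exact hx3
      · exact hc)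
  have hg0 : g (X 0) = X 0 + (X 0) ^ 3 * a := hgX 0
  have hg1 : g (X 1) = X 1 + ((X 0) ^ 2 * b - (X 0) ^ 2 * a * X 1) * (↑w⁻¹ : L) := hgX 1
  rw [mem_VH]
  refine ⟨⟨g, hg⟩, ?_⟩
  apply rel_of_gen hg
  intro i
  fin_cases i
  · change g (psi (X 0)) = psi ((f : RingAut L) (X 0))
    rw [psi_X0, hg0, ha]
    push_cast
    ring
  · change g (psi (X 1)) = psi ((f : RingAut L) (X 1))
    rw [psi_X1, map_mul, hg0, hg1, hb]
    have e1 : X 0 + (X 0) ^ 3 * a = X 0 * (w : L) := by rw [hw]; ring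
    rw [e1]
    have e2 : X 0 * (w : L) * (X 1 + ((X 0) ^ 2 * b - (X 0) ^ 2 * a * X 1) * (↑w⁻¹ : L))
        = X 0 * ((w : L) * X 1 + ((X 0) ^ 2 * b - (X 0) ^ 2 * a * X 1) * ((w : L) * (↑w⁻¹ : L))) := by
      ring
    rw [e2, Units.mul_inv, mul_one, hw]
    push_cast
    ring

/-- membership and image of the elementary automorphisms -/
lemma e_rel {j : ℕ} {f g : RingAut L} (hg : g ∈ Gam 1) (hf0 : f (X 0) = X 0)
    (hf1 : f (X 1) = X 1 + (X 0) ^ (j + 1 + 1)) (hg0 : g (X 0) = X 0)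
    (hg1 : g (X 1) = X 1 + (X 0) ^ (j + 1)) : Rel f g := by
  apply rel_of_gen hg
  intro i
  fin_cases i
  · change g (psi (X 0)) = psi (f (X 0))
    rw [psi_X0, hg0, hf0, psi_X0]
  · change g (psi (X 1)) = psi (f (X 1))
    rw [psi_X1, map_mul, hg0, hg1, hf1, map_add, map_pow, psi_X0, psi_X1]
    ring

lemma e_one_not_mem {f : G1} (hf0 : (f : RingAut L) (X 0) = X 0)
    (hf1 : (f : RingAut L) (X 1) = X 1 + (X 0) ^ (1 + 1)) : f ∉ VH := by
  rintro ⟨g, hg⟩
  have h0 := hg (X 0)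
  have h1 := hg (X 1)
  rw [hf0, psi_X0] at h0
  rw [hf1, psi_X1, map_mul, h0, map_add, map_pow, psi_X0, psi_X1] at h1
  have h2 : (X 0 : L) * (g : RingAut L) (X 1) = X 0 * (X 1 + X 0) := by
    rw [h1]; ring
  have hne : (X 0 : L) ≠ 0 := by
    have := X_pow_ne_zero 0 1
    rwa [pow_one] at this
  have h3 := mul_left_cancel₀ hne h2
  have h4 := gen_of_mem_Gam g.2 1
  rw [h3, add_sub_cancel_left] at h4
  have h5 := h4 (Finsupp.single 0 1) (by rw [Finsupp.degree_single]; norm_num)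
  rw [coeff_X, if_pos rfl] at h5
  exact one_ne_zero h5

lemma core_trivial (K : Subgroup G1) (hKn : K.Normal) (hK : K ≤ VH)
    (hφ : ∀ k (hk : k ∈ K), vphi ⟨k, hK hk⟩ ∈ K) : K = ⊥ := by
  by_contra hne
  obtain ⟨M, hM⟩ := KT_G1 hKn hne
  -- all elementary automorphisms lie in K
  have key : ∀ t : ℕ, ∀ j, M ≤ j + t → ∀ f : G1, (f : RingAut L) (X 0) = X 0 →
      (f : RingAut L) (X 1) = X 1 + (X 0) ^ (j + 1 + 1) → f ∈ K := by
    intro t
    induction t with
    | zero =>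
      intro j hj f hf0 hf1
      apply hM
      change (f : RingAut L) ∈ Gam M
      apply Gam_anti (show M ≤ j + 1 by omega)
      apply mem_Gam_of_gen (by omega)
      intro i
      fin_cases i
      · change (f : RingAut L) (X 0) - X 0 ∈ _
        rw [hf0, sub_self]
        exact (F _).zero_mem
      · change (f : RingAut L) (X 1) - X 1 ∈ _
        rw [hf1, add_sub_cancel_left]
        have := X_pow_mem 0 (j + 1 + 1)
        push_cast at this ⊢
        exact this
    | succ t ih =>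
      intro j hj f hf0 hf1
      obtain ⟨g, hg, hg0, hg1⟩ := exists_e (j := j + 1 + 1) (by omega)
      have hg' : g ∈ Gam 1 := Gam_anti (by omega) hg
      have h1 := ih (j + 1) (by omega) ⟨g, hg'⟩ hg0 hg1
      have h2 : vphi ⟨⟨g, hg'⟩, hK h1⟩ = f := by
        apply vphi_eq
        exact e_rel f.2 hg0 hg1 hf0 hf1
      rw [← h2]
      exact hφ _ h1
  obtain ⟨g, hg, hg0, hg1⟩ := exists_e (j := 1) le_rfl
  have h1 := key M 0 (by omega) ⟨g, hg⟩ hg0 hg1
  exact e_one_not_mem (f := ⟨g, hg⟩) hg0 hg1 (hK h1)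

theorem selfSimilar_G1 : AdmitsSelfSimilarAction G1 := by
  apply selfSimilar_of_virtual_endo VH vphi (finiteIndex_of_Gs_le Gs_le_VH)
  · intro h
    obtain ⟨g, hg, hg0, hg1⟩ := exists_e (j := 1) le_rfl
    apply e_one_not_mem (f := ⟨g, hg⟩) hg0 hg1
    rw [h]
    exact Subgroup.mem_top _
  · exact core_trivial

end Pool.Agent.Helper48.HJI
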