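import Mathlib
import Pool.Agent.Helper48.HJI.Virt

set_option autoImplicit false

namespace Pool.Agent.Helper48.HJI

open MvPowerSeries Finset

/-! ### Non-linearity -/

/-- additive polynomials with kernel spanned by `x^2, ..., x^(m+1)` -/
noncomputable def Q : ℕ → L → L
  | 0, u => u
  | (m + 1), u => (Q m u) ^ 2 + Q m ((X 0) ^ (m + 2)) * Q m u

lemma Q_zero (u : L) : Q 0 u = u := by rw [Q]

lemma Q_succ (m : ℕ) (u : L) : Q (m + 1) u = (Q m u) ^ 2 + Q m ((X 0) ^ (m + 2)) * Q m u := by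
  rw [Q]

lemma Q_add (m : ℕ) : ∀ u v : L, Q m (u + v) = Q m u + Q m v := by
  induction m with
  | zero => intro u v; rw [Q_zero, Q_zero, Q_zero]
  | succ m ih =>
    intro u v
    rw [Q_succ, Q_succ, Q_succ, ih, add_pow_char]
    ring

lemma Q_map (m : ℕ) {g : RingAut L} (hg : g (X 0) = X 0) : ∀ u : L, g (Q m u) = Q m (g u) := by
  induction m with
  | zero => intro u; rw [Q_zero, Q_zero]
  | succ m ih =>
    intro u
    rw [Q_succ, Q_succ, map_add, map_pow, map_mul, ih, ih, map_pow, hg]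

lemma Q_b (m : ℕ) : ∀ i, i < m → Q m ((X 0) ^ (i + 2)) = 0 := by
  induction m with
  | zero => intro i hi; omega
  | succ m ih =>
    intro i hi
    rw [Q_succ]
    by_cases h : i < m
    · rw [ih i h]; ring
    · have : i = m := by omega
      rw [this, ← sq, add_self]

lemma Q_ker (m : ℕ) : ∀ u : L, Q m u = 0 → ∀ j, m + 2 ≤ j → coeff (Finsupp.single 0 j) u = 0 := by
  induction m with
  | zero =>
    intro u hu j _
    rw [Q_zero] at hu
    rw [hu, map_zero]
  | succ m ih =>
    intro u hu j hj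
    rw [Q_succ] at hu
    have e : (Q m u) ^ 2 + Q m ((X 0) ^ (m + 2)) * Q m u = Q m u * Q m (u + (X 0) ^ (m + 2)) := by
      rw [Q_add]; ring
    rw [e, mul_eq_zero] at hu
    rcases hu with h | h
    · exact ih u h j (by omega)
    · have h1 := ih _ h j (by omega)
      rw [map_add, coeff_X_pow, if_neg, add_zero] at h1
      · exact h1
      · intro h2
        have h3 := congrArg (fun f : Fin 2 →₀ ℕ => f 0) h2
        simp only [Finsupp.single_eq_same] at h3
        omega

lemma Q_b_ne (m : ℕ) : Q m ((X 0) ^ (m + 2)) ≠ 0 := by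
  intro h
  have h1 := Q_ker m _ h (m + 2) le_rfl
  rw [coeff_X_pow, if_pos rfl] at h1
  exact one_ne_zero h1

/-- the elements `g_i : y ↦ y + x^(i+2)` and `h_m : y ↦ y + x^2 Q_m(y)`. -/
lemma exists_seqs : ∃ g h : ℕ → G1, (∀ m i, i < m → h m * g i = g i * h m) ∧
    ∀ m, h m * g m ≠ g m * h m := by
  have h1 : ∀ i : ℕ, ∃ g : G1, (g : RingAut L) (X 0) = X 0 ∧
      (g : RingAut L) (X 1) = X 1 + (X 0) ^ (i + 2) := by
    intro i
    obtain ⟨g, hg, h0, h1⟩ := exists_e (j := i + 1) (by omega)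
    exact ⟨⟨g, Gam_anti (by omega) hg⟩, h0, h1⟩
  have h2 : ∀ m : ℕ, ∃ h : G1, (h : RingAut L) (X 0) = X 0 ∧
      (h : RingAut L) (X 1) = X 1 + (X 0) ^ 2 * Q m (X 1) := by
    intro m
    obtain ⟨g, hg, h0, h1⟩ := exists_elem (k := 1) le_rfl (b := (X 0) ^ 2 * Q m (X 1)) (by
      have := F_mul (X_pow_mem 0 2) (mem_F_nonpos (le_refl (0 : ℤ)) (Q m (X 1)))
      exact mem_F_of_le (by norm_num) this)
    exact ⟨⟨g, hg⟩, h0, h1⟩
  choose g hg0 hg1 using h1
  choose h hh0 hh1 using h2
  have e1 : ∀ m i, (h m : RingAut L) ((g i : RingAut L) (X 1))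
      = X 1 + (X 0) ^ 2 * Q m (X 1) + (X 0) ^ (i + 2) := by
    intro m i
    rw [hg1, map_add, map_pow, hh0, hh1]
  have e2 : ∀ m i, (g i : RingAut L) ((h m : RingAut L) (X 1))
      = X 1 + (X 0) ^ 2 * Q m (X 1) + (X 0) ^ (i + 2) + (X 0) ^ 2 * Q m ((X 0) ^ (i + 2)) := by
    intro m i
    rw [hh1, map_add, map_mul, map_pow, hg0, Q_map m (hg0 i), hg1, Q_add]
    ring
  refine ⟨g, h, ?_, ?_⟩
  · intro m i hi
    apply Subtype.ext
    apply aut_ext le_rfl (h m * g i).2
    intro l
    fin_cases l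
    · change (h m : RingAut L) ((g i : RingAut L) (X 0)) = (g i : RingAut L) ((h m : RingAut L) (X 0))
      rw [hg0, hh0, hg0]
    · change (h m : RingAut L) ((g i : RingAut L) (X 1)) = (g i : RingAut L) ((h m : RingAut L) (X 1))
      rw [e1, e2, Q_b m i hi, mul_zero, add_zero]
  · intro m hcon
    have h3 : (h m : RingAut L) ((g m : RingAut L) (X 1)) = (g m : RingAut L) ((h m : RingAut L) (X 1)) :=
      congrArg (fun t : G1 => (t : RingAut L) (X 1)) hcon
    rw [e1, e2] at h3
    have h4 := left_eq_add.mp h3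
    rcases mul_eq_zero.mp h4 with h5 | h5
    · exact X_pow_ne_zero 0 2 h5
    · exact Q_b_ne m h5

theorem nonlinear_G1 {K : Type*} [Field K] (n : ℕ) (f : G1 →* Matrix.GeneralLinearGroup (Fin n) K) :
    ¬ Function.Injective f := by
  intro hinj
  obtain ⟨g, h, hc, hnc⟩ := exists_seqs
  -- centralizers in the matrix algebra
  let C : ℕ → Submodule K (Matrix (Fin n) (Fin n) K) := fun m =>
    { carrier := {A | ∀ i, i < m → A * (f (g i)).1 = (f (g i)).1 * A}
      add_mem' := by
        intro A B hA hB i hi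
        rw [add_mul, mul_add, hA i hi, hB i hi]
      zero_mem' := by
        intro i _
        rw [zero_mul, mul_zero]
      smul_mem' := by
        intro c A hA i hi
        rw [smul_mul_assoc, mul_smul_comm, hA i hi] }
  have hC : ∀ m A, A ∈ C m ↔ ∀ i, i < m → A * (f (g i)).1 = (f (g i)).1 * A := fun _ _ => Iff.rfl
  have hmono : ∀ a b, a ≤ b → C b ≤ C a := by
    intro a b hab A hA
    rw [hC] at hA ⊢
    intro i hi
    exact hA i (by omega)
  let c : ℕ →o (Submodule K (Matrix (Fin n) (Fin n) K))ᵒᵈ :=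
    ⟨fun m => OrderDual.toDual (C m), fun a b hab => hmono a b hab⟩
  obtain ⟨m, hm⟩ := IsArtinian.monotone_stabilizes c
  have h1 : C m = C (m + 1) := hm (m + 1) (by omega)
  have h2 : (f (h m)).1 ∈ C m := by
    rw [hC]
    intro i hi
    have := congrArg (fun t => (f t).1) (hc m i hi)
    simpa using this
  rw [h1, hC] at h2
  have h3 := h2 m (by omega)
  apply hnc m
  apply hinj
  rw [map_mul, map_mul]
  apply Units.ext
  exact h3

end Pool.Agent.Helper48.HJI
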